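import Pool.Agent.MP_122b1e_ag.Defs
import Pool.Agent.MP_122b1e_ag.Minor

section

set_option autoImplicit false

namespace Pool.Agent.MP_122b1e_ag

variable {ι K : Type} [Fintype ι] [DecidableEq ι] [Field K]

/-- The y-hat variable of a seed. -/
noncomputable def Seed.yhat (S : Seed ι K) (v : ι) : K := ∏ u, S.x u ^ (S.B u v)

def Seed.Skew (S : Seed ι K) : Prop := ∀ u v, S.B u v = -S.B v u

/-- The mutation rule on integer matrices. -/
def mutB {N : Type} [DecidableEq N] (B : N → N → ℤ) (m u v : N) : ℤ :=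
  if u = m ∨ v = m then -B u v
  else B u v + max (B u m) 0 * max (B m v) 0 - max (-B u m) 0 * max (-B m v) 0

omit [Fintype ι] [DecidableEq ι] [Field K] in
lemma Seed.Skew.diag {S : Seed ι K} (h : S.Skew) (m : ι) : S.B m m = 0 := by
  have := h m m; omega

lemma Seed.Skew.mutate {S : Seed ι K} (h : S.Skew) (m : ι) : (S.mutate m).Skew := by
  intro u v
  simp only [Seed.mutate]
  by_cases h1 : u = m ∨ v = m
  · rw [if_pos h1, if_pos h1.symm, h u v]
  · rw [if_neg h1, if_neg (fun h => h1 h.symm), h u v, h u m, h m v]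
    simp only [neg_neg]; ring

lemma Seed.mutate_x_ne (S : Seed ι K) {m v : ι} (h : v ≠ m) : (S.mutate m).x v = S.x v := by
  simp [Seed.mutate, h]

lemma Seed.pos_eq (S : Seed ι K) (hx : ∀ u, S.x u ≠ 0) (m : ι) :
    (∏ u, S.x u ^ (S.B u m).toNat) = S.yhat m * ∏ u, S.x u ^ (-S.B u m).toNat := by
  rw [Seed.yhat, ← Finset.prod_mul_distrib]
  refine Finset.prod_congr rfl fun u _ => ?_
  rw [← zpow_natCast, ← zpow_natCast, ← zpow_add₀ (hx u)]
  congr 1; omega

lemma Seed.mutate_x_self (S : Seed ι K) (hx : ∀ u, S.x u ≠ 0) (m : ι) :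
    (S.mutate m).x m = (1 + S.yhat m) * (∏ u, S.x u ^ (-S.B u m).toNat) / S.x m := by
  simp only [Seed.mutate, if_true]
  rw [S.pos_eq hx]; ring

lemma Seed.yhat_mutate_self (S : Seed ι K) (hs : S.Skew) (m : ι) :
    (S.mutate m).yhat m = (S.yhat m)⁻¹ := by
  rw [Seed.yhat, Seed.yhat, ← Finset.prod_inv_distrib]
  refine Finset.prod_congr rfl fun u _ => ?_
  by_cases h : u = m
  · subst h
    simp [Seed.mutate, hs.diag u]
  · rw [S.mutate_x_ne h]
    simp [Seed.mutate]

lemma Seed.yhat_mutate_ne (S : Seed ι K) (hs : S.Skew) (hx : ∀ u, S.x u ≠ 0) {m v : ι}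
    (hv : v ≠ m) :
    (S.mutate m).yhat v =
      S.yhat v * S.yhat m ^ (max (S.B m v) 0) * (1 + S.yhat m) ^ (-S.B m v) := by
  set N : K := ∏ u, S.x u ^ (-S.B u m).toNat with hN
  have hN0 : N ≠ 0 := Finset.prod_ne_zero_iff.2 fun u _ => pow_ne_zero _ (hx u)
  have hP := S.pos_eq hx m
  rw [← hN] at hP
  set b := S.B m v with hb
  have key : (S.mutate m).yhat v = (S.mutate m).x m ^ (-b) * (S.x m ^ (-b) * S.yhat v *
      (∏ u, S.x u ^ (S.B u m).toNat) ^ (max b 0) * N ^ (-(max (-b) 0))) := by
    rw [Seed.yhat, Seed.yhat, hN, ← Finset.prod_zpow, ← Finset.prod_zpow, mul_assoc, mul_assoc,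
      ← Finset.prod_mul_distrib, ← Finset.prod_mul_distrib,
      ← Finset.mul_prod_erase _ _ (Finset.mem_univ m),
      ← Finset.mul_prod_erase _ _ (Finset.mem_univ m)]
    have e1 : (S.mutate m).B m v = -b := by simp [Seed.mutate, hb]
    rw [e1, hs.diag m]
    simp only [neg_zero, Int.toNat_zero, pow_zero, one_zpow, mul_one]
    rw [← mul_assoc (S.x m ^ (-b)), ← zpow_add₀ (hx m), ← hb, neg_add_cancel, zpow_zero, one_mul]
    congr 1
    refine Finset.prod_congr rfl fun u hu => ?_
    have hum : u ≠ m := Finset.ne_of_mem_erase hu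
    rw [S.mutate_x_ne hum, ← zpow_natCast, ← zpow_natCast, ← zpow_mul, ← zpow_mul,
      ← zpow_add₀ (hx u), ← zpow_add₀ (hx u)]
    congr 1
    simp only [Seed.mutate, hum, hv, or_self, if_false, Int.ofNat_toNat, ← hb]
    ring
  rw [key, S.mutate_x_self hx, ← hN, hP, div_zpow, mul_zpow, mul_zpow]
  have h1 : S.x m ^ (-b) ≠ 0 := zpow_ne_zero _ (hx m)
  have h2 : N ^ (-b) * N ^ (max b 0) * N ^ (-(max (-b) 0)) = 1 := by
    rw [← zpow_add₀ hN0, ← zpow_add₀ hN0]
    have : -b + max b 0 + -(max (-b) 0) = 0 := by omega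
    rw [this, zpow_zero]
  field_simp
  calc _ = (1 + S.yhat m) ^ (-b) * S.yhat v * S.yhat m ^ (max b 0) *
      (N ^ (-b) * N ^ (max b 0) * N ^ (-(max (-b) 0))) := by ring
    _ = _ := by rw [h2]; ring

lemma Reachable.skew {mu : ι → Prop} {S₀ S : Seed ι K} (h : Reachable mu S₀ S) (h0 : S₀.Skew) :
    S.Skew := by
  induction h with
  | refl => exact h0
  | step m _ _ ih => exact ih.mutate m

lemma Reachable.pos {mu : ι → Prop} {S₀ S : Seed ι K} (h : Reachable mu S₀ S) (P : K → Prop)
    (h1 : P 1) (hadd : ∀ a b, P a → P b → P (a + b)) (hmul : ∀ a b, P a → P b → P (a * b))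
    (hinv : ∀ a, P a → P a⁻¹) (h0 : ∀ v, P (S₀.x v)) : ∀ v, P (S.x v) := by
  induction h with
  | refl => exact h0
  | @step S m _ _ ih =>
    intro v
    have hpow : ∀ a (n : ℕ), P a → P (a ^ n) := by
      intro a n ha
      induction n with
      | zero => simpa using h1
      | succ n ihn => rw [pow_succ]; exact hmul _ _ ihn ha
    have hprod : ∀ e : ι → ℕ, P (∏ u, S.x u ^ e u) := fun e =>
      Finset.prod_induction _ P hmul h1 fun u _ => hpow _ _ (ih u)
    by_cases hv : v = m
    · subst hv
      simp only [Seed.mutate, if_true, div_eq_mul_inv]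
      exact hmul _ _ (hadd _ _ (hprod _) (hprod _)) (hinv _ (ih v))
    · rw [S.mutate_x_ne hv]; exact ih v

/-- A multiplicative group of nonzero elements of `K`. -/
structure UnitSet (K : Type) [Field K] where
  mem : K → Prop
  one : mem 1
  mul : ∀ a b, mem a → mem b → mem (a * b)
  inv : ∀ a, mem a → mem a⁻¹
  ne : ∀ a, mem a → a ≠ 0

/-- Equality up to a unit. -/
def UnitSet.Eqv (U : UnitSet K) (a b : K) : Prop := ∃ u, U.mem u ∧ a = u * b

lemma UnitSet.Eqv.refl (U : UnitSet K) (a : K) : U.Eqv a a := ⟨1, U.one, by simp⟩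

lemma UnitSet.Eqv.symm {U : UnitSet K} {a b : K} (h : U.Eqv a b) : U.Eqv b a := by
  obtain ⟨u, hu, rfl⟩ := h
  exact ⟨u⁻¹, U.inv _ hu, by have := U.ne _ hu; field_simp⟩

lemma UnitSet.Eqv.trans {U : UnitSet K} {a b c : K} (h : U.Eqv a b) (h' : U.Eqv b c) :
    U.Eqv a c := by
  obtain ⟨u, hu, rfl⟩ := h
  obtain ⟨v, hv, rfl⟩ := h'
  exact ⟨u * v, U.mul _ _ hu hv, by ring⟩

lemma UnitSet.Eqv.mul {U : UnitSet K} {a b c d : K} (h : U.Eqv a b) (h' : U.Eqv c d) :
    U.Eqv (a * c) (b * d) := by
  obtain ⟨u, hu, rfl⟩ := h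
  obtain ⟨v, hv, rfl⟩ := h'
  exact ⟨u * v, U.mul _ _ hu hv, by ring⟩

lemma UnitSet.Eqv.inv {U : UnitSet K} {a b : K} (h : U.Eqv a b) : U.Eqv a⁻¹ b⁻¹ := by
  obtain ⟨u, hu, rfl⟩ := h
  exact ⟨u⁻¹, U.inv _ hu, by rw [mul_inv]⟩

lemma UnitSet.Eqv.pow {U : UnitSet K} {a b : K} (h : U.Eqv a b) (n : ℕ) :
    U.Eqv (a ^ n) (b ^ n) := by
  induction n with
  | zero => simpa using UnitSet.Eqv.refl U 1
  | succ n ih => rw [pow_succ, pow_succ]; exact ih.mul h

lemma UnitSet.eqv_one {U : UnitSet K} {a : K} : U.Eqv a 1 ↔ U.mem a :=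
  ⟨fun ⟨u, hu, h⟩ => by rw [h, mul_one]; exact hu, fun h => ⟨a, h, by simp⟩⟩

lemma UnitSet.Eqv.mem {U : UnitSet K} {a b : K} (h : U.Eqv a b) (hb : U.mem b) : U.mem a :=
  UnitSet.eqv_one.1 (h.trans (UnitSet.eqv_one.2 hb))

lemma UnitSet.Eqv.prod {U : UnitSet K} {α : Type} (T : Finset α) (f g : α → K)
    (h : ∀ a ∈ T, U.Eqv (f a) (g a)) : U.Eqv (∏ a ∈ T, f a) (∏ a ∈ T, g a) := by
  classical
  induction T using Finset.induction_on with
  | empty => simpa using UnitSet.Eqv.refl U 1
  | insert a T ha ih =>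
    rw [Finset.prod_insert ha, Finset.prod_insert ha]
    exact (h a (by simp)).mul (ih fun b hb => h b (by simp [hb]))

/-- A reduced seed: active names, values up to units, exchange matrix and y-hat values. -/
structure RSeed (N K : Type) where
  act : N → Prop
  X : N → K
  B : N → N → ℤ
  Y : N → K

/-- The seed `S` is modelled by the reduced seed `R`. -/
structure Rel {N : Type} (U : UnitSet K) (mu : ι → Prop) (φ : N → ι) (S : Seed ι K)
    (R : RSeed N K) : Prop where
  inj : ∀ a b, R.act a → R.act b → φ a = φ b → a = b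
  mutable : ∀ a, R.act a → mu (φ a)
  unit : ∀ v, (∀ a, R.act a → φ a ≠ v) → U.mem (S.x v)
  x : ∀ a, R.act a → U.Eqv (S.x (φ a)) (R.X a)
  B : ∀ a b, R.act a → R.act b → S.B (φ a) (φ b) = R.B a b
  Y : ∀ a, R.act a → S.yhat (φ a) = R.Y a

/-- Change of model, possibly dropping active names whose value is a unit. -/
lemma Rel.shrink {N : Type} {U : UnitSet K} {mu : ι → Prop} {φ : N → ι} {S : Seed ι K}
    {R R' : RSeed N K} (h : Rel U mu φ S R) (hact : ∀ a, R'.act a → R.act a)
    (hu : ∀ a, R.act a → ¬ R'.act a → U.mem (R.X a))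
    (hX : ∀ a, R'.act a → R'.X a = R.X a)
    (hB : ∀ a b, R'.act a → R'.act b → R'.B a b = R.B a b)
    (hY : ∀ a, R'.act a → R'.Y a = R.Y a) : Rel U mu φ S R' where
  inj a b ha hb := h.inj a b (hact a ha) (hact b hb)
  mutable a ha := h.mutable a (hact a ha)
  unit v hv := by
    by_cases h1 : ∃ a, R.act a ∧ φ a = v
    · obtain ⟨a, ha, rfl⟩ := h1
      exact (h.x a ha).mem (hu a ha fun h' => hv a h' rfl)
    · exact h.unit v fun a ha e => h1 ⟨a, ha, e⟩
  x a ha := by rw [hX a ha]; exact h.x a (hact a ha)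
  B a b ha hb := by rw [hB a b ha hb]; exact h.B a b (hact a ha) (hact b hb)
  Y a ha := by rw [hY a ha]; exact h.Y a (hact a ha)

lemma Rel.mutate {N : Type} [DecidableEq N] {U : UnitSet K} {mu : ι → Prop} {φ : N → ι}
    {S : Seed ι K} {R R' : RSeed N K} (h : Rel U mu φ S R) (hs : S.Skew) (hx : ∀ u, S.x u ≠ 0)
    (m : N) (hm : R.act m) (hact : ∀ a, R'.act a ↔ R.act a)
    (hX : ∀ a, R.act a → a ≠ m → R'.X a = R.X a)
    (T : Finset N) (hT : ∀ a, R.act a → a ∉ T → 0 ≤ R.B a m)
    (hT' : ∀ a ∈ T, ¬ R.act a → U.mem (R.X a))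
    (hXm : R'.X m * R.X m = (1 + R.Y m) * ∏ a ∈ T, R.X a ^ (-R.B a m).toNat)
    (hB : ∀ a b, R.act a → R.act b → R'.B a b = mutB R.B m a b)
    (hYm : R'.Y m = (R.Y m)⁻¹)
    (hY : ∀ a, R.act a → a ≠ m →
      R'.Y a = R.Y a * R.Y m ^ (max (R.B m a) 0) * (1 + R.Y m) ^ (-R.B m a)) :
    Rel U mu φ (S.mutate (φ m)) R' where
  inj a b ha hb := h.inj a b ((hact a).1 ha) ((hact b).1 hb)
  mutable a ha := h.mutable a ((hact a).1 ha)
  unit v hv := by
    have h1 : ∀ a, R.act a → φ a ≠ v := fun a ha => hv a ((hact a).2 ha)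
    rw [S.mutate_x_ne (h1 m hm).symm]
    exact h.unit v h1
  x a ha := by
    classical
    have ha' := (hact a).1 ha
    by_cases ham : a = m
    · subst ham
      have hXa : R.X a ≠ 0 := by
        intro e
        obtain ⟨u, _, hu⟩ := h.x a ha'
        exact hx (φ a) (by rw [hu, e, mul_zero])
      have e1 : R'.X a = (1 + R.Y a) * (∏ b ∈ T, R.X b ^ (-R.B b a).toNat) * (R.X a)⁻¹ := by
        rw [← hXm]; field_simp
      rw [S.mutate_x_self hx, e1, h.Y a ha', div_eq_mul_inv]
      refine UnitSet.Eqv.mul (UnitSet.Eqv.mul (UnitSet.Eqv.refl _ _) ?_) (h.x a ha').inv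
      have s1 : U.Eqv (∏ u, S.x u ^ (-S.B u (φ a)).toNat)
          (∏ u ∈ (T.filter R.act).image φ, S.x u ^ (-S.B u (φ a)).toNat) := by
        rw [← Finset.prod_mul_prod_compl ((T.filter R.act).image φ)]
        conv_rhs => rw [← mul_one (∏ u ∈ (T.filter R.act).image φ, _)]
        refine (UnitSet.Eqv.refl _ _).mul (UnitSet.eqv_one.2 ?_)
        refine Finset.prod_induction _ U.mem U.mul U.one fun u hu => ?_
        by_cases h1 : ∃ b, R.act b ∧ φ b = u
        · obtain ⟨b, hb, rfl⟩ := h1
          have hbT : b ∉ T := by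
            intro hbT
            rw [Finset.mem_compl] at hu
            exact hu (Finset.mem_image_of_mem φ (Finset.mem_filter.2 ⟨hbT, hb⟩))
          have := hT b hb hbT
          rw [h.B b a hb ha']
          have e : (-R.B b a).toNat = 0 := by omega
          rw [e, pow_zero]; exact U.one
        · have := (UnitSet.eqv_one.2 (h.unit u fun b hb e => h1 ⟨b, hb, e⟩)).pow
            (-S.B u (φ a)).toNat
          rw [one_pow] at this
          exact UnitSet.eqv_one.1 this
      refine s1.trans ?_
      rw [Finset.prod_image (fun b hb c hc e => h.inj b c (Finset.mem_filter.1 hb).2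
        (Finset.mem_filter.1 hc).2 e), Finset.prod_filter]
      refine UnitSet.Eqv.prod _ _ _ fun b hb => ?_
      split_ifs with hb'
      · rw [h.B b a hb' ha']; exact (h.x b hb').pow _
      · have := (UnitSet.eqv_one.2 (hT' b hb hb')).pow (-R.B b a).toNat
        rw [one_pow] at this
        exact this.symm
    · rw [S.mutate_x_ne (fun e => ham (h.inj a m ha' hm e)), hX a ha' ham]
      exact h.x a ha'
  B a b ha hb := by
    have ha' := (hact a).1 ha
    have hb' := (hact b).1 hb
    rw [hB a b ha' hb']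
    have e1 : φ a = φ m ↔ a = m := ⟨h.inj a m ha' hm, fun e => by rw [e]⟩
    have e2 : φ b = φ m ↔ b = m := ⟨h.inj b m hb' hm, fun e => by rw [e]⟩
    simp only [Seed.mutate, mutB, e1, e2, h.B a b ha' hb', h.B a m ha' hm, h.B m b hm hb']
  Y a ha := by
    have ha' := (hact a).1 ha
    by_cases ham : a = m
    · subst ham
      rw [S.yhat_mutate_self hs, hYm, h.Y a ha']
    · rw [S.yhat_mutate_ne hs hx (fun e => ham (h.inj a m ha' hm e)), hY a ha' ham,
        h.Y a ha', h.Y m hm, h.B m a hm ha']

end Pool.Agent.MP_122b1e_ag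

end

section

set_option autoImplicit false

namespace Pool.Agent.MP_122b1e_ag

variable {N K : Type} [DecidableEq N] [Field K]

/-- Exchange matrix of the oriented triangle `a → b → c → a`. -/
def triB (a b c u v : N) : ℤ :=
  (if u = a ∧ v = b then 1 else 0) + (if u = b ∧ v = c then 1 else 0) +
    (if u = c ∧ v = a then 1 else 0) - (if u = b ∧ v = a then 1 else 0) -
    (if u = c ∧ v = b then 1 else 0) - (if u = a ∧ v = c then 1 else 0)

/-- Contribution of the oriented triangle `a → b → c → a` to the y-hat variables. -/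
def triY (a b c : N) (xa xb xc : K) (v : N) : K :=
  (if v = a then xc / xb else 1) * (if v = b then xa / xc else 1) *
    (if v = c then xb / xa else 1)

lemma triB_left {a b c u : N} (ha : u ≠ a) (hb : u ≠ b) (hc : u ≠ c) (v : N) :
    triB a b c u v = 0 := by simp [triB, ha, hb, hc]

lemma triB_right {a b c v : N} (ha : v ≠ a) (hb : v ≠ b) (hc : v ≠ c) (u : N) :
    triB a b c u v = 0 := by simp [triB, ha, hb, hc]

lemma triY_ne {a b c v : N} (ha : v ≠ a) (hb : v ≠ b) (hc : v ≠ c) (xa xb xc : K) :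
    triY a b c xa xb xc v = 1 := by simp [triY, ha, hb, hc]

lemma triB_ac {a b c u v : N} (hu : u ≠ a) (hu' : u ≠ c) (hv : v ≠ a) (hv' : v ≠ c) :
    triB a b c u v = 0 := by simp [triB, hu, hu', hv, hv']

lemma triB_bc {a b c u v : N} (hu : u ≠ b) (hu' : u ≠ c) (hv : v ≠ b) (hv' : v ≠ c) :
    triB a b c u v = 0 := by simp [triB, hu, hu', hv, hv']

/-- Five pairwise distinct names. -/
structure Dist5 (a m d cp cm : N) : Prop where
  h1 : a ≠ m
  h2 : a ≠ d
  h3 : a ≠ cp
  h4 : a ≠ cm
  h5 : m ≠ d
  h6 : m ≠ cp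
  h7 : m ≠ cm
  h8 : d ≠ cp
  h9 : d ≠ cm
  h10 : cp ≠ cm

lemma flip_col {a m d cp cm : N} (h : Dist5 a m d cp cm) (u : N) :
    triB m a cm u m + triB m d cp u m =
      (if u = cp then 1 else 0) + (if u = cm then 1 else 0) - (if u = a then 1 else 0) -
        (if u = d then 1 else 0) := by
  obtain ⟨h1, h2, h3, h4, h5, h6, h7, h8, h9, h10⟩ := h
  simp only [triB, h1.symm, h5, h6, h7, and_false, and_true, if_false]
  ring

lemma flip_row {a m d cp cm : N} (h : Dist5 a m d cp cm) (u : N) :
    triB m a cm m u + triB m d cp m u =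
      (if u = a then 1 else 0) + (if u = d then 1 else 0) - (if u = cp then 1 else 0) -
        (if u = cm then 1 else 0) := by
  obtain ⟨h1, h2, h3, h4, h5, h6, h7, h8, h9, h10⟩ := h
  simp only [triB, h1.symm, h5, h6, h7, false_and, true_and, if_false]
  ring

lemma flip_B {a m d cp cm : N} (h : Dist5 a m d cp cm) (B₀ B : N → N → ℤ)
    (h0 : ∀ u, B₀ u m = 0) (h0' : ∀ u, B₀ m u = 0)
    (hB : ∀ u v, B u v = B₀ u v + (triB m a cm u v + triB m d cp u v)) (u v : N) :
    B₀ u v + (triB a m cp u v + triB d m cm u v) = mutB B m u v := by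
  unfold mutB
  rw [hB u m, hB m v, hB u v, h0, h0', flip_col h, flip_row h]
  obtain ⟨h1, h2, h3, h4, h5, h6, h7, h8, h9, h10⟩ := h
  have hu : u = a ∨ u = m ∨ u = d ∨ u = cp ∨ u = cm ∨
      (u ≠ a ∧ u ≠ m ∧ u ≠ d ∧ u ≠ cp ∧ u ≠ cm) := by tauto
  have hv : v = a ∨ v = m ∨ v = d ∨ v = cp ∨ v = cm ∨
      (v ≠ a ∧ v ≠ m ∧ v ≠ d ∧ v ≠ cp ∧ v ≠ cm) := by tauto
  have := h1.symm; have := h2.symm; have := h3.symm; have := h4.symm; have := h5.symm
  have := h6.symm; have := h7.symm; have := h8.symm; have := h9.symm; have := h10.symm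
  rcases hu with hu | hu | hu | hu | hu | ⟨hu1, hu2, hu3, hu4, hu5⟩ <;>
  rcases hv with hv | hv | hv | hv | hv | ⟨hv1, hv2, hv3, hv4, hv5⟩ <;>
  simp [triB, sub_eq_add_neg, *]

lemma flip_Y_self {a m d cp cm : N} (h : Dist5 a m d cp cm) (xa xm xd xp xc : K) :
    triY m a cm xm xa xc m * triY m d cp xm xd xp m = xc * xp / (xa * xd) := by
  obtain ⟨h1, h2, h3, h4, h5, h6, h7, h8, h9, h10⟩ := h
  simp only [triY, h1.symm, h5, h6, h7, if_true, if_false]
  ring

lemma flip_Y_self' {a m d cp cm : N} (h : Dist5 a m d cp cm) (xa xm xd xp xc : K) :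
    triY a m cp xa xm xp m * triY d m cm xd xm xc m = (xc * xp / (xa * xd))⁻¹ := by
  obtain ⟨h1, h2, h3, h4, h5, h6, h7, h8, h9, h10⟩ := h
  simp only [triY, h1.symm, h5, h6, h7, if_true, if_false]
  rw [inv_div]
  ring

lemma flip_Y {a m d cp cm : N} (h : Dist5 a m d cp cm) {xa xm xd xp xc xm' : K}
    (ha : xa ≠ 0) (hm : xm ≠ 0) (hd : xd ≠ 0) (hp : xp ≠ 0) (hc : xc ≠ 0) (hm' : xm' ≠ 0)
    (e : xm * xm' = xa * xd + xc * xp) {v : N} (hv : v ≠ m) :
    triY a m cp xa xm' xp v * triY d m cm xd xm' xc v =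
      triY m a cm xm xa xc v * triY m d cp xm xd xp v *
        (xc * xp / (xa * xd)) ^ (max (triB m a cm m v + triB m d cp m v) 0) *
        (1 + xc * xp / (xa * xd)) ^ (-(triB m a cm m v + triB m d cp m v)) := by
  rw [flip_row h]
  have e1 : 1 + xc * xp / (xa * xd) = xm * xm' / (xa * xd) := by rw [e]; field_simp
  rw [e1]
  clear e e1
  obtain ⟨h1, h2, h3, h4, h5, h6, h7, h8, h9, h10⟩ := h
  have := h1.symm; have := h2.symm; have := h3.symm; have := h4.symm; have := h5.symm
  have := h6.symm; have := h7.symm; have := h8.symm; have := h9.symm; have := h10.symm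
  have hv : v = a ∨ v = d ∨ v = cp ∨ v = cm ∨ (v ≠ a ∧ v ≠ d ∧ v ≠ cp ∧ v ≠ cm) := by tauto
  rcases hv with hv | hv | hv | hv | ⟨hv1, hv2, hv3, hv4⟩ <;> simp [triY, *] <;> field_simp

lemma square_B (a b a' b' u v : N) :
    triB b a a' u v + triB a' b' b u v = triB a' b' a u v + triB b a b' u v := by
  simp only [triB]; ring

lemma square_Y {a b a' b' : N} {xa xb xa' xb' : K} (ha : xa ≠ 0) (hb : xb ≠ 0) (ha' : xa' ≠ 0)
    (hb' : xb' ≠ 0) (v : N) :
    triY b a a' xb xa xa' v * triY a' b' b xa' xb' xb v =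
      triY a' b' a xa' xb' xa v * triY b a b' xb xa xb' v := by
  simp only [triY]
  split_ifs <;> field_simp

end Pool.Agent.MP_122b1e_ag

end

section

set_option autoImplicit false

namespace Pool.Agent.MP_122b1e_ag

/-- Letters of a double braid word, with parameters. -/
inductive Letter (R : Type) where
  | top (p : ℕ) (z : R) : Letter R
  | bot (p : ℕ) (z : R) : Letter R

section Ring
variable {R : Type} [CommRing R]

def Letter.pos : Letter R → ℕ
  | .top p _ => p
  | .bot p _ => p

def Letter.step : Letter R → Mat R → Mat R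
  | .top p z, M => colOp p z M
  | .bot p z, M => rowInv p z M

def run : Mat R → List (Letter R) → Mat R
  | M, [] => M
  | M, s :: w => run (s.step M) w

def cnt (r : ℕ) : List (Letter R) → ℕ
  | [] => 0
  | s :: w => cnt r w + if s.pos + 1 = r then 1 else 0

lemma run_append (M : Mat R) (w w' : List (Letter R)) :
    run M (w ++ w') = run (run M w) w' := by
  induction w generalizing M with
  | nil => rfl
  | cons s w ih => exact ih _

omit [CommRing R] in
lemma cnt_append (r : ℕ) (w w' : List (Letter R)) : cnt r (w ++ w') = cnt r w + cnt r w' := by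
  induction w with
  | nil => simp [cnt]
  | cons s w ih => simp only [List.cons_append, cnt, ih]; omega

lemma lead_step {r : ℕ} {s : Letter R} (h : s.pos + 1 ≠ r) (M : Mat R) :
    lead r (s.step M) = lead r M := by
  cases s with
  | top p z => exact lead_colOp (Ne.symm h) _ _
  | bot p z => exact lead_rowInv (Ne.symm h) _ _

lemma lead_run {r : ℕ} {w : List (Letter R)} (h : cnt r w = 0) (M : Mat R) :
    lead r (run M w) = lead r M := by
  induction w generalizing M with
  | nil => rfl
  | cons s w ih =>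
    simp only [cnt] at h
    have h1 : s.pos + 1 ≠ r := by intro e; simp [e] at h
    rw [run, ih (by omega), lead_step h1]

end Ring

variable {K : Type} [Field K]

abbrev Name : Type := ℕ × ℕ

def triS : Letter K → List (Letter K) → Name → Name → ℤ
  | .top p _, w => triB (p + 1, cnt (p + 1) w + 1) (p + 1, cnt (p + 1) w) (p + 2, cnt (p + 2) w)
  | .bot p _, w => triB (p + 1, cnt (p + 1) w) (p + 1, cnt (p + 1) w + 1) (p, cnt p w)

def triYS : Letter K → List (Letter K) → Mat K → Name → K
  | .top p z, w, M => triY (p + 1, cnt (p + 1) w + 1) (p + 1, cnt (p + 1) w)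
      (p + 2, cnt (p + 2) w) (lead (p + 1) M) (lead (p + 1) (colOp p z M)) (lead (p + 2) M)
  | .bot p z, w, M => triY (p + 1, cnt (p + 1) w) (p + 1, cnt (p + 1) w + 1) (p, cnt p w)
      (lead (p + 1) (rowInv p z M)) (lead (p + 1) M) (lead p M)

def mB : List (Letter K) → Name → Name → ℤ
  | [], _, _ => 0
  | s :: w, u, v => triS s w u v + mB w u v

def mY : Mat K → List (Letter K) → Name → K
  | _, [], _ => 1
  | M, s :: w, v => triYS s w M v * mY (s.step M) w v

def mX : Mat K → List (Letter K) → Name → K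
  | M, [], v => lead v.1 M
  | M, s :: w, v => if v.2 ≤ cnt v.1 w then mX (s.step M) w v else lead v.1 M

def act (w : List (Letter K)) (v : Name) : Prop := 1 ≤ v.2 ∧ v.2 < cnt v.1 w

/-- The reduced seed of a matrix and a double word. -/
def model (M : Mat K) (w : List (Letter K)) : RSeed Name K := ⟨act w, mX M w, mB w, mY M w⟩

omit [Field K] in
lemma triS_big (s : Letter K) (w : List (Letter K)) {u : Name} (h : cnt u.1 (s :: w) < u.2)
    (v : Name) : triS s w u v = 0 ∧ triS s w v u = 0 := by
  obtain ⟨r, m⟩ := u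
  cases s with
  | top p z =>
    simp only [cnt, Letter.pos] at h
    have h1 : (r, m) ≠ (p + 1, cnt (p + 1) w + 1) := by
      intro e; simp only [Prod.mk.injEq] at e; obtain ⟨rfl, rfl⟩ := e; simp at h
    have h2 : (r, m) ≠ (p + 1, cnt (p + 1) w) := by
      intro e; simp only [Prod.mk.injEq] at e; obtain ⟨rfl, rfl⟩ := e; omega
    have h3 : (r, m) ≠ (p + 2, cnt (p + 2) w) := by
      intro e; simp only [Prod.mk.injEq] at e; obtain ⟨rfl, rfl⟩ := e; omega
    exact ⟨triB_left h1 h2 h3 _, triB_right h1 h2 h3 _⟩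
  | bot p z =>
    simp only [cnt, Letter.pos] at h
    have h1 : (r, m) ≠ (p + 1, cnt (p + 1) w + 1) := by
      intro e; simp only [Prod.mk.injEq] at e; obtain ⟨rfl, rfl⟩ := e; simp at h
    have h2 : (r, m) ≠ (p + 1, cnt (p + 1) w) := by
      intro e; simp only [Prod.mk.injEq] at e; obtain ⟨rfl, rfl⟩ := e; omega
    have h3 : (r, m) ≠ (p, cnt p w) := by
      intro e; simp only [Prod.mk.injEq] at e; obtain ⟨rfl, rfl⟩ := e; omega
    exact ⟨triB_left h2 h1 h3 _, triB_right h2 h1 h3 _⟩

lemma triYS_big (s : Letter K) (w : List (Letter K)) (M : Mat K) {u : Name}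
    (h : cnt u.1 (s :: w) < u.2) : triYS s w M u = 1 := by
  obtain ⟨r, m⟩ := u
  cases s with
  | top p z =>
    simp only [cnt, Letter.pos] at h
    have h1 : (r, m) ≠ (p + 1, cnt (p + 1) w + 1) := by
      intro e; simp only [Prod.mk.injEq] at e; obtain ⟨rfl, rfl⟩ := e; simp at h
    have h2 : (r, m) ≠ (p + 1, cnt (p + 1) w) := by
      intro e; simp only [Prod.mk.injEq] at e; obtain ⟨rfl, rfl⟩ := e; omega
    have h3 : (r, m) ≠ (p + 2, cnt (p + 2) w) := by
      intro e; simp only [Prod.mk.injEq] at e; obtain ⟨rfl, rfl⟩ := e; omega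
    exact triY_ne h1 h2 h3 _ _ _
  | bot p z =>
    simp only [cnt, Letter.pos] at h
    have h1 : (r, m) ≠ (p + 1, cnt (p + 1) w + 1) := by
      intro e; simp only [Prod.mk.injEq] at e; obtain ⟨rfl, rfl⟩ := e; simp at h
    have h2 : (r, m) ≠ (p + 1, cnt (p + 1) w) := by
      intro e; simp only [Prod.mk.injEq] at e; obtain ⟨rfl, rfl⟩ := e; omega
    have h3 : (r, m) ≠ (p, cnt p w) := by
      intro e; simp only [Prod.mk.injEq] at e; obtain ⟨rfl, rfl⟩ := e; omega
    exact triY_ne h2 h1 h3 _ _ _

omit [Field K] in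
lemma triS_small (s : Letter K) (w : List (Letter K)) {u : Name} (h : u.2 < cnt u.1 w)
    (v : Name) : triS s w u v = 0 ∧ triS s w v u = 0 := by
  obtain ⟨r, m⟩ := u
  have h0 : ∀ r' m', cnt r' w ≤ m' → (r, m) ≠ (r', m') := by
    intro r' m' hm e; simp only [Prod.mk.injEq] at e; obtain ⟨rfl, rfl⟩ := e
    simp only at h; omega
  cases s with
  | top p z =>
    exact ⟨triB_left (h0 _ _ (by omega)) (h0 _ _ le_rfl) (h0 _ _ le_rfl) _,
      triB_right (h0 _ _ (by omega)) (h0 _ _ le_rfl) (h0 _ _ le_rfl) _⟩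
  | bot p z =>
    exact ⟨triB_left (h0 _ _ le_rfl) (h0 _ _ (by omega)) (h0 _ _ le_rfl) _,
      triB_right (h0 _ _ le_rfl) (h0 _ _ (by omega)) (h0 _ _ le_rfl) _⟩

lemma triYS_small (s : Letter K) (w : List (Letter K)) (M : Mat K) {u : Name}
    (h : u.2 < cnt u.1 w) : triYS s w M u = 1 := by
  obtain ⟨r, m⟩ := u
  have h0 : ∀ r' m', cnt r' w ≤ m' → (r, m) ≠ (r', m') := by
    intro r' m' hm e; simp only [Prod.mk.injEq] at e; obtain ⟨rfl, rfl⟩ := e
    simp only at h; omega
  cases s with
  | top p z => exact triY_ne (h0 _ _ (by omega)) (h0 _ _ le_rfl) (h0 _ _ le_rfl) _ _ _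
  | bot p z => exact triY_ne (h0 _ _ le_rfl) (h0 _ _ (by omega)) (h0 _ _ le_rfl) _ _ _

omit [Field K] in
lemma cnt_le_cons (r : ℕ) (s : Letter K) (w : List (Letter K)) : cnt r w ≤ cnt r (s :: w) := by
  simp [cnt]

omit [Field K] in
lemma mB_big (w : List (Letter K)) {u : Name} (h : cnt u.1 w < u.2) (v : Name) :
    mB w u v = 0 ∧ mB w v u = 0 := by
  induction w with
  | nil => simp [mB]
  | cons s w ih =>
    have := cnt_le_cons u.1 s w
    simp [mB, triS_big s w h v, ih (by omega)]

lemma mY_big (M : Mat K) (w : List (Letter K)) {u : Name} (h : cnt u.1 w < u.2) :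
    mY M w u = 1 := by
  induction w generalizing M with
  | nil => simp [mY]
  | cons s w ih =>
    have := cnt_le_cons u.1 s w
    simp [mY, triYS_big s w M h, ih _ (by omega)]

lemma mX_big (M : Mat K) (w : List (Letter K)) {u : Name} (h : cnt u.1 w ≤ u.2) :
    mX M w u = lead u.1 M := by
  induction w generalizing M with
  | nil => rfl
  | cons s w ih =>
    have := cnt_le_cons u.1 s w
    simp only [mX]
    split_ifs with h1
    · rw [ih _ (by omega), lead_step]
      intro e
      simp only [cnt, e, if_true] at h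
      omega
    · rfl

lemma mX_append (M : Mat K) (pre suf : List (Letter K)) {u : Name} (h : u.2 ≤ cnt u.1 suf) :
    mX M (pre ++ suf) u = mX (run M pre) suf u := by
  induction pre generalizing M with
  | nil => rfl
  | cons s w ih =>
    simp only [List.cons_append, mX, run]
    rw [if_pos (by rw [cnt_append]; omega), ih]

lemma mX_split (M : Mat K) (pre suf : List (Letter K)) (r : ℕ) :
    mX M (pre ++ suf) (r, cnt r suf) = lead r (run M pre) := by
  rw [mX_append _ _ _ le_rfl, mX_big _ _ le_rfl]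

lemma mX_append_big (M : Mat K) (pre suf suf' : List (Letter K))
    (hc : ∀ r, cnt r suf = cnt r suf') {u : Name} (h : cnt u.1 suf ≤ u.2) :
    mX M (pre ++ suf) u = mX M (pre ++ suf') u := by
  induction pre generalizing M with
  | nil => simp only [List.nil_append]; rw [mX_big _ _ h, mX_big _ _ (by rw [← hc]; exact h)]
  | cons s w ih =>
    simp only [List.cons_append, mX, cnt_append, hc, ih]

lemma pre_split (M : Mat K) (pre suf suf' : List (Letter K))
    (hc : ∀ r, cnt r suf = cnt r suf') :
    ∃ (Bp : Name → Name → ℤ) (Yp : Name → K),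
      (∀ u v, mB (pre ++ suf) u v = Bp u v + mB suf u v) ∧
      (∀ u v, mB (pre ++ suf') u v = Bp u v + mB suf' u v) ∧
      (∀ v, mY M (pre ++ suf) v = Yp v * mY (run M pre) suf v) ∧
      (∀ v, mY M (pre ++ suf') v = Yp v * mY (run M pre) suf' v) ∧
      (∀ u : Name, u.2 < cnt u.1 suf → (∀ v, Bp u v = 0 ∧ Bp v u = 0) ∧ Yp u = 1) := by
  induction pre generalizing M with
  | nil => exact ⟨fun _ _ => 0, fun _ => 1, by simp, by simp, by simp [run], by simp [run],
      by simp⟩
  | cons s w ih =>
    obtain ⟨Bp, Yp, h1, h2, h3, h4, h5⟩ := ih (s.step M)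
    have e1 : triS s (w ++ suf') = triS s (w ++ suf) := by
      cases s <;> simp only [triS, cnt_append, hc]
    have e2 : triYS s (w ++ suf') M = triYS s (w ++ suf) M := by
      cases s <;> simp only [triYS, cnt_append, hc]
    refine ⟨fun u v => triS s (w ++ suf) u v + Bp u v,
      fun v => triYS s (w ++ suf) M v * Yp v, ?_, ?_, ?_, ?_, ?_⟩
    · intro u v; simp only [List.cons_append, mB, h1, add_assoc]
    · intro u v; simp only [List.cons_append, mB, h2, add_assoc, e1]
    · intro v; simp only [List.cons_append, mY, h3, mul_assoc, run]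
    · intro v; simp only [List.cons_append, mY, h4, mul_assoc, run, e2]
    · intro u hu
      have hu' : u.2 < cnt u.1 (w ++ suf) := by rw [cnt_append]; omega
      refine ⟨fun v => ?_, ?_⟩
      · simp [triS_small s _ hu' v, (h5 u hu).1 v]
      · simp [triYS_small s _ M hu', (h5 u hu).2]

end Pool.Agent.MP_122b1e_ag

end

section

set_option autoImplicit false

namespace Pool.Agent.MP_122b1e_ag

variable {ι K : Type} [Fintype ι] [DecidableEq ι] [Field K]

/-- Frozen values are units. -/
structure Valid (k : ℕ) (U : UnitSet K) (M : Mat K) (w : List (Letter K)) : Prop where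
  pos : ∀ s ∈ w, s.pos + 1 < k
  start : ∀ r ≤ k, U.mem (lead r M)
  stop : ∀ r ≤ k, U.mem (lead r (run M w))

lemma Valid.unit {k : ℕ} {U : UnitSet K} {M : Mat K} {pre suf : List (Letter K)}
    (h : Valid k U M (pre ++ suf)) {r : ℕ} (hr : r ≤ k) (ha : ¬ act (pre ++ suf) (r, cnt r suf)) :
    U.mem (lead r (run M pre)) := by
  simp only [act, cnt_append, not_and, not_lt] at ha
  by_cases h0 : cnt r suf = 0
  · have := h.stop r hr
    rwa [run_append, lead_run h0] at this
  · rw [lead_run (by omega)]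
    exact h.start r hr

/-- Global data: the initial seed and the labelling of vertices. -/
structure Ctx (ι K : Type) [Fintype ι] [DecidableEq ι] [Field K] where
  U : UnitSet K
  mu : ι → Prop
  φ : Name → ι
  S₀ : Seed ι K
  skew : S₀.Skew
  nz : ∀ S, Reachable mu S₀ S → ∀ v, S.x v ≠ 0

/-- Some reachable seed is modelled by the matrix and the word. -/
def Ctx.Mod (C : Ctx ι K) (M : Mat K) (w : List (Letter K)) : Prop :=
  ∃ S, Reachable C.mu C.S₀ S ∧ Rel C.U C.mu C.φ S (model M w)

lemma Ctx.Mod.nz {C : Ctx ι K} {k : ℕ} {M : Mat K} {pre suf : List (Letter K)}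
    (h : C.Mod M (pre ++ suf)) (hv : Valid k C.U M (pre ++ suf)) {r : ℕ} (hr : r ≤ k) :
    lead r (run M pre) ≠ 0 := by
  by_cases ha : act (pre ++ suf) (r, cnt r suf)
  · obtain ⟨S, hS, hR⟩ := h
    obtain ⟨u, _, hu⟩ := hR.x _ ha
    intro e
    apply C.nz S hS (C.φ (r, cnt r suf))
    rw [hu]
    simp only [model, mX_split, e, mul_zero]
  · exact C.U.ne _ (hv.unit hr ha)

lemma Ctx.Mod.nil {C : Ctx ι K} {M : Mat K} (h : C.Mod M []) :
    ∃ S, Reachable C.mu C.S₀ S ∧ ∀ v, C.U.mem (S.x v) := by
  obtain ⟨S, hS, hR⟩ := h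
  refine ⟨S, hS, fun v => hR.unit v fun a ha => ?_⟩
  simp [model, act, cnt] at ha

lemma Ctx.Mod.delete {C : Ctx ι K} {M : Mat K} {p : ℕ} {z : K} {w : List (Letter K)}
    (h : C.Mod M (.top p z :: w)) (hu : C.U.mem (lead (p + 1) (colOp p z M))) :
    C.Mod (colOp p z M) w := by
  obtain ⟨S, hS, hR⟩ := h
  refine ⟨S, hS, hR.shrink ?_ ?_ ?_ ?_ ?_⟩
  · intro a ha
    have := cnt_le_cons a.1 (.top p z) w
    exact ⟨ha.1, by have := ha.2; omega⟩
  · rintro ⟨r, m⟩ ha hb
    simp only [model, act, cnt, Letter.pos, not_and, not_lt] at ha hb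
    have h1 : p + 1 = r := by
      by_contra h1
      simp only [h1, if_false] at ha
      omega
    subst h1
    simp only [if_true] at ha
    have h2 : m = cnt (p + 1) w := by omega
    subst h2
    have := mX_split M [.top p z] w (p + 1)
    simp only [List.singleton_append, run, Letter.step] at this
    simp only [model, this]
    exact hu
  · intro a ha
    simp only [model, mX, Letter.step]
    rw [if_pos ha.2.le]
  · intro a b ha hb
    simp only [model, mB, (triS_small _ _ ha.2 b).1, zero_add]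
  · intro a ha
    simp only [model, mY, triYS_small _ _ _ ha.2, one_mul, Letter.step]

lemma Ctx.Mod.left {C : Ctx ι K} {k : ℕ} {M : Mat K} {p : ℕ} {z ω : K} {w : List (Letter K)}
    (h : C.Mod M (.top p z :: w)) (hv : Valid k C.U M (.top p z :: w))
    (hω : lead (p + 1) (rowOp p ω M) = 0) :
    C.Mod (rowOp p ω (colOp p z M)) (.bot p ω :: w) := by
  obtain ⟨S, hS, hR⟩ := h
  have hp : p + 1 < k := hv.pos (.top p z) (by simp)
  have hc : ∀ r, cnt r (.bot p ω :: w) = cnt r (.top p z :: w) := fun r => rfl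
  have hne : ∀ a : Name, act (.bot p ω :: w) a → ∀ r, a ≠ (r, cnt r (.bot p ω :: w)) := by
    rintro a ha r rfl
    exact lt_irrefl _ ha.2
  have n1 : ∀ a : Name, act (.bot p ω :: w) a → a ≠ (p + 1, cnt (p + 1) w + 1) := by
    intro a ha; simpa [cnt, Letter.pos] using hne a ha (p + 1)
  have n2 : ∀ a : Name, act (.bot p ω :: w) a → a ≠ (p + 2, cnt (p + 2) w) := by
    intro a ha; simpa [cnt, Letter.pos] using hne a ha (p + 2)
  have n3 : ∀ a : Name, act (.bot p ω :: w) a → a ≠ (p, cnt p w) := by
    intro a ha; simpa [cnt, Letter.pos] using hne a ha p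
  refine ⟨S, hS, hR.shrink (fun a ha => ha) (fun a ha hb => absurd ha hb) ?_ ?_ ?_⟩
  · intro a ha
    have h1 : a.2 ≤ cnt a.1 w := by
      have := ha.2
      simp only [cnt] at this
      split_ifs at this <;> omega
    simp only [model, mX, Letter.step, rowInv_rowOp, if_pos h1]
  · intro a b ha hb
    simp only [model, mB, triS]
    rw [triB_bc (n1 a ha) (n3 a ha) (n1 b hb) (n3 b hb),
      triB_ac (n1 a ha) (n2 a ha) (n1 b hb) (n2 b hb)]
  · intro a ha
    simp only [model, mY, triYS, Letter.step, rowInv_rowOp]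
    congr 1
    have u0 := C.U.ne _ (hv.start p (by omega))
    have u1 := C.U.ne _ (hv.start (p + 1) (by omega))
    have u2 := C.U.ne _ (hv.start (p + 2) (by omega))
    have key := lead_key (isUnit_iff_ne_zero.2 u0) ω z
    rw [hω, zero_mul, zero_add] at key
    simp only [triY, n1 a ha, n2 a ha, n3 a ha, if_false, mul_one, one_mul]
    split_ifs
    · rw [lead_rowOp (by omega), lead_colOp (by omega)]
      have : lead (p + 1) (rowOp p ω (colOp p z M)) ≠ 0 := by
        intro e; rw [e, mul_zero] at key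
        exact mul_ne_zero u0 u2 key.symm
      field_simp
      rw [← key]; ring
    · rfl

lemma Ctx.Mod.right {C : Ctx ι K} {k : ℕ} {M : Mat K} {p : ℕ} {z ω : K} {w : List (Letter K)}
    (h : C.Mod M (w ++ [.bot p ω])) (hv : Valid k C.U M (w ++ [.bot p ω]))
    (hz : lead (p + 1) (colOp p z (run M (w ++ [.bot p ω]))) = 0) :
    C.Mod M (w ++ [.top p z]) := by
  obtain ⟨S, hS, hR⟩ := h
  have hp : p + 1 < k := hv.pos (.bot p ω) (by simp)
  have hc : ∀ r, cnt r [(.bot p ω : Letter K)] = cnt r [(.top p z : Letter K)] := fun r => rfl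
  have hact : ∀ a, act (w ++ [.top p z]) a → act (w ++ [.bot p ω]) a := by
    intro a ha; simpa only [act, cnt_append, hc] using ha
  have hact' : ∀ a, act (w ++ [.bot p ω]) a → act (w ++ [.top p z]) a := by
    intro a ha; simpa only [act, cnt_append, hc] using ha
  have n0 : ∀ a : Name, act (w ++ [.top p z]) a → ∀ r, a ≠ (r, 0) := by
    rintro a ha r rfl
    exact absurd ha.1 (by simp)
  obtain ⟨Bp, Yp, h1, h2, h3, h4, -⟩ := pre_split M w _ _ hc
  refine ⟨S, hS, hR.shrink hact (fun a ha hb => absurd (hact' a ha) hb) ?_ ?_ ?_⟩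
  · intro a ha
    refine (mX_append_big M w _ _ hc ?_).symm
    have := ha.1
    simp only [cnt]
    split_ifs <;> omega
  · intro a b ha hb
    simp only [model, h1, h2, mB, triS, cnt]
    rw [triB_bc (n0 a ha _) (n0 a ha _) (n0 b hb _) (n0 b hb _),
      triB_ac (n0 a ha _) (n0 a ha _) (n0 b hb _) (n0 b hb _)]
  · intro a ha
    simp only [model, h3, h4, mY, triYS, cnt, mul_one]
    congr 1
    rw [run_append] at hz
    have u0 := C.U.ne _ (hv.stop p (by omega))
    have u1 := C.U.ne _ (hv.stop (p + 1) (by omega))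
    have u2 := C.U.ne _ (hv.stop (p + 2) (by omega))
    rw [run_append] at u0 u1 u2
    simp only [run, Letter.step] at hz u0 u1 u2
    have key := lead_key (isUnit_iff_ne_zero.2 u0) ω z
    rw [hz, mul_zero, zero_add, rowOp_colOp, rowOp_rowInv] at key
    simp only [triY, n0 a ha, if_false, mul_one, one_mul]
    split_ifs
    · have : lead (p + 1) (colOp p z (run M w)) ≠ 0 := by
        intro e; rw [e, mul_zero] at key
        exact mul_ne_zero u0 u2 key.symm
      rw [lead_rowInv (r := p) (by omega), lead_rowInv (r := p + 2) (by omega)] at key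
      rw [lead_rowInv (by omega)] at u0
      field_simp
      rw [mul_comm (lead (p + 2) _), ← key]; ring
    · rfl

lemma Ctx.Mod.swap_diff {C : Ctx ι K} {k : ℕ} {M : Mat K} {p q : ℕ} {z ω : K}
    {pre post : List (Letter K)} (hpq : p ≠ q)
    (h : C.Mod M (pre ++ .bot p ω :: .top q z :: post))
    (hv : Valid k C.U M (pre ++ .bot p ω :: .top q z :: post)) :
    C.Mod M (pre ++ .top q z :: .bot p ω :: post) := by
  have hp : p + 1 < k := hv.pos (.bot p ω) (by simp)
  have hq : q + 1 < k := hv.pos (.top q z) (by simp)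
  have nz0 : ∀ r ≤ k, lead r (run M pre) ≠ 0 := fun r hr => h.nz hv hr
  have nz1 : ∀ r ≤ k, lead r (rowInv p ω (run M pre)) ≠ 0 := by
    intro r hr
    have e : pre ++ .bot p ω :: .top q z :: post = (pre ++ [.bot p ω]) ++ .top q z :: post := by
      simp
    have := Ctx.Mod.nz (e ▸ h) (e ▸ hv) hr
    rwa [run_append] at this
  have nz2 : ∀ r ≤ k, lead r (colOp q z (rowInv p ω (run M pre))) ≠ 0 := by
    intro r hr
    have e : pre ++ .bot p ω :: .top q z :: post = (pre ++ [.bot p ω, .top q z]) ++ post := by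
      simp
    have := Ctx.Mod.nz (e ▸ h) (e ▸ hv) hr
    rwa [run_append] at this
  obtain ⟨S, hS, hR⟩ := h
  have hc : ∀ r, cnt r (.bot p ω :: .top q z :: post) = cnt r (.top q z :: .bot p ω :: post) := by
    intro r; simp only [cnt, Letter.pos]; omega
  obtain ⟨Bp, Yp, h1, h2, h3, h4, -⟩ := pre_split M pre _ _ hc
  have hact : ∀ a, act (pre ++ .top q z :: .bot p ω :: post) a ↔
      act (pre ++ .bot p ω :: .top q z :: post) a := by
    intro a; simp only [act, cnt_append, hc]
  refine ⟨S, hS, hR.shrink (fun a => (hact a).1) (fun a ha hb => absurd ((hact a).2 ha) hb)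
    ?_ ?_ ?_⟩
  · rintro ⟨r, m⟩ -
    simp only [model]
    by_cases hm : cnt r (.bot p ω :: .top q z :: post) ≤ m
    · exact (mX_append_big M pre _ _ hc hm).symm
    · rw [mX_append _ _ _ (by rw [← hc]; simp only; omega),
        mX_append _ _ _ (by simp only; omega)]
      simp only [mX, Letter.step, cnt, Letter.pos, rowInv_colOp] at hm ⊢
      by_cases e1 : p + 1 = r <;> by_cases e2 : q + 1 = r
      · omega
      · simp only [e1, e2, if_true, if_false] at hm ⊢
        rw [if_pos (by omega), if_pos (by omega), if_pos (by omega), if_pos (by omega)]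
      · simp only [e1, e2, if_true, if_false] at hm ⊢
        rw [if_pos (by omega), if_pos (by omega), if_pos (by omega), if_pos (by omega)]
      · simp only [e1, e2, if_false] at hm ⊢
        rw [if_pos (by omega), if_pos (by omega), if_pos (by omega), if_pos (by omega)]
  · intro a b _ _
    have key : triS (.top q z) (.bot p ω :: post) a b + triS (.bot p ω) post a b =
        triS (.bot p ω) (.top q z :: post) a b + triS (.top q z) post a b := by
      simp only [triS, cnt, Letter.pos]
      by_cases e : p = q + 1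
      · subst e
        simp only [show ¬ (q + 1 + 1 = q + 1) by omega, show ¬ (q + 1 = q + 1 + 1) by omega,
          if_true, if_false, add_zero]
        exact (square_B _ _ _ _ _ _).symm
      · simp only [show ¬ (p + 1 = q + 1) by omega, show ¬ (q + 1 = p + 1) by omega,
          show ¬ (p + 1 = q + 2) by omega, show ¬ (q + 1 = p) by omega, if_false, add_zero]
        exact add_comm _ _
    simp only [model, h1, h2, mB]
    omega
  · intro a _
    simp only [model, h3, h4, mY, triYS, cnt, Letter.pos, Letter.step, rowInv_colOp,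
      ← mul_assoc]
    congr 1
    rw [mul_assoc, mul_assoc]
    congr 1
    set A := run M pre
    by_cases e : p = q + 1
    · subst e
      simp only [show ¬ (q + 1 + 1 = q + 1) by omega, show ¬ (q + 1 = q + 1 + 1) by omega,
        if_true, if_false, add_zero]
      rw [lead_colOp (r := q + 1 + 1) (by omega), lead_colOp (r := q + 1 + 1) (by omega),
        lead_rowInv (r := q + 1) (by omega), ← rowInv_colOp,
        lead_rowInv (r := q + 1) (by omega)]
      refine (square_Y (nz0 _ (by omega)) (nz1 _ (by omega)) (nz0 _ (by omega)) ?_ _).symm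
      have := nz2 (q + 1) (by omega)
      rwa [← rowInv_colOp, lead_rowInv (by omega)] at this
    · simp only [show ¬ (p + 1 = q + 1) by omega, show ¬ (q + 1 = p + 1) by omega,
        show ¬ (p + 1 = q + 2) by omega, show ¬ (q + 1 = p) by omega, if_false, add_zero]
      rw [lead_colOp (r := p + 1) (by omega), lead_colOp (r := p + 1) (by omega),
        lead_colOp (r := p) (by omega), lead_rowInv (r := q + 1) (by omega), ← rowInv_colOp,
        lead_rowInv (r := q + 1) (by omega), lead_rowInv (r := q + 2) (by omega)]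
      ring

lemma Ctx.Mod.swap_same {C : Ctx ι K} {k : ℕ} {M : Mat K} {p : ℕ} {z ω : K}
    {pre post : List (Letter K)}
    (h : C.Mod M (pre ++ .bot p ω :: .top p z :: post))
    (hv : Valid k C.U M (pre ++ .bot p ω :: .top p z :: post)) :
    C.Mod M (pre ++ .top p z :: .bot p ω :: post) := by
  have hp : p + 1 < k := hv.pos (.bot p ω) (by simp)
  have nz0 : ∀ r ≤ k, lead r (run M pre) ≠ 0 := fun r hr => h.nz hv hr
  have nz1 : ∀ r ≤ k, lead r (rowInv p ω (run M pre)) ≠ 0 := by
    intro r hr
    have e : pre ++ .bot p ω :: .top p z :: post = (pre ++ [.bot p ω]) ++ .top p z :: post := by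
      simp
    have := Ctx.Mod.nz (e ▸ h) (e ▸ hv) hr
    rwa [run_append] at this
  have nz2 : ∀ r ≤ k, lead r (colOp p z (rowInv p ω (run M pre))) ≠ 0 := by
    intro r hr
    have e : pre ++ .bot p ω :: .top p z :: post = (pre ++ [.bot p ω, .top p z]) ++ post := by
      simp
    have := Ctx.Mod.nz (e ▸ h) (e ▸ hv) hr
    rwa [run_append] at this
  obtain ⟨S, hS, hR⟩ := h
  have hc : ∀ r, cnt r (.bot p ω :: .top p z :: post) = cnt r (.top p z :: .bot p ω :: post) :=
    fun r => rfl
  obtain ⟨Bp, Yp, h1, h2, h3, h4, h5⟩ := pre_split M pre _ _ hc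
  have hact : ∀ a, act (pre ++ .top p z :: .bot p ω :: post) a ↔
      act (pre ++ .bot p ω :: .top p z :: post) a := by
    intro a; simp only [act, cnt_append, hc]
  set A := run M pre with hA
  set c := cnt (p + 1) post with hcdef
  let a : Name := (p + 1, c + 1 + 1)
  let m : Name := (p + 1, c + 1)
  let d : Name := (p + 1, c)
  let cp : Name := (p + 2, cnt (p + 2) post)
  let cm : Name := (p, cnt p post)
  have hD : Dist5 a m d cp cm := by
    constructor <;> simp only [a, m, d, cp, cm, ne_eq, Prod.mk.injEq] <;> omega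
  have hm : act (pre ++ .bot p ω :: .top p z :: post) m := by
    simp only [act, m, cnt_append, cnt, Letter.pos, if_true]; omega
  have hms : m.2 < cnt m.1 (.bot p ω :: .top p z :: post) := by
    simp only [m, cnt, Letter.pos, if_true]; omega
  have hmb : cnt m.1 post < m.2 := by simp only [m]; omega
  have eB : ∀ u v, mB (pre ++ .bot p ω :: .top p z :: post) u v =
      (Bp u v + mB post u v) + (triB m a cm u v + triB m d cp u v) := by
    intro u v
    simp only [h1, mB, triS, cnt, Letter.pos, if_true, show ¬ (p + 1 = p) by omega, if_false,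
      add_zero]
    have := square_B m d cp cp u v
    have e : triB m d cp u v = triB (p + 1, c + 1) (p + 1, c) (p + 2, cnt (p + 2) post) u v := rfl
    have e' : triB m a cm u v =
      triB (p + 1, c + 1) (p + 1, c + 1 + 1) (p, cnt p post) u v := rfl
    rw [e, e']; ring
  have eB' : ∀ u v, mB (pre ++ .top p z :: .bot p ω :: post) u v =
      (Bp u v + mB post u v) + (triB a m cp u v + triB d m cm u v) := by
    intro u v
    simp only [h2, mB, triS, cnt, Letter.pos, if_true, show ¬ (p + 1 = p + 2) by omega, if_false,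
      add_zero]
    have e : triB a m cp u v =
      triB (p + 1, c + 1 + 1) (p + 1, c + 1) (p + 2, cnt (p + 2) post) u v := rfl
    have e' : triB d m cm u v = triB (p + 1, c) (p + 1, c + 1) (p, cnt p post) u v := rfl
    rw [e, e']; ring
  set xa := lead (p + 1) A with hxa
  set xm := lead (p + 1) (rowInv p ω A) with hxm
  set xd := lead (p + 1) (colOp p z (rowInv p ω A)) with hxd
  set xp := lead (p + 2) A with hxp
  set xc := lead p A with hxc
  set xm' := lead (p + 1) (colOp p z A) with hxm'
  have ha0 : xa ≠ 0 := nz0 _ (by omega)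
  have hm0 : xm ≠ 0 := nz1 _ (by omega)
  have hd0 : xd ≠ 0 := nz2 _ (by omega)
  have hp0 : xp ≠ 0 := nz0 _ (by omega)
  have hc0 : xc ≠ 0 := nz0 _ (by omega)
  have key : xm * xm' = xa * xd + xc * xp := by
    have := lead_key (isUnit_iff_ne_zero.2 (nz1 p (by omega))) ω z
    rwa [rowOp_colOp, rowOp_rowInv, lead_rowInv (r := p) (by omega),
      lead_rowInv (r := p + 2) (by omega)] at this
  have eY : ∀ v, mY M (pre ++ .bot p ω :: .top p z :: post) v =
      (Yp v * mY (colOp p z (rowInv p ω A)) post v) *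
        (triY m a cm xm xa xc v * triY m d cp xm xd xp v) := by
    intro v
    simp only [h3, mY, triYS, cnt, Letter.pos, if_true, show ¬ (p + 1 = p) by omega, if_false,
      add_zero, Letter.step]
    rw [lead_rowInv (r := p + 2) (by omega)]
    simp only [a, m, d, cp, cm]
    ring
  have eY' : ∀ v, mY M (pre ++ .top p z :: .bot p ω :: post) v =
      (Yp v * mY (colOp p z (rowInv p ω A)) post v) *
        (triY a m cp xa xm' xp v * triY d m cm xd xm' xc v) := by
    intro v
    simp only [h4, mY, triYS, cnt, Letter.pos, if_true, show ¬ (p + 1 = p + 2) by omega,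
      if_false, add_zero, Letter.step, rowInv_colOp]
    rw [lead_colOp (r := p) (by omega)]
    simp only [a, m, d, cp, cm]
    ring
  have z1 : ∀ u, Bp u m + mB post u m = 0 := by
    intro u; rw [((h5 m hms).1 u).2, (mB_big post hmb u).2]; rfl
  have z2 : ∀ u, Bp m u + mB post m u = 0 := by
    intro u; rw [((h5 m hms).1 u).1, (mB_big post hmb u).1]; rfl
  have z3 : Yp m * mY (colOp p z (rowInv p ω A)) post m = 1 := by
    rw [(h5 m hms).2, mY_big _ _ hmb, one_mul]
  have Ym : mY M (pre ++ .bot p ω :: .top p z :: post) m = xc * xp / (xa * xd) := by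
    rw [eY, z3, one_mul, flip_Y_self hD]
  have hm0' : xm' ≠ 0 := by
    intro e
    have h6 := C.nz _ (hS.step (C.φ m) (hR.mutable m hm)) (C.φ m)
    rw [S.mutate_x_self (C.nz S hS), hR.Y m hm] at h6
    simp only [model, Ym] at h6
    apply h6
    have : 1 + xc * xp / (xa * xd) = 0 := by
      field_simp
      rw [← key, e]; ring
    rw [this]; simp
  have Xa : mX M (pre ++ .bot p ω :: .top p z :: post) a = xa := by
    have := mX_split M pre (.bot p ω :: .top p z :: post) (p + 1)
    simpa only [cnt, Letter.pos, if_true] using this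
  have Xm : mX M (pre ++ .bot p ω :: .top p z :: post) m = xm := by
    have := mX_split M (pre ++ [.bot p ω]) (.top p z :: post) (p + 1)
    simp only [cnt, Letter.pos, if_true, run_append, List.append_assoc, List.singleton_append]
      at this
    exact this
  have Xm' : mX M (pre ++ .top p z :: .bot p ω :: post) m = xm' := by
    have := mX_split M (pre ++ [.top p z]) (.bot p ω :: post) (p + 1)
    simp only [cnt, Letter.pos, if_true, run_append, List.append_assoc, List.singleton_append]
      at this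
    exact this
  have Xd : mX M (pre ++ .bot p ω :: .top p z :: post) d = xd := by
    have := mX_split M (pre ++ [.bot p ω, .top p z]) post (p + 1)
    simp only [run_append, List.append_assoc, List.cons_append, List.nil_append] at this
    exact this
  refine ⟨_, hS.step (C.φ m) (hR.mutable m hm), hR.mutate (hS.skew C.skew) (C.nz S hS) m hm hact
    ?_ {a, d} ?_ ?_ ?_ ?_ ?_ ?_⟩
  · rintro ⟨r, μ⟩ - hne
    simp only [model]
    by_cases hμ : cnt r (.bot p ω :: .top p z :: post) ≤ μ
    · exact (mX_append_big M pre _ _ hc hμ).symm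
    · rw [mX_append _ _ _ (by rw [← hc]; simp only; omega),
        mX_append _ _ _ (by simp only; omega)]
      simp only [mX, Letter.step, cnt, Letter.pos, rowInv_colOp] at hμ ⊢
      by_cases e1 : p + 1 = r
      · subst e1
        have : μ ≠ c + 1 := fun e => hne (by rw [e])
        simp only [if_true] at hμ ⊢
        rw [if_pos (by omega), if_pos (by omega), if_pos (by omega), if_pos (by omega)]
      · simp only [e1, if_false] at hμ ⊢
        rw [if_pos (by omega), if_pos (by omega), if_pos (by omega), if_pos (by omega)]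
  · intro u _ hu
    simp only [Finset.mem_insert, Finset.mem_singleton, not_or] at hu
    simp only [model, eB, z1, flip_col hD, hu.1, hu.2, if_false]
    split_ifs <;> omega
  · intro u hu hna
    simp only [Finset.mem_insert, Finset.mem_singleton] at hu
    rcases hu with rfl | rfl
    · simp only [model, Xa]
      refine hv.unit (by omega) ?_
      simp only [cnt, Letter.pos, if_true]
      exact hna
    · simp only [model, Xd]
      have e : pre ++ .bot p ω :: .top p z :: post = (pre ++ [.bot p ω, .top p z]) ++ post := by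
        simp
      have := Valid.unit (e ▸ hv) (r := p + 1) (by omega) (e ▸ hna)
      rwa [run_append] at this
  · rw [Finset.prod_pair hD.h2]
    simp only [model, Xm, Xm', Xa, Xd, Ym, eB, z1, flip_col hD, hD.h2, hD.h2.symm, hD.h3, hD.h4,
      hD.h8, hD.h9, if_true, if_false]
    norm_num
    field_simp
    rw [mul_comm, key]
  · intro u v _ _
    simp only [model, eB']
    exact flip_B hD (fun u v => Bp u v + mB post u v) _ z1 z2 eB u v
  · simp only [model, Ym, eY', z3, one_mul, flip_Y_self' hD]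
  · intro v _ hvm
    simp only [model, Ym, eY' v, eY v, eB, z2, zero_add]
    rw [flip_Y hD ha0 hm0 hd0 hp0 hc0 hm0' key hvm]
    ring

/-- Words with only top letters. -/
def tops {R : Type} (w : List (ℕ × R)) : List (Letter R) := w.map fun e => .top e.1 e.2

lemma run_tops_rowInv {R : Type} [CommRing R] (M : Mat R) (p : ℕ) (ω : R) (w : List (ℕ × R)) :
    run (rowInv p ω M) (tops w) = rowInv p ω (run M (tops w)) := by
  induction w generalizing M with
  | nil => rfl
  | cons s w ih => simp only [tops, List.map_cons, run, Letter.step, ← rowInv_colOp]; exact ih _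

lemma run_tops_rowOp {R : Type} [CommRing R] (M : Mat R) (p : ℕ) (ω : R) (w : List (ℕ × R)) :
    run (rowOp p ω M) (tops w) = rowOp p ω (run M (tops w)) := by
  induction w generalizing M with
  | nil => rfl
  | cons s w ih => simp only [tops, List.map_cons, run, Letter.step, ← rowOp_colOp]; exact ih _

lemma Ctx.Mod.move {C : Ctx ι K} {k : ℕ} {M : Mat K} {p : ℕ} {ω : K} (post : List (ℕ × K))
    (pre : List (Letter K)) (h : C.Mod M (pre ++ .bot p ω :: tops post))
    (hv : Valid k C.U M (pre ++ .bot p ω :: tops post)) :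
    C.Mod M (pre ++ tops post ++ [.bot p ω]) := by
  induction post generalizing pre with
  | nil => simpa [tops] using h
  | cons s post ih =>
    obtain ⟨q, z⟩ := s
    have e0 : tops ((q, z) :: post) = .top q z :: tops post := rfl
    rw [e0] at h hv ⊢
    have h' : C.Mod M (pre ++ .top q z :: .bot p ω :: tops post) := by
      by_cases e : p = q
      · subst e; exact h.swap_same hv
      · exact h.swap_diff e hv
    have hv' : Valid k C.U M (pre ++ .top q z :: .bot p ω :: tops post) := by
      refine ⟨fun s hs => hv.pos s ?_, hv.start, ?_⟩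
      · simp only [List.mem_append, List.mem_cons] at hs ⊢; tauto
      · have := hv.stop
        simpa only [run_append, run, Letter.step, rowInv_colOp] using this
    have e : pre ++ .top q z :: .bot p ω :: tops post =
      (pre ++ [.top q z]) ++ .bot p ω :: tops post := by simp
    have := ih (pre ++ [.top q z]) (e ▸ h') (e ▸ hv')
    simpa using this

lemma Valid.left {k : ℕ} {U : UnitSet K} {M : Mat K} {p : ℕ} {z ω : K} {w : List (Letter K)}
    (hv : Valid k U M (.top p z :: w)) (hω : lead (p + 1) (rowOp p ω M) = 0) :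
    Valid k U (rowOp p ω (colOp p z M)) (.bot p ω :: w) := by
  have hp : p + 1 < k := hv.pos (.top p z) (by simp)
  refine ⟨?_, ?_, ?_⟩
  · intro s hs
    rcases List.mem_cons.1 hs with rfl | hs
    · exact hp
    · exact hv.pos s (by simp [hs])
  · intro r hr
    by_cases e : r = p + 1
    · subst e
      have u0 := hv.start p (by omega)
      have u1 := hv.start (p + 1) (by omega)
      have u2 := hv.start (p + 2) (by omega)
      have key := lead_key (isUnit_iff_ne_zero.2 (U.ne _ u0)) ω z
      rw [hω, zero_mul, zero_add] at key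
      have := U.mul _ _ (U.inv _ u1) (U.mul _ _ u0 u2)
      rwa [← key, ← mul_assoc, inv_mul_cancel₀ (U.ne _ u1), one_mul] at this
    · rw [lead_rowOp e, lead_colOp e]; exact hv.start r hr
  · have := hv.stop
    simpa only [run, Letter.step, rowInv_rowOp] using this

lemma Valid.rot {k : ℕ} {U : UnitSet K} {M : Mat K} {p : ℕ} {z ω z' : K} {w : List (ℕ × K)}
    (hv : Valid k U M (tops ((p, z) :: w))) (hω : lead (p + 1) (rowOp p ω M) = 0)
    (hz : lead (p + 1) (colOp p z' (run M (tops ((p, z) :: w)))) = 0) :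
    Valid k U (rowOp p ω (colOp p z M)) (tops (w ++ [(p, z')])) := by
  have hp : p + 1 < k := hv.pos (.top p z) (by simp [tops])
  refine ⟨?_, (Valid.left hv hω).start, ?_⟩
  · intro s hs
    simp only [tops, List.map_append, List.mem_append, List.map_cons, List.map_nil,
      List.mem_singleton] at hs
    rcases hs with hs | rfl
    · exact hv.pos s (by simp only [tops, List.map_cons, List.mem_cons]; exact Or.inr hs)
    · exact hp
  · intro r hr
    have e0 : run (rowOp p ω (colOp p z M)) (tops (w ++ [(p, z')])) =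
        rowOp p ω (colOp p z' (run M (tops ((p, z) :: w)))) := by
      rw [run_tops_rowOp]
      simp only [tops, List.map_append, run_append, List.map_cons, List.map_nil, run, Letter.step]
    rw [e0]
    by_cases e : r = p + 1
    · subst e
      have u0 := hv.stop p (by omega)
      have u1 := hv.stop (p + 1) (by omega)
      have u2 := hv.stop (p + 2) (by omega)
      have key := lead_key (isUnit_iff_ne_zero.2 (U.ne _ u0)) ω z'
      rw [hz, mul_zero, zero_add] at key
      have := U.mul _ _ (U.inv _ u1) (U.mul _ _ u0 u2)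
      rwa [← key, ← mul_assoc, inv_mul_cancel₀ (U.ne _ u1), one_mul] at this
    · rw [lead_rowOp e, lead_colOp e]; exact hv.stop r hr

lemma Ctx.Mod.rot {C : Ctx ι K} {k : ℕ} {M : Mat K} {p : ℕ} {z ω z' : K} {w : List (ℕ × K)}
    (h : C.Mod M (tops ((p, z) :: w))) (hv : Valid k C.U M (tops ((p, z) :: w)))
    (hω : lead (p + 1) (rowOp p ω M) = 0)
    (hz : lead (p + 1) (colOp p z' (run M (tops ((p, z) :: w)))) = 0) :
    C.Mod (rowOp p ω (colOp p z M)) (tops (w ++ [(p, z')])) := by
  have h1 := Ctx.Mod.left h hv hω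
  have v1 := Valid.left hv hω
  have h2 : C.Mod (rowOp p ω (colOp p z M)) (tops w ++ [.bot p ω]) := Ctx.Mod.move w [] h1 v1
  have er : run (rowOp p ω (colOp p z M)) (tops w ++ [.bot p ω]) =
      run M (tops ((p, z) :: w)) := by
    rw [run_append, run_tops_rowOp]
    simp only [run, Letter.step, rowInv_rowOp, tops, List.map_cons]
  have v2 : Valid k C.U (rowOp p ω (colOp p z M)) (tops w ++ [.bot p ω]) := by
    refine ⟨fun s hs => v1.pos s ?_, v1.start, ?_⟩
    · simp only [List.mem_append, List.mem_cons, List.not_mem_nil, or_false] at hs ⊢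
      exact hs.symm
    · rw [er]; exact hv.stop
  have := Ctx.Mod.right h2 v2 (z := z') (by rw [er]; exact hz)
  simpa [tops] using this

end Pool.Agent.MP_122b1e_ag

end

section

set_option autoImplicit false

namespace Pool.Agent.MP_122b1e_ag

/-- Configurations over the residue field that can be reduced to the empty word by rotations
and deletions. -/
inductive Good {κ : Type} [Field κ] : Mat κ → List (ℕ × κ) → Prop
  | nil (A : Mat κ) : Good A []
  | rot (A : Mat κ) (p : ℕ) (z ω z' : κ) (w : List (ℕ × κ)) :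
      lead (p + 1) (rowOp p ω A) = 0 →
      lead (p + 1) (colOp p z' (run A (tops ((p, z) :: w)))) = 0 →
      Good (rowOp p ω (colOp p z A)) (w ++ [(p, z')]) → Good A ((p, z) :: w)
  | del (A : Mat κ) (p : ℕ) (z : κ) (w : List (ℕ × κ)) :
      lead (p + 1) (colOp p z A) ≠ 0 → Good (colOp p z A) w → Good A ((p, z) :: w)

def nzU (κ : Type) [Field κ] : UnitSet κ where
  mem a := a ≠ 0
  one := one_ne_zero
  mul _ _ := mul_ne_zero
  inv _ := inv_ne_zero
  ne _ h := h

def mapW {R R' : Type} (f : R → R') (w : List (ℕ × R)) : List (ℕ × R') :=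
  w.map fun e => (e.1, f e.2)

lemma mapM_run {R R' : Type} [CommRing R] [CommRing R'] (f : R →+* R') (M : Mat R)
    (w : List (ℕ × R)) : mapM f (run M (tops w)) = run (mapM f M) (tops (mapW f w)) := by
  induction w generalizing M with
  | nil => rfl
  | cons s w ih =>
    simp only [tops, mapW, List.map_cons, run, Letter.step, ← mapM_colOp]
    exact ih _

lemma Valid.del {K : Type} [Field K] {k : ℕ} {U : UnitSet K} {M : Mat K} {p : ℕ} {z : K}
    {w : List (Letter K)} (hv : Valid k U M (.top p z :: w))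
    (hu : U.mem (lead (p + 1) (colOp p z M))) : Valid k U (colOp p z M) w := by
  refine ⟨fun s hs => hv.pos s (by simp [hs]), fun r hr => ?_, hv.stop⟩
  by_cases e : r = p + 1
  · rw [e]; exact hu
  · rw [lead_colOp e]; exact hv.start r hr

variable {ι K O κ : Type} [Fintype ι] [DecidableEq ι] [Field K] [CommRing O] [Field κ]

lemma valid_lift {k : ℕ} (j : O →+* K) (ρ : O →+* κ) (hρ : ∀ a, ρ a ≠ 0 → IsUnit a)
    {U : UnitSet K} (hU : ∀ a, IsUnit a → U.mem (j a)) {M : Mat O} {w : List (ℕ × O)}
    (hv : Valid k (nzU κ) (mapM ρ M) (tops (mapW ρ w))) :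
    Valid k U (mapM j M) (tops (mapW j w)) := by
  refine ⟨?_, fun r hr => ?_, fun r hr => ?_⟩
  · intro s hs
    simp only [tops, mapW, List.map_map, List.mem_map] at hs
    obtain ⟨e, he, rfl⟩ := hs
    exact hv.pos (.top e.1 (ρ e.2)) (by
      simp only [tops, mapW, List.map_map, List.mem_map]; exact ⟨e, he, rfl⟩)
  · rw [lead_map]
    apply hU; apply hρ
    rw [← lead_map]; exact hv.start r hr
  · rw [← mapM_run, lead_map]
    apply hU; apply hρ
    rw [← lead_map, mapM_run]; exact hv.stop r hr

theorem Good.lift {k : ℕ} (C : Ctx ι K) (j : O →+* K) (ρ : O →+* κ)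
    (hρ : ∀ a, ρ a ≠ 0 → IsUnit a) (hU : ∀ a, IsUnit a → C.U.mem (j a))
    {A : Mat κ} {w : List (ℕ × κ)} (hg : Good A w) :
    ∀ (M : Mat O) (v : List (ℕ × O)), mapM ρ M = A → mapW ρ v = w →
      Valid k (nzU κ) A (tops w) → C.Mod (mapM j M) (tops (mapW j v)) →
      ∃ S, Reachable C.mu C.S₀ S ∧ ∀ u, C.U.mem (S.x u) := by
  induction hg with
  | nil A =>
    intro M v _ hv _ h
    have : v = [] := by simpa [mapW] using hv
    subst this
    exact h.nil
  | rot A p z ω z' w hω hz _ ih =>
    intro M v hM hv hval h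
    obtain _ | ⟨⟨q, y⟩, v⟩ := v
    · simp [mapW] at hv
    simp only [mapW, List.map_cons, List.cons.injEq, Prod.mk.injEq] at hv
    obtain ⟨⟨rfl, rfl⟩, hv⟩ := hv
    subst hM
    have hv' : mapW ρ v = w := hv
    subst hv'
    have hp : q + 1 < k := hval.pos (.top q (ρ y)) (by simp [tops])
    have hvalK : Valid k C.U (mapM j M) (tops (mapW j ((q, y) :: v))) :=
      valid_lift j ρ hρ hU hval
    have s0 : IsUnit (lead q M) := hρ _ (by rw [← lead_map]; exact hval.start q (by omega))
    have s1 : IsUnit (lead (q + 1) M) :=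
      hρ _ (by rw [← lead_map]; exact hval.start (q + 1) (by omega))
    have t0 : IsUnit (lead q (run M (tops ((q, y) :: v)))) :=
      hρ _ (by rw [← lead_map, mapM_run]; exact hval.stop q (by omega))
    have t1 : IsUnit (lead (q + 1) (run M (tops ((q, y) :: v)))) :=
      hρ _ (by rw [← lead_map, mapM_run]; exact hval.stop (q + 1) (by omega))
    obtain ⟨ω₀, hω₀⟩ := exists_rowOp_zero s0 s1
    obtain ⟨z₀, hz₀⟩ := exists_colOp_zero t0 t1
    have e1 : ρ ω₀ = ω := by
      have a1 := congrArg ρ hω₀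
      rw [← lead_map, mapM_rowOp, map_zero,
        lead_rowOp_lin (isUnit_iff_ne_zero.2 (hval.start q (by omega)))] at a1
      rw [lead_rowOp_lin (isUnit_iff_ne_zero.2 (hval.start q (by omega)))] at hω
      have := hval.start (q + 1) (by omega)
      exact mul_right_cancel₀ this (by linear_combination a1 - hω)
    have e2 : ρ z₀ = z' := by
      have a1 := congrArg ρ hz₀
      rw [← lead_map, mapM_colOp, map_zero, mapM_run,
        show mapW ρ ((q, y) :: v) = (q, ρ y) :: mapW ρ v from rfl,
        lead_colOp_lin (isUnit_iff_ne_zero.2 (hval.stop q (by omega)))] at a1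
      rw [lead_colOp_lin (isUnit_iff_ne_zero.2 (hval.stop q (by omega)))] at hz
      have := hval.stop (q + 1) (by omega)
      exact mul_right_cancel₀ this (by linear_combination a1 - hz)
    refine ih (rowOp q ω₀ (colOp q y M)) (v ++ [(q, z₀)]) ?_ ?_ (hval.rot hω hz) ?_
    · rw [mapM_rowOp, mapM_colOp, e1]
    · simp [mapW, e2]
    · have := Ctx.Mod.rot (p := q) (z := j y) (w := mapW j v) (ω := j ω₀) (z' := j z₀) h hvalK
        (by rw [← mapM_rowOp, lead_map, hω₀, map_zero])
        (by
          have : run (mapM j M) (tops ((q, j y) :: mapW j v)) =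
            mapM j (run M (tops ((q, y) :: v))) := (mapM_run j M ((q, y) :: v)).symm
          rw [this, ← mapM_colOp, lead_map, hz₀, map_zero])
      rw [mapM_rowOp, mapM_colOp]
      simpa [mapW] using this
  | del A p z w hu _ ih =>
    intro M v hM hv hval h
    obtain _ | ⟨⟨q, y⟩, v⟩ := v
    · simp [mapW] at hv
    simp only [mapW, List.map_cons, List.cons.injEq, Prod.mk.injEq] at hv
    obtain ⟨⟨rfl, rfl⟩, hv⟩ := hv
    subst hM
    have hv' : mapW ρ v = w := hv
    subst hv'
    refine ih (colOp q y M) v (mapM_colOp _ _ _ _) rfl (Valid.del hval hu) ?_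
    rw [mapM_colOp]
    refine Ctx.Mod.delete h ?_
    rw [← mapM_colOp, lead_map]
    apply hU; apply hρ
    rw [← lead_map, mapM_colOp]; exact hu

end Pool.Agent.MP_122b1e_ag

end
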