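import Pool.Agent.Mg.F122b1e.Gd6ff0d
import Pool.Agent.Mg.F122b1e.G16dcac

section

set_option autoImplicit false

namespace Pool.Agent.MP_122b1e_ag

section Op
variable {R W : Type} [CommRing R] [AddCommGroup W] [Module R W]

def opV (p : ℕ) (z : R) (f : ℕ → W) : ℕ → W := fun j =>
  if j = p then z • f p + f (p + 1) else if j = p + 1 then -f p else f j

def runV : (ℕ → W) → List (ℕ × R) → ℕ → W
  | f, [] => f
  | f, e :: w => runV (opV e.1 e.2 f) w

lemma runV_append (f : ℕ → W) (w w' : List (ℕ × R)) : runV f (w ++ w') = runV (runV f w) w' := by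
  induction w generalizing f with
  | nil => rfl
  | cons s w ih => exact ih _

def pairM (ε : ℕ → W →ₗ[R] R) (f : ℕ → W) : Mat R := fun a b => ε a (f b)

lemma pairM_opV (ε : ℕ → W →ₗ[R] R) (f : ℕ → W) (p : ℕ) (z : R) :
    pairM ε (opV p z f) = colOp p z (pairM ε f) := by
  funext a b
  simp only [pairM, opV, colOp]
  split_ifs <;> simp

lemma pairM_opV' (ε : ℕ → W →ₗ[R] R) (f : ℕ → W) (p : ℕ) (z : R) :
    pairM (opV p z ε) f = rowOp p z (pairM ε f) := by
  funext a b
  simp only [pairM, opV, rowOp]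
  split_ifs <;> simp

lemma pairM_runV (ε : ℕ → W →ₗ[R] R) (f : ℕ → W) (w : List (ℕ × R)) :
    pairM ε (runV f w) = run (pairM ε f) (tops w) := by
  induction w generalizing f with
  | nil => rfl
  | cons s w ih => simp only [runV, ih, pairM_opV, tops, List.map_cons, run, Letter.step]

end Op

variable {κ V : Type} [Field κ] [AddCommGroup V] [Module κ V]

def FF (f : ℕ → V) : Fl κ V := fun r => Submodule.span κ (Set.range fun b : Fin r => f b)

def EE (ε : ℕ → V →ₗ[κ] κ) : Fl κ V := fun r => ⨅ a : Fin r, LinearMap.ker (ε a)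

lemma mem_EE {ε : ℕ → V →ₗ[κ] κ} {r : ℕ} {y : V} : y ∈ EE ε r ↔ ∀ a, a < r → ε a y = 0 := by
  simp only [EE, Submodule.mem_iInf, LinearMap.mem_ker]
  exact ⟨fun h a ha => h ⟨a, ha⟩, fun h a => h a a.2⟩

lemma mem_FF {f : ℕ → V} {r : ℕ} {y : V} :
    y ∈ FF (κ := κ) f r ↔ ∃ c : Fin r → κ, ∑ b, c b • f b = y :=
  Submodule.mem_span_range_iff_exists_fun κ

lemma self_mem_FF (f : ℕ → V) {r b : ℕ} (h : b < r) : f b ∈ FF (κ := κ) f r :=
  Submodule.subset_span ⟨⟨b, h⟩, rfl⟩

lemma FF_le {f : ℕ → V} {r : ℕ} {G : Submodule κ V} (h : ∀ b, b < r → f b ∈ G) : FF f r ≤ G := by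
  refine Submodule.span_le.2 ?_
  rintro _ ⟨b, rfl⟩
  exact h b b.2

lemma FF_mono (f : ℕ → V) {r r' : ℕ} (h : r ≤ r') : FF (κ := κ) f r ≤ FF f r' :=
  FF_le fun _ hb => self_mem_FF f (by omega)

lemma FF_succ {f : ℕ → V} {r : ℕ} {y : V} (h : y ∈ FF (κ := κ) f (r + 1)) :
    ∃ c : κ, y - c • f r ∈ FF (κ := κ) f r := by
  obtain ⟨c, rfl⟩ := mem_FF.1 h
  refine ⟨c (Fin.last r), mem_FF.2 ⟨fun b => c b.castSucc, ?_⟩⟩
  rw [Fin.sum_univ_castSucc]; simp

lemma FF_opV {p r : ℕ} (h : r ≠ p + 1) (z : κ) (f : ℕ → V) :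
    FF (κ := κ) (opV p z f) r = FF f r := by
  apply le_antisymm
  · refine FF_le fun b hb => ?_
    simp only [opV]
    split_ifs with h1 h2
    · exact Submodule.add_mem _ (Submodule.smul_mem _ _ (self_mem_FF f (by omega)))
        (self_mem_FF f (by omega))
    · exact Submodule.neg_mem _ (self_mem_FF f (by omega))
    · exact self_mem_FF f hb
  · refine FF_le fun b hb => ?_
    have e1 : opV p z f p = z • f p + f (p + 1) := by simp [opV]
    have e2 : opV p z f (p + 1) = -f p := by simp [opV]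
    by_cases h1 : b = p
    · subst h1
      have := Submodule.neg_mem _ (self_mem_FF (κ := κ) (opV b z f) (r := r) (b := b + 1)
        (by omega))
      rwa [e2, neg_neg] at this
    · by_cases h2 : b = p + 1
      · subst h2
        have := Submodule.add_mem _ (self_mem_FF (κ := κ) (opV p z f) (r := r) (b := p) (by omega))
          (Submodule.smul_mem _ z (self_mem_FF (κ := κ) (opV p z f) (r := r) (b := p + 1) hb))
        rw [e1, e2] at this
        simpa using this
      · have := self_mem_FF (κ := κ) (opV p z f) hb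
        simpa [opV, h1, h2] using this

lemma EE_opV {p r : ℕ} (h : r ≠ p + 1) (z : κ) (ε : ℕ → V →ₗ[κ] κ) :
    EE (opV p z ε) r = EE ε r := by
  ext y
  simp only [mem_EE]
  have e1 : opV p z ε p y = z * ε p y + ε (p + 1) y := by simp [opV]
  have e2 : opV p z ε (p + 1) y = -ε p y := by simp [opV]
  constructor
  · intro H a ha
    by_cases h1 : a = p
    · subst h1
      have := H (a + 1) (by omega)
      rwa [e2, neg_eq_zero] at this
    · by_cases h2 : a = p + 1
      · subst h2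
        have t1 := H p (by omega)
        have t2 := H (p + 1) ha
        rw [e2, neg_eq_zero] at t2
        rwa [e1, t2, mul_zero, zero_add] at t1
      · simpa [opV, h1, h2] using H a ha
  · intro H a ha
    by_cases h1 : a = p
    · subst h1
      rw [e1, H a ha, H (a + 1) (by omega)]; simp
    · by_cases h2 : a = p + 1
      · subst h2
        rw [e2, H p (by omega), neg_zero]
      · simpa [opV, h1, h2] using H a ha

lemma mulVec_pair (ε : ℕ → V →ₗ[κ] κ) (f : ℕ → V) {r : ℕ} (c : Fin r → κ) (a : Fin r) :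
    (Matrix.of fun i j : Fin r => pairM ε f i j).mulVec c a = ε a (∑ b, c b • f b) := by
  simp [Matrix.mulVec, dotProduct, pairM, mul_comm]

lemma coeff_zero {ε : ℕ → V →ₗ[κ] κ} {f : ℕ → V} {r : ℕ} (h : lead r (pairM ε f) ≠ 0)
    {c : Fin r → κ} (hc : (∑ b, c b • f b) ∈ EE ε r) : c = 0 := by
  refine Matrix.eq_zero_of_mulVec_eq_zero h ?_
  funext a
  rw [mulVec_pair]
  exact mem_EE.1 hc a a.2

lemma exists_solve {ε : ℕ → V →ₗ[κ] κ} {f : ℕ → V} {r : ℕ} (h : lead r (pairM ε f) ≠ 0)
    (d : ℕ → κ) : ∃ y ∈ FF (κ := κ) f r, ∀ a, a < r → ε a y = d a := by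
  have hu : IsUnit (Matrix.of fun i j : Fin r => pairM ε f i j) :=
    (Matrix.isUnit_iff_isUnit_det _).2 (isUnit_iff_ne_zero.2 h)
  obtain ⟨c, hc⟩ := Matrix.mulVec_surjective_iff_isUnit.2 hu (fun a => d a)
  refine ⟨_, mem_FF.2 ⟨c, rfl⟩, fun a ha => ?_⟩
  rw [← mulVec_pair ε f c ⟨a, ha⟩, hc]

lemma disjoint_of_lead {ε : ℕ → V →ₗ[κ] κ} {f : ℕ → V} {r : ℕ} (h : lead r (pairM ε f) ≠ 0) :
    Disjoint (FF f r) (EE ε r) := by
  refine Submodule.disjoint_def.2 fun y h1 h2 => ?_
  obtain ⟨c, rfl⟩ := mem_FF.1 h1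
  rw [coeff_zero h h2]; simp

lemma isCompl_of_lead {ε : ℕ → V →ₗ[κ] κ} {f : ℕ → V} {r : ℕ} (h : lead r (pairM ε f) ≠ 0) :
    IsCompl (FF f r) (EE ε r) := by
  refine ⟨disjoint_of_lead h, codisjoint_iff.2 (eq_top_iff.2 fun x _ => ?_)⟩
  obtain ⟨y, h1, h2⟩ := exists_solve h fun a => ε a x
  refine Submodule.mem_sup.2 ⟨y, h1, x - y, mem_EE.2 fun a ha => ?_, by abel⟩
  rw [map_sub, h2 a ha, sub_self]

lemma lead_of_disjoint {ε ε' : ℕ → V →ₗ[κ] κ} {f : ℕ → V} {r : ℕ} (h : lead r (pairM ε' f) ≠ 0)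
    (hd : Disjoint (FF f r) (EE ε r)) : lead r (pairM ε f) ≠ 0 := by
  intro e
  obtain ⟨c, c0, hc⟩ := Matrix.exists_mulVec_eq_zero_iff.2 e
  have : (∑ b, c b • f b) = 0 := disj_zero hd (mem_FF.2 ⟨c, rfl⟩) (mem_EE.2 fun a ha => by
    rw [← mulVec_pair ε f c ⟨a, ha⟩, hc]; rfl)
  exact c0 (coeff_zero h (by rw [this]; exact Submodule.zero_mem _))

lemma pair_of_lead {k : ℕ} {ε : ℕ → V →ₗ[κ] κ} {f : ℕ → V}
    (h : ∀ r, r ≤ k → lead r (pairM ε f) ≠ 0) (hE : EE ε k = ⊥) : Pair k (EE ε) (FF f) := by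
  have top : ∀ r, k ≤ r → FF (κ := κ) f r = ⊤ := by
    intro r hr
    have := (isCompl_of_lead (h k le_rfl)).sup_eq_top
    rw [hE, sup_bot_eq] at this
    exact eq_top_iff.2 (this ▸ FF_mono f hr)
  have ex : ∀ r, r < k → ∃ y ∈ FF (κ := κ) f (r + 1), y ∈ EE ε r ∧ ε r y = 1 := by
    intro r hr
    obtain ⟨y, h1, h2⟩ := exists_solve (h (r + 1) hr) fun a => if a = r then 1 else 0
    refine ⟨y, h1, mem_EE.2 fun a ha => ?_, by simpa using h2 r (by omega)⟩
    rw [h2 a (by omega), if_neg (by omega)]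
  refine ⟨by simp [FF], top, fun r hr => ⟨FF_mono f (by omega), ?_, ?_⟩,
    fun r hr => ⟨fun y hy => mem_EE.2 fun a ha => mem_EE.1 hy a (by omega), ?_, ?_⟩, fun r => ?_⟩
  · obtain ⟨y, h1, h2, h3⟩ := ex r hr
    refine ⟨y, h1, fun H => ?_⟩
    rw [disj_zero (disjoint_of_lead (h r hr.le)) H h2] at h3
    simp at h3
  · intro y h1 h2 x hx
    obtain ⟨c, hc⟩ := FF_succ h1
    obtain ⟨d, hd⟩ := FF_succ hx
    have c0 : c ≠ 0 := by rintro rfl; exact h2 (by simpa using hc)
    refine ⟨d / c, ?_⟩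
    have := Submodule.sub_mem _ hd (Submodule.smul_mem _ (d / c) hc)
    convert this using 1
    rw [smul_sub, smul_smul, div_mul_cancel₀ _ c0]; abel
  · obtain ⟨y, _, h2, h3⟩ := ex r hr
    refine ⟨y, h2, fun H => ?_⟩
    rw [mem_EE.1 H r (by omega)] at h3
    simp at h3
  · intro y h1 h2 x hx
    have y0 : ε r y ≠ 0 := fun e => h2 (mem_EE.2 fun a ha => by
      rcases Nat.lt_succ_iff_lt_or_eq.1 ha with H | H
      · exact mem_EE.1 h1 a H
      · rw [H, e])
    refine ⟨ε r x / ε r y, mem_EE.2 fun a ha => ?_⟩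
    rw [map_sub, map_smul, smul_eq_mul]
    rcases Nat.lt_succ_iff_lt_or_eq.1 ha with H | H
    · rw [mem_EE.1 h1 a H, mem_EE.1 hx a H]; simp
    · rw [H, div_mul_cancel₀ _ y0, sub_self]
  · rcases le_total r k with e | e
    · exact isCompl_of_lead (h r e)
    · have : EE ε r = ⊥ := eq_bot_iff.2 fun y hy => by
        rw [← hE]; exact mem_EE.2 fun a ha => mem_EE.1 hy a (by omega)
      rw [top r e, this]; exact isCompl_top_bot

/-- A framed configuration. -/
structure Cfg (κ V : Type) [Field κ] [AddCommGroup V] [Module κ V] where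
  ε : ℕ → V →ₗ[κ] κ
  f : ℕ → V
  w : List (ℕ × κ)

def Cfg.OK (k : ℕ) (c : Cfg κ V) : Prop :=
  Valid k (nzU κ) (pairM c.ε c.f) (tops c.w) ∧ EE c.ε k = ⊥

def Cfg.hd (c : Cfg κ V) : ℕ := (c.w.headD (0, 0)).1

/-- One rotation. -/
def Cfg.Rot (c c' : Cfg κ V) : Prop := ∃ p z w ω z', c.w = (p, z) :: w ∧
  lead (p + 1) (rowOp p ω (pairM c.ε c.f)) = 0 ∧
  lead (p + 1) (colOp p z' (run (pairM c.ε c.f) (tops c.w))) = 0 ∧
  c' = ⟨opV p ω c.ε, opV p z c.f, w ++ [(p, z')]⟩

lemma Cfg.exists_rot {k : ℕ} (c : Cfg κ V) (h : c.OK k) (hw : c.w ≠ []) :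
    ∃ c', c.Rot c' ∧ c'.OK k ∧ c'.w.length = c.w.length := by
  obtain ⟨ε, f, w⟩ := c
  obtain _ | ⟨⟨p, z⟩, w⟩ := w
  · exact absurd rfl hw
  have hp : p + 1 < k := h.1.pos (.top p z) (by simp [tops])
  obtain ⟨ω, hω⟩ := exists_rowOp_zero (isUnit_iff_ne_zero.2 (h.1.start p (by omega)))
    (isUnit_iff_ne_zero.2 (h.1.start (p + 1) (by omega)))
  obtain ⟨z', hz⟩ := exists_colOp_zero (isUnit_iff_ne_zero.2 (h.1.stop p (by omega)))
    (isUnit_iff_ne_zero.2 (h.1.stop (p + 1) (by omega)))
  refine ⟨_, ⟨p, z, w, ω, z', rfl, hω, hz, rfl⟩, ⟨?_, ?_⟩, by simp⟩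
  · simp only [pairM_opV, pairM_opV']
    rw [← rowOp_colOp]
    exact Valid.rot h.1 hω hz
  · simp only
    rw [EE_opV (by omega)]; exact h.2

def Cfg.H (c : Cfg κ V) : Prop :=
  Conn (EE c.ε) (fun s => FF (runV c.f (c.w.take s))) (fun s => (c.w.getD s (0, 0)).1) 0 c.w.length

lemma conn_congr {E₀ : Fl κ V} {F F' : ℕ → Fl κ V} {p p' : ℕ → ℕ} {b l : ℕ}
    (hF : ∀ s, s ≤ l → F' s = F (b + s)) (hp : ∀ s, s < l → p' s = p (b + s)) :
    Conn E₀ F p b (b + l) ↔ Conn E₀ F' p' 0 l := by
  constructor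
  · intro H π hi pE pF s _ hs
    rw [hF s hs.le, hp s hs]
    refine H π hi pE (fun t h1 h2 => ?_) _ (by omega) (by omega)
    obtain ⟨t, rfl⟩ : ∃ t', t = b + t' := ⟨t - b, by omega⟩
    rw [← hF t (by omega)]; exact pF t (by omega) (by omega)
  · intro H π hi pE pF s h1 h2
    obtain ⟨s, rfl⟩ : ∃ t', s = b + t' := ⟨s - b, by omega⟩
    rw [← hF s (by omega), ← hp s (by omega)]
    refine H π hi pE (fun t _ h2 => ?_) _ (by omega) (by omega)
    rw [hF t h2]; exact pF _ (by omega) (by omega)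

theorem good_of_conn [FiniteDimensional κ V] {k : ℕ} (l : ℕ) :
    ∀ c : Cfg κ V, c.w.length = l → c.OK k → c.H → Good (pairM c.ε c.f) c.w := by
  induction l with
  | zero =>
    intro c hl _ _
    rw [List.length_eq_zero_iff.1 hl]; exact Good.nil _
  | succ l ih =>
  intro c hl hok hH
  have step : ∀ x : {c : Cfg κ V // c.OK k ∧ c.w.length = l + 1},
      ∃ y : {c : Cfg κ V // c.OK k ∧ c.w.length = l + 1}, x.1.Rot y.1 := by
    rintro ⟨x, h1, h2⟩
    obtain ⟨y, r, h3, h4⟩ := x.exists_rot h1 (by intro e; simp [e] at h2)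
    exact ⟨⟨y, h3, h4.trans h2⟩, r⟩
  choose nxt hnxt using step
  let σ : ℕ → Cfg κ V := fun t => (nxt^[t] ⟨c, hok, hl⟩).1
  have σ0 : σ 0 = c := rfl
  have ok : ∀ t, (σ t).OK k := fun t => (nxt^[t] ⟨c, hok, hl⟩).2.1
  have len : ∀ t, (σ t).w.length = l + 1 := fun t => (nxt^[t] ⟨c, hok, hl⟩).2.2
  have rot : ∀ t, (σ t).Rot (σ (t + 1)) := fun t => by
    simp only [σ, Function.iterate_succ_apply']; exact hnxt _
  clear_value σ
  have win : ∀ s, s ≤ l + 1 → ∀ t, (σ (t + s)).f = runV (σ t).f ((σ t).w.take s) := by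
    intro s
    induction s with
    | zero => intro _ t; simp [runV]
    | succ s ih' =>
      intro hs t
      obtain ⟨p, z, w, ω, z', e1, -, -, e2⟩ := rot t
      have hw : w.length = l := by have := len t; rw [e1] at this; simpa using this
      rw [show t + (s + 1) = t + 1 + s by omega, ih' (by omega) (t + 1), e2, e1]
      simp only [List.take_succ_cons, runV]
      rw [List.take_append_of_le_length (by omega)]
  have winp : ∀ s, s < l + 1 → ∀ t, (σ (t + s)).hd = ((σ t).w.getD s (0, 0)).1 := by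
    intro s
    induction s with
    | zero =>
      intro _ t
      obtain ⟨p, z, w, ω, z', e1, -, -, e2⟩ := rot t
      simp [Cfg.hd, e1]
    | succ s ih' =>
      intro hs t
      obtain ⟨p, z, w, ω, z', e1, -, -, e2⟩ := rot t
      have hw : w.length = l := by have := len t; rw [e1] at this; simpa using this
      rw [show t + (s + 1) = t + 1 + s by omega, ih' (by omega) (t + 1), e2, e1]
      simp only [List.getD_cons_succ]
      rw [List.getD_append _ _ _ _ (by omega)]
  have pr : ∀ t, Pair k (EE (σ t).ε) (FF (σ t).f) := fun t =>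
    pair_of_lead (ok t).1.start (ok t).2
  have full : ∀ t, (σ (t + (l + 1))).f = runV (σ t).f (σ t).w := fun t => by
    rw [win _ le_rfl, List.take_of_length_le (len t).le]
  have strip : Strip k (l + 1) (fun t => (σ t).hd) (fun t => EE (σ t).ε)
      (fun t => FF (σ t).f) := by
    refine ⟨fun t => ?_, fun t => ?_, fun t => ?_, fun t => ?_⟩
    · obtain ⟨p, z, w, ω, z', e1, e3, -, e2⟩ := rot t
      have hp : (σ t).hd = p := by simp [Cfg.hd, e1]
      have hk : p + 1 < k := (ok t).1.pos (.top p z) (by simp [tops, e1])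
      simp only [hp]
      refine ⟨pr t, pr (t + 1), hk, fun r hr => ?_, fun r hr => ?_, fun H => ?_⟩
      · rw [e2]; exact FF_opV hr _ _
      · rw [e2]; exact EE_opV hr _ _
      · refine lead_of_disjoint ((ok t).1.start (p + 1) hk.le) H ?_
        rw [e2, pairM_opV']; exact e3
    · simp only [full]
      refine pair_of_lead (fun r hr => ?_) (ok t).2
      rw [pairM_runV]; exact (ok t).1.stop r hr
    · obtain ⟨p, z, w, ω, z', e1, -, e3, e2⟩ := rot t
      have hp : (σ t).hd = p := by simp [Cfg.hd, e1]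
      have hk : p + 1 < k := (ok t).1.pos (.top p z) (by simp [tops, e1])
      simp only [hp, full]
      intro H
      refine lead_of_disjoint (ε' := (σ (t + 1)).ε) ?_ H ?_
      · rw [pairM_runV]; exact (ok (t + 1)).1.stop _ hk.le
      · rw [← e3, e2, e1]
        simp only [runV_append, runV, pairM_opV, pairM_runV, tops, List.map_cons, run,
          Letter.step]
    · obtain ⟨p, z, w, ω, z', e1, -, e3, e2⟩ := rot t
      have hw : w.length = l := by have := len t; rw [e1] at this; simpa using this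
      rw [show t + (l + 1) = t + 1 + l by omega, winp l (by omega), e2]
      simp [Cfg.hd, e1, ← hw]
  have H0 : Conn (EE (σ 0).ε) (fun t => FF (σ t).f) (fun t => (σ t).hd) 0 (0 + (l + 1)) := by
    unfold Cfg.H at hH
    rw [hl, ← σ0] at hH
    exact (conn_congr (fun s hs => by rw [win s hs]) (fun s hs => by rw [winp s hs])).2 hH
  obtain ⟨t, ht, nz, H1⟩ := key strip (by omega) (by simpa using H0)
  have gt : Good (pairM (σ t).ε (σ t).f) (σ t).w := by
    obtain ⟨p, z, w, ω, z', e1, -, -, e2⟩ := rot t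
    have hw : w.length = l := by have := len t; rw [e1] at this; simpa using this
    have hp : (σ t).hd = p := by simp [Cfg.hd, e1]
    have hk : p + 1 < k := (ok t).1.pos (.top p z) (by simp [tops, e1])
    have hu : lead (p + 1) (colOp p z (pairM (σ t).ε (σ t).f)) ≠ 0 := by
      have := lead_of_disjoint ((ok (t + 1)).1.start (p + 1) hk.le) (hp ▸ nz)
      rwa [e2, pairM_opV] at this
    rw [e1]
    refine Good.del _ _ _ _ hu ?_
    rw [← pairM_opV]
    refine ih ⟨(σ t).ε, opV p z (σ t).f, w⟩ hw ⟨?_, (ok t).2⟩ ?_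
    · have := (ok t).1
      rw [e1] at this
      simp only [pairM_opV]
      exact Valid.del this hu
    · unfold Cfg.H
      simp only [hw]
      rw [show t + (l + 1) = t + 1 + l by omega] at H1
      refine (conn_congr (fun s hs => ?_) (fun s hs => ?_)).1 H1
      · rw [win s (by omega), e2]
        simp only
        rw [List.take_append_of_le_length (by omega)]
      · rw [winp s (by omega), e2]
        simp only
        rw [List.getD_append _ _ _ _ (by omega)]
  have all : ∀ s, s ≤ t → Good (pairM (σ s).ε (σ s).f) (σ s).w := by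
    intro s hs
    induction hs using Nat.decreasingInduction with
    | self => exact gt
    | of_succ s hs ih' =>
      obtain ⟨p, z, w, ω, z', e1, e3, e4, e2⟩ := rot s
      rw [e1] at e4 ⊢
      refine Good.rot _ p z ω z' w e3 e4 ?_
      rw [e2] at ih'
      simpa only [pairM_opV, pairM_opV', rowOp_colOp] using ih'
  simpa only [σ0] using all 0 (by omega)

end Pool.Agent.MP_122b1e_ag

end

section

set_option autoImplicit false

namespace Pool.Agent.MP_122b1e_ag

def blk {R : Type} (c : ℕ → R) : ℕ → List (ℕ × R)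
  | 0 => []
  | p + 1 => (p, c p) :: blk c p

def wrd {R : Type} (c : ℕ → ℕ → R) (p : ℕ) : ℕ → List (ℕ × R)
  | 0 => []
  | μ + 1 => blk (c μ) p ++ wrd c p μ

lemma tops_append {R : Type} (w w' : List (ℕ × R)) : tops (w ++ w') = tops w ++ tops w' :=
  List.map_append

lemma cnt_blk {R : Type} (c : ℕ → R) (p r : ℕ) :
    cnt r (tops (blk c p)) = if 1 ≤ r ∧ r ≤ p then 1 else 0 := by
  induction p with
  | zero => simp [blk, tops, cnt]; omega
  | succ p ih =>
    have : tops (blk c (p + 1)) = .top p (c p) :: tops (blk c p) := rfl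
    rw [this, cnt, ih, Letter.pos]
    split_ifs <;> omega

lemma cnt_wrd {R : Type} (c : ℕ → ℕ → R) (p μ r : ℕ) :
    cnt r (tops (wrd c p μ)) = if 1 ≤ r ∧ r ≤ p then μ else 0 := by
  induction μ with
  | zero => simp [wrd, tops, cnt]
  | succ μ ih =>
    rw [wrd, tops_append, cnt_append, cnt_blk, ih]
    split_ifs <;> omega

lemma mem_blk {R : Type} (c : ℕ → R) (p : ℕ) : ∀ e ∈ blk c p, e.1 < p := by
  induction p with
  | zero => simp [blk]
  | succ p ih =>
    intro e he
    rcases List.mem_cons.1 he with rfl | he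
    · simp
    · have := ih e he; omega

lemma mem_wrd {R : Type} (c : ℕ → ℕ → R) (p μ : ℕ) : ∀ e ∈ wrd c p μ, e.1 < p := by
  induction μ with
  | zero => simp [wrd]
  | succ μ ih =>
    intro e he
    rcases List.mem_append.1 he with he | he
    · exact mem_blk _ _ e he
    · exact ih e he

lemma mapW_blk {R R' : Type} (f : R → R') (c : ℕ → R) (p : ℕ) :
    mapW f (blk c p) = blk (fun a => f (c a)) p := by
  induction p with
  | zero => rfl
  | succ p ih => simp only [blk, ← ih]; rfl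

lemma mapW_wrd {R R' : Type} (f : R → R') (c : ℕ → ℕ → R) (p μ : ℕ) :
    mapW f (wrd c p μ) = wrd (fun ν a => f (c ν a)) p μ := by
  induction μ with
  | zero => rfl
  | succ μ ih =>
    simp only [wrd, ← ih, ← mapW_blk]
    exact List.map_append

lemma runV_blk {R W : Type} [CommRing R] [AddCommGroup W] [Module R W] (c : ℕ → R) (p : ℕ)
    (g : ℕ → W) (b : ℕ) : runV g (blk c p) b =
      if b = 0 then (∑ a ∈ Finset.range p, c a • g a) + g p
      else if b ≤ p then -g (b - 1) else g b := by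
  induction p generalizing g with
  | zero =>
    simp only [blk, runV]
    split_ifs with h1 h2
    · simp [h1]
    · omega
    · rfl
  | succ p ih =>
    simp only [blk, runV, ih]
    split_ifs with h1 h2 h3 h4
    · rw [Finset.sum_range_succ, add_assoc]
      congr 1
      · refine Finset.sum_congr rfl fun a ha => ?_
        have := Finset.mem_range.1 ha
        simp only [opV]
        rw [if_neg (by omega), if_neg (by omega)]
      · simp [opV]
    · simp only [opV]
      rw [if_neg (by omega), if_neg (by omega)]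
    · omega
    · have : b = p + 1 := by omega
      simp [opV, this]
    · simp only [opV]
      rw [if_neg (by omega), if_neg (by omega)]

lemma wrd_split {R W : Type} [CommRing R] [AddCommGroup W] [Module R W] (c : ℕ → ℕ → R)
    (p N : ℕ) (g : ℕ → ℕ → W) (hg : ∀ μ, μ < N → runV (g (μ + 1)) (blk (c μ) p) = g μ)
    (ν μ : ℕ) (h : ν ≤ μ) : μ ≤ N →
      ∃ pre, wrd c p μ = pre ++ wrd c p ν ∧ runV (g μ) pre = g ν := by
  induction h with
  | refl => exact fun _ => ⟨[], rfl, rfl⟩
  | @step μ _ ih =>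
    intro hμ
    obtain ⟨pre, h1, h2⟩ := ih (Nat.le_of_succ_le hμ)
    exact ⟨blk (c μ) p ++ pre, by rw [wrd, h1, List.append_assoc], by
      rw [runV_append, hg μ hμ, h2]⟩

variable {K : Type} [Field K]

omit [Field K] in
lemma mB_blk (c : ℕ → K) (p : ℕ) (post : List (Letter K)) (u v : Name) :
    mB (tops (blk c p) ++ post) u v = (∑ q ∈ Finset.range p,
      triB (q + 1, cnt (q + 1) post + 1) (q + 1, cnt (q + 1) post) (q + 2, cnt (q + 2) post) u v) +
      mB post u v := by
  induction p with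
  | zero => simp [blk, tops]
  | succ p ih =>
    have : tops (blk c (p + 1)) = .top p (c p) :: tops (blk c p) := rfl
    rw [this, List.cons_append, mB, ih, Finset.sum_range_succ, triS]
    simp only [cnt_append, cnt_blk]
    rw [if_neg (by omega), if_neg (by omega)]
    simp only [zero_add]
    ring

lemma mY_blk (c : ℕ → K) (p : ℕ) (post : List (Letter K)) (M : Mat K) (v : Name) :
    mY M (tops (blk c p) ++ post) v = (∏ q ∈ Finset.range p,
      triY (q + 1, cnt (q + 1) post + 1) (q + 1, cnt (q + 1) post) (q + 2, cnt (q + 2) post)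
        (lead (q + 1) M) (lead (q + 1) (run M (tops (blk c p))))
        (lead (q + 2) (run M (tops (blk c p)))) v) *
      mY (run M (tops (blk c p))) post v := by
  induction p generalizing M with
  | zero => simp [blk, tops, run]
  | succ p ih =>
    have : tops (blk c (p + 1)) = .top p (c p) :: tops (blk c p) := rfl
    rw [this, List.cons_append, mY, ih, Finset.prod_range_succ, triYS]
    simp only [cnt_append, cnt_blk, run, Letter.step]
    rw [if_neg (by omega), if_neg (by omega), lead_run (r := p + 1) (by rw [cnt_blk]; simp),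
      lead_run (r := p + 2) (by rw [cnt_blk]; simp), lead_colOp (r := p + 2) (by omega)]
    simp only [zero_add]
    rw [← mul_assoc, mul_comm (triY _ _ _ _ _ _ _)]
    congr 2
    refine Finset.prod_congr rfl fun q hq => ?_
    rw [lead_colOp (by have := Finset.mem_range.1 hq; omega)]

omit [Field K] in
lemma mB_wrd_sum (c : ℕ → ℕ → K) (p μ : ℕ) (u v : Name) :
    mB (tops (wrd c p μ)) u v = ∑ ν ∈ Finset.range μ, ∑ q ∈ Finset.range p,
      triB (q + 1, ν + 1) (q + 1, ν) (q + 2, if q + 2 ≤ p then ν else 0) u v := by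
  induction μ with
  | zero => simp [wrd, tops, mB]
  | succ μ ih =>
    rw [wrd, tops_append, mB_blk, ih, Finset.sum_range_succ, add_comm]
    congr 1
    refine Finset.sum_congr rfl fun q hq => ?_
    have := Finset.mem_range.1 hq
    simp only [cnt_wrd]
    rw [if_pos (by omega)]
    simp

lemma mY_wrd_prod (c : ℕ → ℕ → K) (p N : ℕ) (M : ℕ → Mat K)
    (hM : ∀ μ, μ < N → run (M (μ + 1)) (tops (blk (c μ) p)) = M μ) (μ : ℕ) (hμ : μ ≤ N)
    (v : Name) :
    mY (M μ) (tops (wrd c p μ)) v = ∏ ν ∈ Finset.range μ, ∏ q ∈ Finset.range p,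
      triY (q + 1, ν + 1) (q + 1, ν) (q + 2, if q + 2 ≤ p then ν else 0)
        (lead (q + 1) (M (ν + 1))) (lead (q + 1) (M ν)) (lead (q + 2) (M ν)) v := by
  induction μ with
  | zero => simp [wrd, tops, mY]
  | succ μ ih =>
    rw [wrd, tops_append, mY_blk, hM μ hμ, ih (by omega), Finset.prod_range_succ, mul_comm]
    congr 1
    refine Finset.prod_congr rfl fun q hq => ?_
    have := Finset.mem_range.1 hq
    simp only [cnt_wrd]
    rw [if_pos (by omega)]
    simp

lemma mX_wrd (c : ℕ → ℕ → K) (p N : ℕ) (M : ℕ → Mat K)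
    (hM : ∀ μ, μ < N → run (M (μ + 1)) (tops (blk (c μ) p)) = M μ) (μ : ℕ) (hμ : μ ≤ N)
    {r m : ℕ} (h1 : 1 ≤ r) (h2 : r ≤ p) (hm : m ≤ μ) :
    mX (M μ) (tops (wrd c p μ)) (r, m) = lead r (M m) := by
  induction hm with
  | refl => rw [mX_big _ _ (by simp [cnt_wrd, h1, h2])]
  | @step μ hm ih =>
    rw [wrd, tops_append, mX_append _ _ _ (by simpa [cnt_wrd, h1, h2] using hm), hM μ hμ,
      ih (Nat.le_of_succ_le hμ)]

lemma prod_prod_single {A : Type} [CommMonoid A] (μ p : ℕ) (P : ℕ → ℕ → Prop)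
    [∀ ν q, Decidable (P ν q)] (g : ℕ → ℕ → A) (ν₀ q₀ : ℕ) (Q : Prop) [Decidable Q]
    (h1 : ∀ ν q, ν < μ → q < p → P ν q → ν = ν₀ ∧ q = q₀ ∧ Q)
    (h2 : Q → ν₀ < μ ∧ q₀ < p ∧ P ν₀ q₀) :
    (∏ ν ∈ Finset.range μ, ∏ q ∈ Finset.range p, if P ν q then g ν q else 1) =
      if Q then g ν₀ q₀ else 1 := by
  split_ifs with hQ
  · obtain ⟨a, b, c⟩ := h2 hQ
    rw [Finset.prod_eq_single ν₀, Finset.prod_eq_single q₀, if_pos c]
    · intro q hq hne
      exact if_neg fun H => hne (h1 _ _ a (Finset.mem_range.1 hq) H).2.1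
    · intro H; exact absurd (Finset.mem_range.2 b) H
    · intro ν hν hne
      refine Finset.prod_eq_one fun q hq => if_neg fun H => hne ?_
      exact (h1 _ _ (Finset.mem_range.1 hν) (Finset.mem_range.1 hq) H).1
    · intro H; exact absurd (Finset.mem_range.2 a) H
  · refine Finset.prod_eq_one fun ν hν => Finset.prod_eq_one fun q hq => if_neg fun H => hQ ?_
    exact (h1 _ _ (Finset.mem_range.1 hν) (Finset.mem_range.1 hq) H).2.2

lemma sum_sum_single (μ p : ℕ) (P : ℕ → ℕ → Prop)
    [∀ ν q, Decidable (P ν q)] (ν₀ q₀ : ℕ) (Q : Prop) [Decidable Q]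
    (h1 : ∀ ν q, ν < μ → q < p → P ν q → ν = ν₀ ∧ q = q₀ ∧ Q)
    (h2 : Q → ν₀ < μ ∧ q₀ < p ∧ P ν₀ q₀) :
    (∑ ν ∈ Finset.range μ, ∑ q ∈ Finset.range p, if P ν q then (1 : ℤ) else 0) =
      if Q then 1 else 0 := by
  have := prod_prod_single (A := Multiplicative ℤ) μ p P (fun _ _ => Multiplicative.ofAdd 1)
    ν₀ q₀ Q h1 h2
  have e := congrArg Multiplicative.toAdd this
  simpa [toAdd_prod, apply_ite Multiplicative.toAdd] using e

omit [Field K] in
lemma mB_wrd (c : ℕ → ℕ → K) (p μ : ℕ) {r m r' m' : ℕ} (h1 : 1 ≤ r) (h2 : r ≤ p) (h3 : m < μ)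
    (h1' : 1 ≤ r') (h2' : r' ≤ p) (h3' : m' < μ) :
    mB (tops (wrd c p μ)) (r, m) (r', m') =
      (if r = r' ∧ m = m' + 1 then 1 else 0) + (if r' = r + 1 ∧ m = m' then 1 else 0) +
      (if r = r' + 1 ∧ m' = m + 1 then 1 else 0) - (if r = r' ∧ m' = m + 1 then 1 else 0) -
      (if r = r' + 1 ∧ m = m' then 1 else 0) - (if r' = r + 1 ∧ m = m' + 1 then 1 else 0) := by
  rw [mB_wrd_sum]
  simp only [triB, Finset.sum_add_distrib, Finset.sum_sub_distrib, Prod.mk.injEq]
  rw [sum_sum_single μ p _ m' (r - 1) (r = r' ∧ m = m' + 1) (by intros; omega) (by omega),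
    sum_sum_single μ p _ m (r - 1) (r' = r + 1 ∧ m = m')
      (by intro ν q _ _; split_ifs <;> omega) (by split_ifs <;> omega),
    sum_sum_single μ p _ m (r' - 1) (r = r' + 1 ∧ m' = m + 1)
      (by intro ν q _ _; split_ifs <;> omega) (by split_ifs <;> omega),
    sum_sum_single μ p _ m (r - 1) (r = r' ∧ m' = m + 1) (by intros; omega) (by omega),
    sum_sum_single μ p _ m (r' - 1) (r = r' + 1 ∧ m = m')
      (by intro ν q _ _; split_ifs <;> omega) (by split_ifs <;> omega),
    sum_sum_single μ p _ m' (r - 1) (r' = r + 1 ∧ m = m' + 1)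
      (by intro ν q _ _; split_ifs <;> omega) (by split_ifs <;> omega)]

lemma mY_wrd (c : ℕ → ℕ → K) (p N : ℕ) (M : ℕ → Mat K)
    (hM : ∀ μ, μ < N → run (M (μ + 1)) (tops (blk (c μ) p)) = M μ) {r m : ℕ}
    (h2 : r + 1 ≤ p) (h3 : m + 1 < N) :
    mY (M N) (tops (wrd c p N)) (r + 1, m + 1) =
      lead (r + 2) (M m) / lead (r + 1) (M m) *
      (lead (r + 1) (M (m + 2)) / lead (r + 2) (M (m + 1))) *
      (lead r (M (m + 1)) / lead r (M (m + 2))) := by
  rw [mY_wrd_prod c p N M hM N le_rfl]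
  simp only [triY, Finset.prod_mul_distrib, Prod.mk.injEq]
  rw [prod_prod_single N p _ _ m r True (by intros; refine ⟨?_, ?_, trivial⟩ <;> omega)
      (by omega),
    prod_prod_single N p _ _ (m + 1) r True (by intros; refine ⟨?_, ?_, trivial⟩ <;> omega)
      (by omega),
    prod_prod_single N p _ _ (m + 1) (r - 1) (1 ≤ r) (by intro ν q _ _; split_ifs <;> omega)
      (by split_ifs <;> omega)]
  simp only [if_true]
  congr 1
  split_ifs with h
  · rw [show r - 1 + 1 = r by omega]
  · rw [show r = 0 by omega]; simp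

end Pool.Agent.MP_122b1e_ag

end

section

set_option autoImplicit false

namespace Pool.Agent.MP_122b1e_ag

variable {R : Type} [CommRing R] {k : ℕ}

def ix (k i j b : ℕ) : ℕ := if b + i < k then b else b + j

/-- Plücker coordinate of the `i × j` rectangle. -/
def Pl (v : ℕ → Fin k → R) (i j : ℕ) : R := (Matrix.of fun a b : Fin k => v (ix k i j b) a).det

def tau (t : ℕ → Rˣ) (k i j : ℕ) : Rˣ := ∏ b ∈ Finset.range k, t (ix k i j b)

def fr (t : ℕ → Rˣ) (v : ℕ → Fin k → R) (j : ℕ) : ℕ → Fin k → R := fun b =>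
  if b < k then ((-1) ^ b * (t (k + j - 1 - b) : R)) • v (k + j - 1 - b) else 0

def eps (G : Matrix (Fin k) (Fin k) R) : ℕ → (Fin k → R) →ₗ[R] R := fun a =>
  if h : a < k then LinearMap.proj (⟨a, h⟩ : Fin k) ∘ₗ G.mulVecLin else 0

def cols (f : ℕ → Fin k → R) : Matrix (Fin k) (Fin k) R := Matrix.of fun a b => f b a

lemma eps_apply (G : Matrix (Fin k) (Fin k) R) (a : Fin k) (y : Fin k → R) :
    eps G a y = G.mulVec y a := by simp [eps]

lemma pair_eps (G : Matrix (Fin k) (Fin k) R) (f : ℕ → Fin k → R) :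
    (Matrix.of fun a b : Fin k => pairM (eps G) f a b) = G * cols f := by
  ext a b
  simp [pairM, eps_apply, cols, Matrix.mul_apply, Matrix.mulVec, dotProduct]

lemma lead_eps (G : Matrix (Fin k) (Fin k) R) (f : ℕ → Fin k → R) :
    lead k (pairM (eps G) f) = G.det * (cols f).det := by
  rw [lead, pair_eps, Matrix.det_mul]

lemma Pl_zero_left (v : ℕ → Fin k → R) (j : ℕ) : Pl v 0 j = Pl v 0 0 := by
  unfold Pl; congr 1; ext a b; simp [ix]

lemma Pl_zero_right (v : ℕ → Fin k → R) (i : ℕ) : Pl v i 0 = Pl v 0 0 := by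
  unfold Pl; congr 1; ext a b; simp [ix]

lemma lead_succ_of_col {m : ℕ} {M : Mat R} (h0 : ∀ a, a < m → M a m = 0) (h1 : M m m = 1) :
    lead (m + 1) M = lead m M := by
  unfold lead
  rw [Matrix.det_succ_column _ (Fin.last m), Finset.sum_eq_single (Fin.last m)]
  · simp only [Fin.val_last, Matrix.of_apply, h1, mul_one, Fin.succAbove_last]
    rw [← two_mul, pow_mul]
    simp only [even_two, Even.neg_pow, one_pow, one_mul]
    rfl
  · intro b _ hb
    have : (b : ℕ) < m := Fin.val_lt_last hb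
    simp [h0 b this]
  · simp

lemma lead_of_cols {r m : ℕ} (hr : r ≤ m) {M : Mat R}
    (h : ∀ a b, r ≤ b → b < m → a < m → M a b = if a = b then 1 else 0) :
    lead m M = lead r M := by
  induction hr with
  | refl => rfl
  | @step m hr ih =>
    rw [lead_succ_of_col, ih fun a b h1 h2 h3 => h a b h1 (by omega) (by omega)]
    · intro a ha
      rw [h a m hr (by omega) (by omega), if_neg (by omega)]
    · rw [h m m hr (by omega) (by omega), if_pos rfl]

def sgn (R : Type) [CommRing R] (k : ℕ) : R :=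
  (∏ b : Fin k, (-1 : R) ^ (b : ℕ)) * ((Equiv.Perm.sign (Fin.revPerm : Equiv.Perm (Fin k)) : ℤˣ) : ℤ)

lemma det_mix (t : ℕ → Rˣ) (v : ℕ → Fin k → R) (r j : ℕ) :
    (cols fun b => if b < r then fr t v j b else fr t v 0 b).det =
      sgn R k * tau t k r j * Pl v r j := by
  have e : (cols fun b => if b < r then fr t v j b else fr t v 0 b) =
      Matrix.of fun a b : Fin k => ((-1) ^ (b : ℕ) * (t (ix k r j (Fin.rev b)) : R)) *
        ((Matrix.of fun a b : Fin k => v (ix k r j b) a).submatrix id Fin.revPerm) a b := by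
    ext a b
    have hb := b.2
    simp only [cols, Matrix.of_apply, fr, hb, if_true, Matrix.submatrix_apply, id,
      Fin.revPerm_apply, Fin.val_rev]
    split_ifs with h
    · have : ix k r j (k - (b + 1)) = k + j - 1 - b := by
        unfold ix; rw [if_neg (by omega)]; omega
      rw [this]; rfl
    · have : ix k r j (k - (b + 1)) = k + 0 - 1 - b := by
        unfold ix; rw [if_pos (by omega)]; omega
      rw [this]; rfl
  rw [e, Matrix.det_mul_row, Matrix.det_permute', Finset.prod_mul_distrib]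
  have : (∏ b : Fin k, (t (ix k r j (Fin.rev b)) : R)) = (tau t k r j : R) := by
    rw [tau, Units.coe_prod, ← Fin.prod_univ_eq_prod_range (fun b => (t (ix k r j b) : R))]
    exact Equiv.prod_comp Fin.revPerm (fun b : Fin k => (t (ix k r j b) : R))
  rw [this, sgn, Pl]
  ring

lemma isUnit_sgn : IsUnit (sgn R k) := by
  refine IsUnit.mul ?_ ?_
  · exact IsUnit.prod_univ_iff.2 fun b => (isUnit_one.neg).pow _
  · exact (Units.isUnit _).map (Int.castRingHom R)

lemma lead_fr {G : Matrix (Fin k) (Fin k) R} {t : ℕ → Rˣ} {v : ℕ → Fin k → R}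
    (hG : G * cols (fr t v 0) = 1) {r : ℕ} (hr : r ≤ k) (j : ℕ) :
    lead r (pairM (eps G) (fr t v j)) = G.det * sgn R k * tau t k r j * Pl v r j := by
  have e1 : lead r (pairM (eps G) (fr t v j)) =
      lead r (pairM (eps G) fun b => if b < r then fr t v j b else fr t v 0 b) :=
    lead_congr fun a b _ hb => by simp only [pairM, hb, if_true]
  rw [e1, ← lead_of_cols hr, lead_eps, det_mix]
  · ring
  · intro a b h1 h2 h3
    have := congrFun (congrFun ((pair_eps G _).trans hG) ⟨a, h3⟩) ⟨b, h2⟩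
    simp only [Matrix.of_apply, Matrix.one_apply, Fin.mk.injEq] at this
    rw [← this]
    simp only [pairM, show ¬ b < r by omega, if_false]

def TT (t : ℕ → Rˣ) (m : ℕ) : Rˣ := ∏ a ∈ Finset.range m, t a

lemma tau_eq (t : ℕ → Rˣ) (a i j : ℕ) :
    tau t (a + i) i j = TT t a * TT t (a + i + j) / TT t (a + j) := by
  rw [tau, Finset.prod_range_add, show a + i + j = a + j + i by omega, TT, TT, TT,
    Finset.prod_range_add, eq_div_iff_mul_eq']
  have e1 : ∏ b ∈ Finset.range a, t (ix (a + i) i j b) = ∏ b ∈ Finset.range a, t b :=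
    Finset.prod_congr rfl fun b hb => by
      have := Finset.mem_range.1 hb
      unfold ix; rw [if_pos (by omega)]
  have e2 : ∏ b ∈ Finset.range i, t (ix (a + i) i j (a + b)) =
      ∏ b ∈ Finset.range i, t (a + j + b) :=
    Finset.prod_congr rfl fun b _ => by
      unfold ix; rw [if_neg (by omega)]; congr 1; omega
  rw [e1, e2]
  ac_rfl

lemma tau_balance (t : ℕ → Rˣ) {r : ℕ} (hr : r + 2 ≤ k) (j : ℕ) :
    tau t k r (j + 1) * tau t k (r + 1) j * tau t k (r + 2) (j + 2) =
      tau t k (r + 2) (j + 1) * tau t k (r + 1) (j + 2) * tau t k r j := by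
  obtain ⟨a, rfl⟩ : ∃ a, k = a + (r + 2) := ⟨k - (r + 2), by omega⟩
  have e0 := fun j => tau_eq t (a + 2) r j
  have e1 := fun j => tau_eq t (a + 1) (r + 1) j
  rw [show a + 2 + r = a + (r + 2) by omega] at e0
  rw [show a + 1 + (r + 1) = a + (r + 2) by omega] at e1
  rw [e0, e0, e1, e1, tau_eq, tau_eq, show a + 2 + (j + 1) = a + 1 + (j + 2) by omega,
    show a + 1 + j = a + (j + 1) by omega, show a + 2 + j = a + (j + 2) by omega]
  simp only [div_eq_mul_inv]
  ac_rfl

def tt (d : ℕ → Rˣ) (k : ℕ) (m : ℕ) : Rˣ :=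
  if m < k + 1 then 1 else tt d k (m - (k + 1)) * d (m - (k + 1)) / d (m - (k + 1) + 1)
termination_by m
decreasing_by omega

lemma tau_tt (d : ℕ → Rˣ) (k j : ℕ) :
    tau (tt d k) (k + 1) (k + 1) (j + 1) * d (j + 1) = tau (tt d k) (k + 1) (k + 1) j * d j := by
  have e := fun j => tau_eq (tt d k) 0 (k + 1) j
  simp only [zero_add] at e
  rw [e, e, ← add_assoc]
  have e1 : TT (tt d k) (k + 1 + j + 1) = TT (tt d k) (k + 1 + j) * tt d k (k + 1 + j) :=
    Finset.prod_range_succ _ _
  have e2 : TT (tt d k) (j + 1) = TT (tt d k) j * tt d k j := Finset.prod_range_succ _ _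
  have e3 : tt d k (k + 1 + j) = tt d k j * d j / d (j + 1) := by
    rw [tt, if_neg (by omega), show k + 1 + j - (k + 1) = j by omega]
  rw [e1, e2, e3]
  apply Units.ext
  simp only [div_eq_mul_inv, mul_inv, Units.val_mul]
  have h1 := (tt d k j).mul_inv
  have h2 := (d (j + 1)).inv_mul
  linear_combination ((TT (tt d k) 0 : R) * TT (tt d k) (k + 1 + j) * ↑(TT (tt d k) j)⁻¹ * d j *
    (↑(d (j + 1))⁻¹ * d (j + 1))) * h1 +
    ((TT (tt d k) 0 : R) * TT (tt d k) (k + 1 + j) * ↑(TT (tt d k) j)⁻¹ * d j) * h2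

lemma fr_step {G : Matrix (Fin (k + 1)) (Fin (k + 1)) R} {t : ℕ → Rˣ} {v : ℕ → Fin (k + 1) → R}
    (hG : IsUnit G.det) {j : ℕ} (h1 : lead (k + 1) (pairM (eps G) (fr t v j)) = 1)
    (h2 : lead (k + 1) (pairM (eps G) (fr t v (j + 1))) = 1) :
    ∃ c : ℕ → R, runV (fr t v j) (blk c k) = fr t v (j + 1) := by
  set f := fr t v j with hf
  set u := fr t v (j + 1) 0 with hu
  have shift : ∀ b, 1 ≤ b → fr t v (j + 1) b = if b ≤ k then -f (b - 1) else f b := by
    intro b hb
    simp only [hf, fr]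
    split_ifs with a1 a2 a3 a4
    all_goals first | omega | rfl | skip
    obtain ⟨b, rfl⟩ : ∃ b', b = b' + 1 := ⟨b - 1, by omega⟩
    rw [show k + 1 + (j + 1) - 1 - (b + 1) = k + 1 + j - 1 - (b + 1 - 1) by omega, ← neg_smul,
      pow_succ, Nat.add_sub_cancel]
    congr 1; ring
  let A : Matrix (Fin (k + 1)) (Fin (k + 1)) R := Matrix.of fun a b => pairM (eps G) f a b
  let c := A.cramer (G.mulVec u)
  have hA : A.det = 1 := h1
  have hc : A.mulVec c = G.mulVec u := by
    rw [Matrix.mulVec_cramer, hA, one_smul]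
  have hc' : (cols f).mulVec c = u := by
    have hinj : Function.Injective G.mulVec :=
      Matrix.mulVec_injective_of_isUnit ((Matrix.isUnit_iff_isUnit_det _).2 hG)
    apply hinj
    rw [Matrix.mulVec_mulVec, ← pair_eps]; exact hc
  have hl : c (Fin.last k) = 1 := by
    have e1 : c (Fin.last k) = lead (k + 1) (pairM (eps G) (Function.update f k u)) := by
      simp only [c, Matrix.cramer_apply, lead]
      congr 1
      ext a b
      simp only [Matrix.updateCol_apply, A, Matrix.of_apply, pairM, Function.update_apply,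
        Fin.ext_iff, Fin.val_last]
      split_ifs
      · exact (eps_apply G a u).symm
      · rfl
    have e2 : runV (Function.update f k u) (blk (fun _ => (0 : R)) k) = fr t v (j + 1) := by
      funext b
      rw [runV_blk]
      split_ifs with a1 a2
      · simp [a1, hu]
      · rw [shift b (by omega), if_pos a2, Function.update_of_ne (by omega)]
      · rw [shift b (by omega), if_neg a2, Function.update_of_ne (by omega)]
    rw [e1, ← h2, ← e2, pairM_runV, lead_run (by rw [cnt_blk]; simp)]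
  refine ⟨fun a => if h : a < k + 1 then c ⟨a, h⟩ else 0, ?_⟩
  funext b
  rw [runV_blk]
  split_ifs with a1 a2
  · rw [a1, ← hu, ← hc']
    funext a
    simp only [Pi.add_apply, Finset.sum_apply, Pi.smul_apply, smul_eq_mul, Matrix.mulVec,
      dotProduct, cols, Matrix.of_apply]
    rw [Fin.sum_univ_castSucc, hl, ← Fin.sum_univ_eq_sum_range
      (fun x => (if h : x < k + 1 then c ⟨x, h⟩ else 0) * f x a)]
    simp only [Fin.val_castSucc, Fin.val_last, mul_one, add_left_inj]
    refine Finset.sum_congr rfl fun x _ => ?_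
    rw [dif_pos (by have := x.2; omega), mul_comm]
    rfl
  · rw [shift b (by omega), if_pos a2]
  · rw [shift b (by omega), if_neg a2]

theorem exists_frames (N : ℕ) (v : ℕ → Fin (k + 1) → R)
    (hv : ∀ j, j ≤ N → IsUnit (Pl v (k + 1) j)) :
    ∃ (t : ℕ → Rˣ) (G : Matrix (Fin (k + 1)) (Fin (k + 1)) R) (c : ℕ → ℕ → R),
      IsUnit G.det ∧ G * cols (fr t v 0) = 1 ∧
      ∀ μ, μ < N → runV (fr t v (N - (μ + 1))) (blk (c μ) k) = fr t v (N - μ) := by
  classical
  let d : ℕ → Rˣ := fun j => if h : j ≤ N then (hv j h).unit else 1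
  have hd : ∀ j, j ≤ N → (d j : R) = Pl v (k + 1) j := fun j h => by simp [d, h]
  let t := tt d k
  have u0 : IsUnit (cols (fr t v 0)).det := by
    have := det_mix t v 0 0
    simp only [Nat.not_lt_zero, if_false] at this
    rw [this, ← Pl_zero_right v (k + 1)]
    exact (isUnit_sgn.mul (Units.isUnit _)).mul (hv 0 (by omega))
  have hG := Matrix.nonsing_inv_mul _ u0
  set G := (cols (fr t v 0))⁻¹
  have uG : IsUnit G.det := Matrix.isUnit_det_of_right_inverse hG
  have one : ∀ j, j ≤ N → lead (k + 1) (pairM (eps G) (fr t v j)) = 1 := by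
    intro j
    induction j with
    | zero => intro _; rw [lead, pair_eps, hG, Matrix.det_one]
    | succ j ih =>
      intro hj
      rw [← ih (by omega), lead_fr hG le_rfl, lead_fr hG le_rfl, ← hd _ hj, ← hd j (by omega),
        mul_assoc, mul_assoc _ _ (d j : R), ← Units.val_mul, ← Units.val_mul, tau_tt]
  have ex : ∀ μ, ∃ c : ℕ → R, μ < N →
      runV (fr t v (N - (μ + 1))) (blk c k) = fr t v (N - μ) := by
    intro μ
    by_cases h : μ < N
    · obtain ⟨c, hc⟩ := fr_step uG (one (N - (μ + 1)) (by omega)) (one _ (by omega))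
      exact ⟨c, fun _ => by rw [hc]; congr 1; omega⟩
    · exact ⟨0, fun h' => absurd h' h⟩
  choose c hc using ex
  exact ⟨t, G, c, uG, hG, hc⟩

end Pool.Agent.MP_122b1e_ag

end
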