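import Pool.Agent.Mg.F122b1e.G9d3007

set_option autoImplicit false

namespace Pool.Agent.MP_122b1e_ag

variable {k n : ℕ}

/-- The vertex of the `i × j` rectangle. -/
def nu (k n i j : ℕ) : Vertex k n :=
  if h : 1 ≤ i ∧ i ≤ k ∧ 1 ≤ j ∧ j ≤ n - k then some (⟨i - 1, by omega⟩, ⟨j - 1, by omega⟩)
  else none

lemma some_eq_nu {a b : ℕ} {i : Fin k} {j : Fin (n - k)} :
    some (i, j) = nu k n a b ↔ a = i + 1 ∧ b = j + 1 := by
  have := i.2
  have := j.2
  unfold nu
  split_ifs with h
  · simp only [Option.some.injEq, Prod.mk.injEq, Fin.ext_iff]; omega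
  · simp only [reduceCtorEq, false_iff]; omega

lemma none_eq_nu {a b : ℕ} :
    none = nu k n a b ↔ ¬ (1 ≤ a ∧ a ≤ k ∧ 1 ≤ b ∧ b ≤ n - k) := by
  unfold nu
  split_ifs with h <;> simp [h]

lemma nu_succ {r j : ℕ} (hr : r < k) (hj : j < n - k) :
    nu k n (r + 1) (j + 1) = some (⟨r, hr⟩, ⟨j, hj⟩) := 
  ((some_eq_nu (i := ⟨r, hr⟩) (j := ⟨j, hj⟩)).2 ⟨rfl, rfl⟩).symm

lemma rect_col (hkn : k < n) {r j : ℕ} (hr : r + 2 ≤ k) (hj : j + 2 ≤ n - k) (u : Vertex k n) :
    (rectSeed hkn).B u (nu k n (r + 1) (j + 1)) =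
      (if u = nu k n r (j + 1) then 1 else 0) + (if u = nu k n (r + 1) j then 1 else 0) +
      (if u = nu k n (r + 2) (j + 2) then 1 else 0) -
      (if u = nu k n (r + 2) (j + 1) then 1 else 0) -
      (if u = nu k n (r + 1) (j + 2) then 1 else 0) - (if u = nu k n r j then 1 else 0) := by
  rw [nu_succ (by omega) (by omega)]
  rcases u with _ | ⟨i, l⟩
  · simp only [rectSeed, arrowCount, none_eq_nu]
    split_ifs <;> omega
  · simp only [rectSeed, arrowCount, some_eq_nu]
    split_ifs <;> omega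

lemma rect_skew (hkn : k < n) : (rectSeed hkn).Skew := by
  intro u v; simp [rectSeed]

lemma prod_zpow_ind {ι K : Type} [Fintype ι] [DecidableEq ι] [Field K] (x : ι → K) (a : ι) :
    (∏ u, x u ^ (if u = a then (1 : ℤ) else 0)) = x a := by
  rw [Finset.prod_eq_single a] <;> simp +contextual

lemma rect_yhat (hkn : k < n) (hx : ∀ u, (rectSeed hkn).x u ≠ 0) {r j : ℕ} (hr : r + 2 ≤ k)
    (hj : j + 2 ≤ n - k) :
    (rectSeed hkn).yhat (nu k n (r + 1) (j + 1)) =
      (rectSeed hkn).x (nu k n r (j + 1)) * (rectSeed hkn).x (nu k n (r + 1) j) *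
      (rectSeed hkn).x (nu k n (r + 2) (j + 2)) / (rectSeed hkn).x (nu k n (r + 2) (j + 1)) /
      (rectSeed hkn).x (nu k n (r + 1) (j + 2)) / (rectSeed hkn).x (nu k n r j) := by
  simp only [Seed.yhat, rect_col hkn hr hj, zpow_sub₀ (hx _), zpow_add₀ (hx _),
    Finset.prod_div_distrib, Finset.prod_mul_distrib, prod_zpow_ind]

/-- Columns of a matrix, extended by zero. -/
def colv {R : Type} [Zero R] (X : Matrix (Fin k) (Fin n) R) : ℕ → Fin k → R := fun m a =>
  if h : m < n then X a ⟨m, h⟩ else 0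

lemma colv_eq {R : Type} [Zero R] (X : Matrix (Fin k) (Fin n) R) {m : ℕ} (l : Fin n)
    (h : m = l.val) (a : Fin k) : colv X m a = X a l := by
  subst h
  simp [colv]

lemma det_rectCol {R : Type} [CommRing R] (hkn : k < n) (X : Matrix (Fin k) (Fin n) R) {i j : ℕ}
    (hi : i ≤ k) (hj : j ≤ n - k) :
    (X.submatrix id (rectCol hkn (nu k n i j))).det = Pl (colv X) i j := by
  have e0 : (X.submatrix id (rectCol hkn none)).det = Pl (colv X) 0 0 := by
    unfold Pl
    congr 1
    ext a b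
    have := b.2
    simp only [Matrix.submatrix_apply, id, rectCol, Matrix.of_apply, colv, ix, add_zero,
      ite_self]
    rw [dif_pos (by omega)]
  rcases i with _ | i
  · rw [← none_eq_nu.2 (by omega), e0, Pl_zero_left _ j]
  rcases j with _ | j
  · rw [← none_eq_nu.2 (by omega), e0, Pl_zero_right _ (i + 1)]
  rw [nu_succ (by omega) (by omega)]
  unfold Pl
  congr 1
  ext a b
  have := b.2
  simp only [Matrix.submatrix_apply, id, rectCol, Matrix.of_apply, colv, ix, ← add_assoc]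
  split_ifs <;> first | rfl | omega

lemma Pl_map {R R' : Type} [CommRing R] [CommRing R'] (f : R →+* R') (v : ℕ → Fin k → R)
    (i j : ℕ) : f (Pl v i j) = Pl (fun m a => f (v m a)) i j := by
  unfold Pl
  rw [RingHom.map_det]; rfl

lemma colv_map {R R' : Type} [CommRing R] [CommRing R'] (f : R →+* R')
    (X : Matrix (Fin k) (Fin n) R) : (fun m a => f (colv X m a)) = colv (X.map f) := by
  funext m a
  simp only [colv]
  split_ifs <;> simp

lemma det_submatrix_ne {F : Type} [Field F] {M : Matrix (Fin k) (Fin k) F} (h : M.det ≠ 0)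
    (g : Fin k → Fin k) (hg : Function.Injective g) : (M.submatrix id g).det ≠ 0 := by
  have := Matrix.det_permute' (Equiv.ofBijective g (Finite.injective_iff_bijective.1 hg)) M
  rw [Equiv.coe_ofBijective] at this
  rw [this]
  exact mul_ne_zero (by
    rcases Int.units_eq_one_or (Equiv.Perm.sign
      (Equiv.ofBijective g (Finite.injective_iff_bijective.1 hg))) with e | e <;> simp [e]) h

lemma Pl_window (hk : 1 ≤ k) (hkn : k < n) {X : Matrix (Fin k) (Fin n) ℂ} (hX : InOpenCell X)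
    {j : ℕ} (hj : j ≤ n - k) : Pl (colv X) k j ≠ 0 := by
  have := hX ⟨j, by omega⟩
  convert this using 1
  unfold Pl
  congr 1
  ext a b
  have := b.2
  simp only [Matrix.submatrix_apply, id, Matrix.of_apply]
  refine colv_eq X _ ?_ a
  simp only [ix]
  rw [if_neg (by omega), Nat.mod_eq_of_lt (by omega), add_comm]

lemma Pl_empty (hk : 1 ≤ k) (hkn : k < n) {X : Matrix (Fin k) (Fin n) ℂ} (hX : InOpenCell X) :
    Pl (colv X) 0 0 ≠ 0 := by
  rw [← Pl_zero_right _ k]; exact Pl_window hk hkn hX (by omega)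

lemma Pl_wrap (hk : 1 ≤ k) (hkn : k < n) {X : Matrix (Fin k) (Fin n) ℂ} (hX : InOpenCell X)
    {i : ℕ} (hi : i ≤ k) : Pl (colv X) i (n - k) ≠ 0 := by
  rcases i with _ | i
  · rw [Pl_zero_left]; exact Pl_empty hk hkn hX
  have := det_submatrix_ne (hX ⟨n - (i + 1), by omega⟩)
    (fun b => if h : b.val + (i + 1) < k then ⟨b + (i + 1), h⟩ else ⟨b + (i + 1) - k, by omega⟩)
    (by
      intro a b hab
      have := a.2
      have := b.2
      simp only at hab
      split_ifs at hab <;> simp only [Fin.ext_iff] at hab ⊢ <;> omega)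
  convert this using 1
  unfold Pl
  congr 1
  ext a b
  have := b.2
  simp only [Matrix.submatrix_apply, id, Matrix.of_apply]
  refine colv_eq X _ ?_ a
  simp only [ix]
  split_ifs with h1
  · simp only
    rw [show n - (i + 1) + (b + (i + 1)) = b + n by omega, Nat.add_mod_right,
      Nat.mod_eq_of_lt (by omega)]
  · simp only
    rw [Nat.mod_eq_of_lt (by omega)]; omega

open ComplexOrder in
lemma reach_ne_zero (hkn : k < n) (S : Seed (Vertex k n) (RatFn k n))
    (hS : Reachable IsMutable (rectSeed hkn) S) (v : Vertex k n) : S.x v ≠ 0 := by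
  let ev : MvPolynomial (Fin k × Fin n) ℂ →+* ℂ :=
    MvPolynomial.eval fun e => ((e.2.val : ℕ) : ℂ) ^ (e.1 : ℕ)
  have inj := IsFractionRing.injective (MvPolynomial (Fin k × Fin n) ℂ) (RatFn k n)
  have nz : ∀ q, 0 < ev q → algebraMap _ (RatFn k n) q ≠ 0 := by
    intro q hq e
    rw [(map_eq_zero_iff _ inj).1 e, map_zero] at hq
    exact lt_irrefl _ hq
  let P : RatFn k n → Prop := fun f => ∃ p q, 0 < ev p ∧ 0 < ev q ∧
    f = algebraMap _ (RatFn k n) p / algebraMap _ (RatFn k n) q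
  have := hS.pos P ⟨1, 1, by simp, by simp, by simp⟩ ?_ ?_ ?_ ?_ v
  · obtain ⟨p, q, hp, hq, e⟩ := this
    rw [e]; exact div_ne_zero (nz p hp) (nz q hq)
  · rintro _ _ ⟨p, q, hp, hq, rfl⟩ ⟨p', q', hp', hq', rfl⟩
    refine ⟨p * q' + q * p', q * q', ?_, ?_, ?_⟩
    · rw [map_add, map_mul, map_mul]; positivity
    · rw [map_mul]; positivity
    · rw [div_add_div _ _ (nz q hq) (nz q' hq')]; simp
  · rintro _ _ ⟨p, q, hp, hq, rfl⟩ ⟨p', q', hp', hq', rfl⟩
    refine ⟨p * p', q * q', ?_, ?_, ?_⟩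
    · rw [map_mul]; positivity
    · rw [map_mul]; positivity
    · rw [div_mul_div_comm]; simp
  · rintro _ ⟨p, q, hp, hq, rfl⟩
    exact ⟨q, p, hq, hp, by rw [inv_div]⟩
  · intro u
    refine ⟨_, 1, ?_, by simp, by simp only [rectSeed, map_one, div_one]; rfl⟩
    rw [RingHom.map_det, ← Matrix.det_transpose]
    have e : (ev.mapMatrix ((Matrix.mvPolynomialX (Fin k) (Fin n) ℂ).submatrix id
        (rectCol hkn u))).transpose =
        Matrix.vandermonde fun b => (((rectCol hkn u b).val : ℕ) : ℂ) := by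
      ext a b
      simp [ev, Matrix.vandermonde_apply]
    rw [e, Matrix.det_vandermonde]
    refine Finset.prod_pos fun a _ => Finset.prod_pos fun b hb => ?_
    have hab : a.val < b.val := Fin.lt_def.1 (Finset.mem_Ioi.1 hb)
    rw [sub_pos, Nat.cast_lt]
    rcases u with _ | ⟨i, j⟩
    · exact hab
    · simp only [rectCol]
      split_ifs <;> simp only <;> omega

end Pool.Agent.MP_122b1e_ag
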