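import Mathlib

section

set_option autoImplicit false

namespace Pool.Agent.MP_122b1e_ag

variable {κ V : Type} [Field κ] [AddCommGroup V] [Module κ V]

/-- `B` has dimension one more than `A`. -/
structure Cov (A B : Submodule κ V) : Prop where
  le : A ≤ B
  ex : ∃ y ∈ B, y ∉ A
  line : ∀ y ∈ B, y ∉ A → ∀ x ∈ B, ∃ c : κ, x - c • y ∈ A

/-- `g` preserves `G`. -/
def Pres (g : V →ₗ[κ] V) (G : Submodule κ V) : Prop := ∀ y ∈ G, g y ∈ G

def PresF (g : V →ₗ[κ] V) (F : ℕ → Submodule κ V) : Prop := ∀ r, Pres g (F r)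

def Kills (φ : V →ₗ[κ] κ) (G : Submodule κ V) : Prop := ∀ y ∈ G, φ y = 0

/-- `g` acts as a scalar on `C / A`. -/
def NonSep (g : V →ₗ[κ] V) (A C : Submodule κ V) : Prop := ∃ c : κ, ∀ y ∈ C, g y - c • y ∈ A

def Scalar (g : V →ₗ[κ] V) (C C' : Submodule κ V) : Prop :=
  ∃ c : κ, ∀ y ∈ C, y ∈ C' → g y = c • y

def Idem (g : V →ₗ[κ] V) : Prop := ∀ y, g (g y) = g y

def Comm (g h : V →ₗ[κ] V) : Prop := ∀ y, g (h y) = h (g y)

lemma Comm.symm {g h : V →ₗ[κ] V} (H : Comm g h) : Comm h g := fun y => (H y).symm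

lemma mem_of_sub_smul {A : Submodule κ V} {x y : V} {c : κ} (h : x - c • y ∈ A) (hy : y ∈ A) :
    x ∈ A := by
  have := A.add_mem h (A.smul_mem c hy)
  simpa using this

lemma mem_of_smul {A : Submodule κ V} {y : V} {c : κ} (h : c • y ∈ A) (hy : y ∉ A) : c = 0 := by
  by_contra hc
  exact hy ((A.smul_mem_iff hc).1 h)

lemma disj_zero {A B : Submodule κ V} (h : Disjoint A B) {y : V} (ha : y ∈ A) (hb : y ∈ B) :
    y = 0 := (Submodule.disjoint_def.1 h) y ha hb

lemma not_disj {A B : Submodule κ V} (h : ¬ Disjoint A B) : ∃ y, y ∈ A ∧ y ∈ B ∧ y ≠ 0 := by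
  rw [Submodule.disjoint_def] at h
  push Not at h
  exact h

lemma cpl_decomp {A B : Submodule κ V} (h : IsCompl A B) (y : V) :
    ∃ a ∈ A, ∃ b ∈ B, a + b = y := by
  have : y ∈ A ⊔ B := by rw [h.sup_eq_top]; trivial
  exact Submodule.mem_sup.1 this

/-- Two covers of `A` sharing a vector outside `A`. -/
lemma Cov.le_of_mem {A B B' : Submodule κ V} (h : Cov A B) (hA : A ≤ B') {y : V} (hy : y ∈ B)
    (hy' : y ∈ B') (hn : y ∉ A) : B ≤ B' := by
  intro x hx
  obtain ⟨c, hc⟩ := h.line y hy hn x hx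
  exact mem_of_sub_smul (hA hc) hy'

lemma Cov.pres {A B : Submodule κ V} (h : Cov A B) {g : V →ₗ[κ] V} (hA : Pres g A) {y : V}
    (hy : y ∈ B) (hn : y ∉ A) (hg : g y ∈ B) : Pres g B := by
  intro x hx
  obtain ⟨c, hc⟩ := h.line y hy hn x hx
  have := h.le (hA _ hc)
  rw [map_sub, map_smul] at this
  exact mem_of_sub_smul this hg

lemma Cov.kills {A B : Submodule κ V} (h : Cov A B) {φ : V →ₗ[κ] κ} (hA : Kills φ A) {y : V}
    (hy : y ∈ B) (hn : y ∉ A) (hg : φ y = 0) : Kills φ B := by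
  intro x hx
  obtain ⟨c, hc⟩ := h.line y hy hn x hx
  have := hA _ hc
  rw [map_sub, map_smul, hg] at this
  simpa using this

lemma Cov.mem_of_kills {A B : Submodule κ V} (h : Cov A B) {φ : V →ₗ[κ] κ} (hA : Kills φ A)
    (hB : ¬ Kills φ B) {y : V} (hy : y ∈ B) (hg : φ y = 0) : y ∈ A := by
  by_contra hn
  exact hB (h.kills hA hy hn hg)

/-- The intersection of a cover with a complement of the smaller space is a line. -/
lemma Cov.on_line {A B E : Submodule κ V} (h : Cov A B) (hd : Disjoint A E) {y : V} (hy : y ∈ B)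
    (hy' : y ∈ E) (h0 : y ≠ 0) {x : V} (hx : x ∈ B) (hx' : x ∈ E) : ∃ c : κ, x = c • y := by
  obtain ⟨c, hc⟩ := h.line y hy (fun hA => h0 (disj_zero hd hA hy')) x hx
  exact ⟨c, sub_eq_zero.1 (disj_zero hd hc (E.sub_mem hx' (E.smul_mem c hy')))⟩

lemma Cov.exists_line {A B E : Submodule κ V} (h : Cov A B) (hd : IsCompl A E) :
    ∃ y, y ∈ B ∧ y ∈ E ∧ y ≠ 0 := by
  obtain ⟨y, hy, hn⟩ := h.ex
  obtain ⟨a, ha, b, hb, rfl⟩ := cpl_decomp hd y
  refine ⟨b, ?_, hb, ?_⟩
  · have := B.sub_mem hy (h.le ha)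
    simpa using this
  · rintro rfl
    exact hn (by simpa using ha)

/-- The adjacent non-transverse subspace is preserved. -/
lemma pres_ntr {A B B₀ C E : Submodule κ V} (h1 : Cov A B) (h2 : Cov B₀ C) (hA : A ≤ B₀)
    (hB : B ≤ C) (hd : Disjoint B₀ E) (hn : ¬ Disjoint B E) {g : V →ₗ[κ] V} (gA : Pres g A)
    (gC : Pres g C) (gE : Pres g E) : Pres g B := by
  obtain ⟨y, hy, hy', h0⟩ := not_disj hn
  obtain ⟨c, hc⟩ := h2.on_line hd (hB hy) hy' h0 (gC y (hB hy)) (gE y hy')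
  exact h1.pres gA hy (fun h => h0 (disj_zero hd (hA h) hy')) (by rw [hc]; exact B.smul_mem c hy)

lemma isCompl_of_disj {A B E E' : Submodule κ V} (h1 : Cov A B) (h2 : Cov E' E)
    (hc : IsCompl A E) (hd : Disjoint B E') : IsCompl B E' := by
  refine ⟨hd, codisjoint_iff.2 (eq_top_iff.2 fun x _ => ?_)⟩
  obtain ⟨y, hy, hy', h0⟩ := h1.exists_line hc
  obtain ⟨a, ha, e, he, rfl⟩ := cpl_decomp hc x
  obtain ⟨c, hc⟩ := h2.line y hy' (fun h => h0 (disj_zero hd hy h)) e he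
  refine Submodule.mem_sup.2 ⟨a + c • y, B.add_mem (h1.le ha) (B.smul_mem c hy), _, hc, ?_⟩
  abel

lemma nonSep_iff {A C C' : Submodule κ V} (hc : IsCompl A C') (hA : A ≤ C) {g : V →ₗ[κ] V}
    (gA : Pres g A) (gC : Pres g C') : NonSep g A C ↔ Scalar g C C' := by
  constructor
  · rintro ⟨c, h⟩
    exact ⟨c, fun y hy hy' => sub_eq_zero.1
      (disj_zero hc.disjoint (h y hy) (C'.sub_mem (gC y hy') (C'.smul_mem c hy')))⟩
  · rintro ⟨c, h⟩
    refine ⟨c, fun y hy => ?_⟩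
    obtain ⟨a, ha, e, he, rfl⟩ := cpl_decomp hc y
    have he' : e ∈ C := by simpa using C.sub_mem hy (hA ha)
    rw [map_add, h e he' he, smul_add]
    have := A.sub_mem (gA a ha) (A.smul_mem c ha)
    convert this using 1; abel

lemma Scalar.symm {g : V →ₗ[κ] V} {C C' : Submodule κ V} (h : Scalar g C C') : Scalar g C' C := by
  obtain ⟨c, h⟩ := h
  exact ⟨c, fun y hy hy' => h y hy' hy⟩

/-- An endomorphism commuting with a separating one preserves its invariant lines. -/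
lemma pres_of_comm {A B₁ B₂ C : Submodule κ V} (h1 : Cov A B₁) (h2 : Cov A B₂) (h3 : Cov B₂ C)
    (hB : B₁ ≤ C) (hne : ¬ B₁ ≤ B₂) {g g' : V →ₗ[κ] V} (gA : Pres g A) (g1 : Pres g B₁)
    (g2 : Pres g B₂) (hs : ¬ NonSep g A C) (hc : Comm g g') (gA' : Pres g' A)
    (gC' : Pres g' C) : Pres g' B₁ := by
  obtain ⟨y₁, hy₁, hn₁⟩ := SetLike.not_le_iff_exists.1 hne
  obtain ⟨y₂, hy₂, hn₂⟩ := h2.ex
  have hn₁' : y₁ ∉ A := fun h => hn₁ (h2.le h)
  obtain ⟨c₁, hc₁⟩ := h1.line y₁ hy₁ hn₁' _ (g1 _ hy₁)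
  obtain ⟨c₂, hc₂⟩ := h2.line y₂ hy₂ hn₂ _ (g2 _ hy₂)
  have dec : ∀ x ∈ C, ∃ a b : κ, x - a • y₁ - b • y₂ ∈ A := by
    intro x hx
    obtain ⟨a, ha⟩ := h3.line y₁ (hB hy₁) hn₁ x hx
    obtain ⟨b, hb⟩ := h2.line y₂ hy₂ hn₂ _ ha
    exact ⟨a, b, hb⟩
  have hcc : c₁ ≠ c₂ := by
    rintro rfl
    refine hs ⟨c₁, fun x hx => ?_⟩
    obtain ⟨a, b, hab⟩ := dec x hx
    have := A.add_mem (A.add_mem (A.sub_mem (gA _ hab) (A.smul_mem c₁ hab)) (A.smul_mem a hc₁))
      (A.smul_mem b hc₂)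
    convert this using 1
    simp only [map_sub, map_smul, smul_sub, smul_smul, mul_comm]
    abel
  obtain ⟨a, b, hab⟩ := dec _ (gC' _ (hB hy₁))
  have hb : (b * (c₁ - c₂)) • y₂ ∈ A := by
    have t1 := gA _ hab
    have t2 := gA' _ hc₁
    rw [map_sub, map_sub, map_smul, map_smul, hc] at t1
    rw [map_sub, map_smul] at t2
    have := A.add_mem (A.sub_mem (A.add_mem (A.add_mem (A.sub_mem t1 t2) (A.smul_mem a hc₁))
      (A.smul_mem b hc₂)) (A.smul_mem c₁ hab)) A.zero_mem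
    convert this using 1
    simp only [smul_sub, smul_smul, mul_sub, sub_smul, mul_comm]
    abel
  have hb0 : b = 0 := by
    have := mem_of_smul hb hn₂
    rcases mul_eq_zero.1 this with h | h
    · exact h
    · exact absurd (sub_eq_zero.1 h) hcc
  rw [hb0, zero_smul, sub_zero] at hab
  exact h1.pres gA' hy₁ hn₁' (mem_of_sub_smul (h1.le hab) hy₁)

lemma sep_of_abs {A C : Submodule κ V} {π : V →ₗ[κ] V} {α : V} {β : V →ₗ[κ] κ}
    (hα : α ∈ C) (hα' : α ∉ A) (hβ : Kills β A) (hβ' : ¬ Kills β C) (h1 : π α = α)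
    (h2 : ∀ y, β (π y) = 0) : ¬ NonSep π A C := by
  rintro ⟨c, hc⟩
  have e := hc α hα
  rw [h1, show α - c • α = (1 - c) • α by rw [sub_smul, one_smul]] at e
  have e' := mem_of_smul e hα'
  have : c = 1 := by linear_combination -e'
  subst this
  refine hβ' fun y hy => ?_
  have := hβ _ (hc y hy)
  rw [map_sub, h2, one_smul] at this
  simpa using this

/-- An absorbing crossing is nonzero. -/
lemma disj_of_abs {A B₁ B₂ C E : Submodule κ V} (h2 : Cov A B₂) (h3 : Cov B₁ C) (hA : A ≤ B₁)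
    (hB : B₂ ≤ C) (hd : Disjoint B₁ E) {π : V →ₗ[κ] V} {α : V} {β : V →ₗ[κ] κ}
    (hα : α ∈ B₁) (hα' : α ∉ A) (hβ : Kills β B₁) (hβ' : ¬ Kills β C) (h1 : π α = α)
    (hπ : ∀ y, β (π y) = 0) (p2 : Pres π B₂) (pC : Pres π C)
    (pE : ∀ y ∈ E, ∃ y' ∈ E, π (y - β y • α) = y' - β y' • α) : Disjoint B₂ E := by
  by_contra hn
  obtain ⟨y, hy, hy', h0⟩ := not_disj hn
  have hαC := h3.le hα
  have hyB : y ∉ B₁ := fun h => h0 (disj_zero hd h hy')
  have hβy : β y ≠ 0 := fun h => hyB (h3.mem_of_kills hβ hβ' (hB hy) h)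
  obtain ⟨y', hy1, hy2⟩ := pE y hy'
  have t1 : y' - β y' • α ∈ C := by
    rw [← hy2]; exact pC _ (C.sub_mem (hB hy) (C.smul_mem _ hαC))
  have t2 : β y' = 0 := by
    have := hπ (y - β y • α)
    rw [hy2, map_sub, map_smul, hβ α hα] at this
    simpa using this
  have t3 : y' = 0 := disj_zero hd (h3.mem_of_kills hβ hβ' (mem_of_sub_smul t1 hαC) t2) hy1
  rw [t3, map_sub, map_smul, h1] at hy2
  simp only [map_zero, zero_smul, sub_zero] at hy2
  have t4 : α ∈ B₂ := by
    have := p2 y hy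
    rw [sub_eq_zero.1 hy2] at this
    exact (B₂.smul_mem_iff hβy).1 this
  exact hyB (h2.le_of_mem hA t4 hα hα' hy)

/-- The graded piece argument. -/
lemma pres_gr {E : Submodule κ V} {π π' : V →ₗ[κ] V} {α : V} {β : V →ₗ[κ] κ}
    (hi : Idem π) (h1 : π α = α) (hπ : ∀ y, β (π y) = 0) (hc : Comm π π') (pE : Pres π' E)
    {G : Submodule κ V} (hG : ∀ y, y ∈ G ↔ y + β y • α ∈ E) (pG : Pres π G) : Pres π' G := by
  have hβα : β α = 0 := by rw [← h1]; exact hπ α
  intro g hg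
  have t1 : π' (π g) ∈ G := by
    have a1 := (hG _).1 (pG g hg)
    rw [hπ, zero_smul, add_zero] at a1
    rw [hG, ← hc, hπ, zero_smul, add_zero, hc]
    exact pE _ a1
  have t2 : π' (g - π g) ∈ G := by
    have a1 := pE _ ((hG _).1 (G.sub_mem hg (pG g hg)))
    set e := π' (g - π g + β (g - π g) • α) with he
    have a2 : e - β e • α ∈ G := by
      rw [hG, map_sub, map_smul, hβα]
      simpa using a1
    have a3 := G.sub_mem a2 (pG _ a2)
    convert a3 using 1
    rw [map_sub π e, map_smul π, h1, he, hc]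
    simp only [map_add, map_sub, map_smul, hi g, h1]
    abel
  have := G.add_mem t1 t2
  rw [← map_add] at this
  simpa using this

/-- Projection onto `A` along `B`. -/
structure IsPr (P : V →ₗ[κ] V) (A B : Submodule κ V) : Prop where
  cpl : IsCompl A B
  one : ∀ y ∈ A, P y = y
  zero : ∀ y ∈ B, P y = 0

lemma exists_isPr {A B : Submodule κ V} (h : IsCompl A B) : ∃ P, IsPr P A B :=
  ⟨A.projection B h, h, fun _ hy => Submodule.projection_apply_of_mem_left h hy,
    fun _ hy => (Submodule.projection_apply_eq_zero_iff h).2 hy⟩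

lemma IsPr.mem {P : V →ₗ[κ] V} {A B : Submodule κ V} (h : IsPr P A B) (y : V) : P y ∈ A := by
  obtain ⟨a, ha, b, hb, rfl⟩ := cpl_decomp h.cpl y
  rw [map_add, h.one a ha, h.zero b hb, add_zero]; exact ha

lemma IsPr.sub_mem {P : V →ₗ[κ] V} {A B : Submodule κ V} (h : IsPr P A B) (y : V) :
    y - P y ∈ B := by
  obtain ⟨a, ha, b, hb, rfl⟩ := cpl_decomp h.cpl y
  rw [map_add, h.one a ha, h.zero b hb, add_zero]; simpa using hb

lemma IsPr.idem {P : V →ₗ[κ] V} {A B : Submodule κ V} (h : IsPr P A B) : Idem P :=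
  fun y => h.one _ (h.mem y)

lemma IsPr.comm {P g : V →ₗ[κ] V} {A B : Submodule κ V} (h : IsPr P A B) (gA : Pres g A)
    (gB : Pres g B) : Comm g P := by
  intro y
  obtain ⟨a, ha, b, hb, rfl⟩ := cpl_decomp h.cpl y
  simp only [map_add, h.one a ha, h.zero b hb, h.one _ (gA a ha), h.zero _ (gB b hb), map_zero]

lemma Idem.eig {π : V →ₗ[κ] V} (h : Idem π) {y : V} {c : κ} (hy : π y = c • y) :
    π y = y ∨ π y = 0 := by
  have := h y
  rw [hy, map_smul, hy, smul_smul, ← sub_eq_zero, ← sub_smul, smul_eq_zero] at this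
  rcases this with h1 | h1
  · have : c = 1 ∨ c = 0 := by
      rcases eq_or_ne c 0 with h | h
      · exact Or.inr h
      · left; exact mul_left_cancel₀ h (by linear_combination h1)
    rcases this with rfl | rfl
    · left; simpa using hy
    · right; simpa using hy
  · left; simp [h1]

lemma Idem.compl {π : V →ₗ[κ] V} (h : Idem π) : Idem (LinearMap.id - π) := by
  intro y; simp [h y]

lemma Pres.compl {π : V →ₗ[κ] V} {G : Submodule κ V} (h : Pres π G) :
    Pres (LinearMap.id - π) G := fun y hy => by simpa using G.sub_mem hy (h y hy)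

lemma Pres.of_compl {π : V →ₗ[κ] V} {G : Submodule κ V} (h : Pres (LinearMap.id - π) G) :
    Pres π G := fun y hy => by simpa using G.sub_mem hy (h y hy)

lemma Pres.comp {g h : V →ₗ[κ] V} {G : Submodule κ V} (hg : Pres g G) (hh : Pres h G) :
    Pres (g ∘ₗ h) G := fun y hy => hg _ (hh y hy)

lemma exists_dual {A E : Submodule κ V} {y : V} (h : y ∉ A ⊔ E) :
    ∃ φ : V →ₗ[κ] κ, φ y = 1 ∧ Kills φ A ∧ Kills φ E := by
  obtain ⟨f, hf, hf'⟩ := Submodule.exists_dual_map_eq_bot_of_notMem h inferInstance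
  have hk : ∀ x ∈ A ⊔ E, f x = 0 := fun x hx => by
    have : f x ∈ (A ⊔ E).map f := Submodule.mem_map_of_mem hx
    rwa [hf', Submodule.mem_bot] at this
  refine ⟨(f y)⁻¹ • f, by simp [hf], fun x hx => ?_, fun x hx => ?_⟩
  · simp [hk x (Submodule.mem_sup_left hx)]
  · simp [hk x (Submodule.mem_sup_right hx)]

end Pool.Agent.MP_122b1e_ag

end

section

set_option autoImplicit false

namespace Pool.Agent.MP_122b1e_ag

variable {κ V : Type} [Field κ] [AddCommGroup V] [Module κ V]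

abbrev Fl (κ V : Type) [Field κ] [AddCommGroup V] [Module κ V] : Type := ℕ → Submodule κ V

/-- A flag `F` and an opposite flag `E` in general position. -/
structure Pair (k : ℕ) (E F : Fl κ V) : Prop where
  bot : F 0 = ⊥
  top : ∀ r, k ≤ r → F r = ⊤
  covF : ∀ r, r < k → Cov (F r) (F (r + 1))
  covE : ∀ r, r < k → Cov (E (r + 1)) (E r)
  cpl : ∀ r, IsCompl (F r) (E r)

namespace Pair
variable {k : ℕ} {E F : Fl κ V}

lemma disj (h : Pair k E F) (r : ℕ) : Disjoint (F r) (E r) := (h.cpl r).disjoint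

lemma zero (h : Pair k E F) {r : ℕ} {y : V} (h1 : y ∈ F r) (h2 : y ∈ E r) : y = 0 :=
  disj_zero (h.disj r) h1 h2

lemma botE (h : Pair k E F) {r : ℕ} (hr : k ≤ r) : E r = ⊥ := by
  refine eq_bot_iff.2 fun y hy => ?_
  exact h.zero (by rw [h.top r hr]; trivial) hy

lemma topE (h : Pair k E F) : E 0 = ⊤ := by
  have := (h.cpl 0).sup_eq_top
  rwa [h.bot, bot_sup_eq] at this

lemma monoF (h : Pair k E F) {r r' : ℕ} (hr : r ≤ r') : F r ≤ F r' := by
  refine monotone_nat_of_le_succ (f := F) (fun n => ?_) hr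
  by_cases hn : n < k
  · exact (h.covF n hn).le
  · rw [h.top (n + 1) (by omega)]; exact le_top

lemma antiE (h : Pair k E F) {r r' : ℕ} (hr : r ≤ r') : E r' ≤ E r := by
  refine antitone_nat_of_succ_le (f := E) (fun n => ?_) hr
  by_cases hn : n < k
  · exact (h.covE n hn).le
  · rw [h.botE (r := n + 1) (by omega)]; exact bot_le

lemma ind (h : Pair k E F) (G : Submodule κ V)
    (hG : ∀ r, r < k → ∀ y ∈ F (r + 1), y ∈ E r → y ∈ G) (y : V) : y ∈ G := by
  have : ∀ r, r ≤ k → F r ≤ G := by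
    intro r
    induction r with
    | zero => intro _; rw [h.bot]; exact bot_le
    | succ r ih =>
      intro hr y hy
      obtain ⟨a, ha, b, hb, rfl⟩ := cpl_decomp (h.cpl r) y
      refine G.add_mem (ih (by omega) ha) (hG r (by omega) b ?_ hb)
      simpa using (F (r + 1)).sub_mem hy (h.monoF (Nat.le_succ r) ha)
  exact this k le_rfl (by rw [h.top k le_rfl]; trivial)

lemma ext (h : Pair k E F) {W : Type} [AddCommGroup W] [Module κ W] {g g' : V →ₗ[κ] W}
    (hg : ∀ r, r < k → ∀ y ∈ F (r + 1), y ∈ E r → g y = g' y) (y : V) : g y = g' y :=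
  h.ind (LinearMap.eqLocus g g') hg y

lemma eig (h : Pair k E F) {g : V →ₗ[κ] V} (gE : PresF g E) (gF : PresF g F) {r : ℕ}
    (hr : r < k) {y : V} (h1 : y ∈ F (r + 1)) (h2 : y ∈ E r) : ∃ c : κ, g y = c • y := by
  by_cases h0 : y = 0
  · exact ⟨0, by simp [h0]⟩
  · exact (h.covF r hr).on_line (h.disj r) h1 h2 h0 (gF _ _ h1) (gE _ _ h2)

lemma comm (h : Pair k E F) {g g' : V →ₗ[κ] V} (gE : PresF g E) (gF : PresF g F)
    (gE' : PresF g' E) (gF' : PresF g' F) : Comm g g' := by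
  intro y
  refine h.ext (g := g ∘ₗ g') (g' := g' ∘ₗ g) (fun r hr y h1 h2 => ?_) y
  obtain ⟨c, hc⟩ := h.eig gE gF hr h1 h2
  obtain ⟨c', hc'⟩ := h.eig gE' gF' hr h1 h2
  simp only [LinearMap.comp_apply, hc, hc', map_smul, smul_smul, mul_comm]

lemma prF (h : Pair k E F) {P : V →ₗ[κ] V} {r : ℕ} (hP : IsPr P (F r) (E r)) : PresF P F := by
  intro r' y hy
  rcases le_total r' r with hr | hr
  · rw [hP.one y (h.monoF hr hy)]; exact hy
  · exact h.monoF hr (hP.mem y)

lemma prE (h : Pair k E F) {P : V →ₗ[κ] V} {r : ℕ} (hP : IsPr P (F r) (E r)) : PresF P E := by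
  intro r' y hy
  rcases le_total r' r with hr | hr
  · simpa using (E r').sub_mem hy (h.antiE hr (hP.sub_mem y))
  · rw [hP.zero y (h.antiE hr hy)]; exact (E r').zero_mem

lemma nonSepF (h : Pair k E F) {g : V →ₗ[κ] V} (gE : PresF g E) (gF : PresF g F) (q : ℕ) :
    NonSep g (F q) (F (q + 2)) ↔ Scalar g (F (q + 2)) (E q) :=
  nonSep_iff (h.cpl q) (h.monoF (by omega)) (gF q) (gE q)

lemma nonSepE (h : Pair k E F) {g : V →ₗ[κ] V} (gE : PresF g E) (gF : PresF g F) (q : ℕ) :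
    NonSep g (E (q + 2)) (E q) ↔ Scalar g (F (q + 2)) (E q) := by
  rw [nonSep_iff (h.cpl (q + 2)).symm (h.antiE (by omega)) (gE _) (gF _)]
  exact ⟨Scalar.symm, Scalar.symm⟩

lemma pr_sep (h : Pair k E F) {P : V →ₗ[κ] V} {q : ℕ} (hq : q + 1 < k)
    (hP : IsPr P (F (q + 1)) (E (q + 1))) : ¬ Scalar P (F (q + 2)) (E q) := by
  rintro ⟨c, hc⟩
  obtain ⟨y, h1, h2, h0⟩ := (h.covF q (by omega)).exists_line (h.cpl q)
  obtain ⟨y', h1', h2', h0'⟩ := (h.covF (q + 1) hq).exists_line (h.cpl (q + 1))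
  have e1 := hc y (h.monoF (by omega) h1) h2
  have e2 := hc y' h1' (h.antiE (by omega) h2')
  rw [hP.one y h1] at e1
  rw [hP.zero y' h2', eq_comm, smul_eq_zero] at e2
  rcases e2 with rfl | e2
  · exact h0 (by simpa using e1)
  · exact h0' e2

end Pair

/-- Transport of a flag along a linear equivalence. -/
def cm (e : V ≃ₗ[κ] V) (F : Fl κ V) : Fl κ V := fun r => (F r).comap (e : V →ₗ[κ] V)

lemma mem_cm {e : V ≃ₗ[κ] V} {F : Fl κ V} {r : ℕ} {y : V} : y ∈ cm e F r ↔ e y ∈ F r := Iff.rfl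

lemma Cov.comap {A B : Submodule κ V} (h : Cov A B) (e : V ≃ₗ[κ] V) :
    Cov (A.comap (e : V →ₗ[κ] V)) (B.comap (e : V →ₗ[κ] V)) := by
  refine ⟨Submodule.comap_mono h.le, ?_, ?_⟩
  · obtain ⟨y, h1, h2⟩ := h.ex
    exact ⟨e.symm y, by simpa using h1, by simpa using h2⟩
  · intro y h1 h2 x hx
    obtain ⟨c, hc⟩ := h.line (e y) h1 h2 (e x) hx
    exact ⟨c, by simpa using hc⟩

lemma disjoint_comap {A B : Submodule κ V} (e : V ≃ₗ[κ] V) :
    Disjoint (A.comap (e : V →ₗ[κ] V)) (B.comap (e : V →ₗ[κ] V)) ↔ Disjoint A B := by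
  simp only [Submodule.disjoint_def]
  constructor
  · intro h y h1 h2
    have := h (e.symm y) (by simpa using h1) (by simpa using h2)
    simpa using this
  · intro h y h1 h2
    simpa using h (e y) h1 h2

lemma isCompl_comap {A B : Submodule κ V} (h : IsCompl A B) (e : V ≃ₗ[κ] V) :
    IsCompl (A.comap (e : V →ₗ[κ] V)) (B.comap (e : V →ₗ[κ] V)) := by
  refine ⟨(disjoint_comap e).2 h.disjoint, codisjoint_iff.2 (eq_top_iff.2 fun x _ => ?_)⟩
  obtain ⟨a, ha, b, hb, hab⟩ := cpl_decomp h (e x)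
  refine Submodule.mem_sup.2 ⟨e.symm a, by simpa using ha, e.symm b, by simpa using hb, ?_⟩
  rw [← map_add, hab, e.symm_apply_apply]

lemma Pair.cm {k : ℕ} {E F : Fl κ V} (h : Pair k E F) (e : V ≃ₗ[κ] V) :
    Pair k (cm e E) (cm e F) where
  bot := by
    simp only [Pool.Agent.MP_122b1e_ag.cm, h.bot, Submodule.comap_bot, LinearEquiv.ker]
  top r hr := by simp only [Pool.Agent.MP_122b1e_ag.cm, h.top r hr, Submodule.comap_top]
  covF r hr := (h.covF r hr).comap e
  covE r hr := (h.covE r hr).comap e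
  cpl r := isCompl_comap (h.cpl r) e

/-- One crossing at level `q + 1`. -/
structure Step (k q : ℕ) (E F E' F' : Fl κ V) : Prop where
  a : Pair k E F
  b : Pair k E' F'
  lt : q + 1 < k
  adjF : ∀ r, r ≠ q + 1 → F' r = F r
  adjE : ∀ r, r ≠ q + 1 → E' r = E r
  ntr : ¬ Disjoint (F (q + 1)) (E' (q + 1))

def NZ (q : ℕ) (E F' : Fl κ V) : Prop := Disjoint (F' (q + 1)) (E (q + 1))

lemma NZ.cm {q : ℕ} {E F' : Fl κ V} (e : V ≃ₗ[κ] V) : NZ q (cm e E) (cm e F') ↔ NZ q E F' :=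
  disjoint_comap e

lemma presF_adj {q : ℕ} {F F' : Fl κ V} (h : ∀ r, r ≠ q + 1 → F' r = F r) {g : V →ₗ[κ] V}
    (gF : PresF g F) (g1 : Pres g (F' (q + 1))) : PresF g F' := by
  intro r
  by_cases hr : r = q + 1
  · rw [hr]; exact g1
  · rw [h r hr]; exact gF r

/-- A flag adjacent to `F` and not transverse to `E` is preserved. -/
lemma Pair.presF_ntr {k q : ℕ} {E F F' : Fl κ V} (h : Pair k E F) (hq : q + 1 < k)
    (adj : ∀ r, r ≠ q + 1 → F' r = F r) (c1 : Cov (F' q) (F' (q + 1)))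
    (c2 : F' (q + 1) ≤ F' (q + 2)) (hn : ¬ Disjoint (F' (q + 1)) (E (q + 1)))
    {g : V →ₗ[κ] V} (gE : PresF g E) (gF : PresF g F) : PresF g F' := by
  rw [adj q (by omega)] at c1
  rw [adj (q + 2) (by omega)] at c2
  exact presF_adj adj gF (pres_ntr c1 (h.covF (q + 1) hq) (h.monoF (by omega)) c2 (h.disj _) hn
    (gF _) (gF _) (gE _))

lemma Pair.presE_ntr {k q : ℕ} {E F E' : Fl κ V} (h : Pair k E F) (hq : q + 1 < k)
    (adj : ∀ r, r ≠ q + 1 → E' r = E r) (c1 : Cov (E' (q + 2)) (E' (q + 1)))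
    (c2 : E' (q + 1) ≤ E' q) (hn : ¬ Disjoint (F (q + 1)) (E' (q + 1)))
    {g : V →ₗ[κ] V} (gE : PresF g E) (gF : PresF g F) : PresF g E' := by
  rw [adj (q + 2) (by omega)] at c1
  rw [adj q (by omega)] at c2
  exact presF_adj adj gE (pres_ntr c1 (h.covE q (by omega)) (h.antiE (by omega)) c2
    (h.disj _).symm (fun e => hn e.symm) (gE _) (gE _) (gF _))

namespace Step
variable {k q : ℕ} {E F E' F' : Fl κ V}

lemma cm (h : Step k q E F E' F') (e : V ≃ₗ[κ] V) :
    Step k q (cm e E) (cm e F) (cm e E') (cm e F') where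
  a := h.a.cm e
  b := h.b.cm e
  lt := h.lt
  adjF r hr := by simp only [Pool.Agent.MP_122b1e_ag.cm, h.adjF r hr]
  adjE r hr := by simp only [Pool.Agent.MP_122b1e_ag.cm, h.adjE r hr]
  ntr := fun H => h.ntr ((disjoint_comap e).1 H)

lemma fwdE (h : Step k q E F E' F') {g : V →ₗ[κ] V} (gE : PresF g E) (gF : PresF g F) :
    PresF g E' :=
  h.a.presE_ntr h.lt h.adjE (h.b.covE _ h.lt) (h.b.antiE (by omega)) h.ntr gE gF

lemma bwdF (h : Step k q E F E' F') {g : V →ₗ[κ] V} (gE : PresF g E') (gF : PresF g F') :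
    PresF g F :=
  h.b.presF_ntr h.lt (fun r hr => (h.adjF r hr).symm) (h.a.covF _ (by have := h.lt; omega))
    (h.a.monoF (by omega)) h.ntr gE gF

lemma fwdF (h : Step k q E F E' F') (hz : ¬ NZ q E F') {g : V →ₗ[κ] V} (gE : PresF g E)
    (gF : PresF g F) : PresF g F' :=
  h.a.presF_ntr h.lt h.adjF (h.b.covF _ (by have := h.lt; omega)) (h.b.monoF (by omega)) hz gE gF

lemma bwdE (h : Step k q E F E' F') (hz : ¬ NZ q E F') {g : V →ₗ[κ] V} (gE : PresF g E')
    (gF : PresF g F') : PresF g E :=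
  h.b.presE_ntr h.lt (fun r hr => (h.adjE r hr).symm) (h.a.covE _ h.lt) (h.a.antiE (by omega))
    hz gE gF

lemma pairNZ (h : Step k q E F E' F') (hz : NZ q E F') : Pair k E F' where
  bot := h.b.bot
  top := h.b.top
  covF := h.b.covF
  covE := h.a.covE
  cpl r := by
    by_cases hr : r = q + 1
    · subst hr
      have c1 := h.b.covF q (by have := h.lt; omega)
      rw [h.adjF q (by omega)] at c1
      exact isCompl_of_disj c1 (h.a.covE q (by have := h.lt; omega)) (h.a.cpl q) hz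
    · rw [h.adjF r hr]; exact h.a.cpl r

lemma neF (h : Step k q E F E' F') : ¬ F (q + 1) ≤ F' (q + 1) :=
  fun H => h.ntr ((h.b.disj _).mono_left H)

lemma neE (h : Step k q E F E' F') : ¬ E' (q + 1) ≤ E (q + 1) :=
  fun H => h.ntr ((h.a.disj _).mono_right H)

lemma cov1 (h : Step k q E F E' F') : Cov (F q) (F' (q + 1)) := by
  have c1 := h.b.covF q (by have := h.lt; omega)
  rwa [h.adjF q (by omega)] at c1

lemma cov2 (h : Step k q E F E' F') : Cov (F' (q + 1)) (F (q + 2)) := by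
  have c1 := h.b.covF (q + 1) h.lt
  rwa [h.adjF (q + 1 + 1) (by omega)] at c1

lemma cov3 (h : Step k q E F E' F') : Cov (E (q + 2)) (E' (q + 1)) := by
  have c1 := h.b.covE (q + 1) h.lt
  rwa [h.adjE (q + 1 + 1) (by omega)] at c1

lemma cov4 (h : Step k q E F E' F') : Cov (E' (q + 1)) (E q) := by
  have c1 := h.b.covE q (by have := h.lt; omega)
  rwa [h.adjE q (by omega)] at c1

/-- Separated crossing: commuting endomorphisms preserve the old flag. -/
lemma lemma1 (h : Step k q E F E' F') {g g' : V →ₗ[κ] V} (gF : PresF g F) (gF' : PresF g F')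
    (hs : ¬ NonSep g (F q) (F (q + 2))) (hc : Comm g g') (hF : PresF g' F') :
    Pres g' (F (q + 1)) := by
  refine pres_of_comm (h.a.covF q (by have := h.lt; omega)) h.cov1 h.cov2 (h.a.monoF (by omega))
    h.neF (gF _) (gF _) (gF' _) hs hc ?_ ?_
  · rw [← h.adjF q (by omega)]; exact hF _
  · rw [← h.adjF (q + 2) (by omega)]; exact hF _

end Step

end Pool.Agent.MP_122b1e_ag

end

section

set_option autoImplicit false

namespace Pool.Agent.MP_122b1e_ag

variable {κ V : Type} [Field κ] [AddCommGroup V] [Module κ V]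

structure Chain (k l : ℕ) (p : ℕ → ℕ) (E F : ℕ → Fl κ V) : Prop where
  pair : ∀ t, t ≤ l → Pair k (E t) (F t)
  step : ∀ t, t < l → Step k (p t) (E t) (F t) (E (t + 1)) (F (t + 1))
  fin : Pair k (E 0) (F l)

/-- Idempotents preserving every flag of the chain. -/
structure Alg (l : ℕ) (E F : ℕ → Fl κ V) (π : V →ₗ[κ] V) : Prop where
  idem : Idem π
  pE : ∀ t, t ≤ l → PresF π (E t)
  pF : ∀ t, t ≤ l → PresF π (F t)

section
variable {k l : ℕ} {p : ℕ → ℕ} {E F : ℕ → Fl κ V}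

lemma Alg.comm (h : Chain k l p E F) {π π' : V →ₗ[κ] V} (a : Alg l E F π) (b : Alg l E F π') :
    Comm π π' :=
  h.fin.comm (a.pE 0 (by omega)) (a.pF l le_rfl) (b.pE 0 (by omega)) (b.pF l le_rfl)

lemma Alg.comp (h : Chain k l p E F) {π π' : V →ₗ[κ] V} (a : Alg l E F π) (b : Alg l E F π') :
    Alg l E F (π ∘ₗ π') where
  idem y := by
    simp only [LinearMap.comp_apply]
    rw [← a.comm h b, a.idem, b.idem]
  pE t ht r := (a.pE t ht r).comp (b.pE t ht r)
  pF t ht r := (a.pF t ht r).comp (b.pF t ht r)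

lemma Alg.compl {π : V →ₗ[κ] V} (a : Alg l E F π) : Alg l E F (LinearMap.id - π) where
  idem := a.idem.compl
  pE t ht r := (a.pE t ht r).compl
  pF t ht r := (a.pF t ht r).compl

lemma alg_id : Alg l E F (LinearMap.id : V →ₗ[κ] V) :=
  ⟨fun _ => rfl, fun _ _ _ _ h => h, fun _ _ _ _ h => h⟩

/-- `θ` is the atom of the algebra containing `v`. -/
structure Atom (l : ℕ) (E F : ℕ → Fl κ V) (θ : V →ₗ[κ] V) (v : V) : Prop where
  alg : Alg l E F θ
  fix : θ v = v
  one : ∀ π, Alg l E F π → π v = v → ∀ y, θ y = y → π y = y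

lemma Atom.zero {θ : V →ₗ[κ] V} {v : V} (a : Atom l E F θ v) {π : V →ₗ[κ] V}
    (hπ : Alg l E F π) (hv : π v = 0) {y : V} (hy : θ y = y) : π y = 0 := by
  have := a.one _ hπ.compl (by simp [hv]) y hy
  simpa using this

lemma exists_atom [FiniteDimensional κ V] (h : Chain k l p E F) (v : V) :
    ∃ θ, Atom l E F θ v := by
  obtain ⟨G, hG⟩ := exists_minimal_of_wellFoundedLT
    (fun G : Submodule κ V => ∃ θ, Alg l E F θ ∧ θ v = v ∧ G = LinearMap.range θ)
    ⟨_, LinearMap.id, alg_id, rfl, rfl⟩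
  obtain ⟨θ, h1, h2, rfl⟩ := hG.prop
  refine ⟨θ, h1, h2, fun π hπ hv y hy => ?_⟩
  have hle : LinearMap.range (π ∘ₗ θ) ≤ LinearMap.range θ := by
    rintro _ ⟨x, rfl⟩
    exact ⟨π x, by simp only [LinearMap.comp_apply]; exact h1.comm h hπ x⟩
  have := hG.le_of_le ⟨π ∘ₗ θ, hπ.comp h h1, by simp [h2, hv], rfl⟩ hle
  obtain ⟨x, hx⟩ := this ⟨y, hy⟩
  rw [← hx]
  exact hπ.idem _

end

/-- Two levels that agree on the image of `θ`. -/
def Same (θ : V →ₗ[κ] V) (A B A' B' : Submodule κ V) : Prop :=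
  ∀ y, θ y = y → (y ∈ A ↔ y ∈ A') ∧ (y ∈ B ↔ y ∈ B')

lemma Same.refl (θ : V →ₗ[κ] V) (A B : Submodule κ V) : Same θ A B A B :=
  fun _ _ => ⟨Iff.rfl, Iff.rfl⟩

lemma Same.symm {θ : V →ₗ[κ] V} {A B A' B' : Submodule κ V} (h : Same θ A B A' B') :
    Same θ A' B' A B := fun y hy => ⟨(h y hy).1.symm, (h y hy).2.symm⟩

lemma Same.trans {θ : V →ₗ[κ] V} {A B A' B' A'' B'' : Submodule κ V} (h : Same θ A B A' B')
    (h' : Same θ A' B' A'' B'') : Same θ A B A'' B'' :=
  fun y hy => ⟨(h y hy).1.trans (h' y hy).1, (h y hy).2.trans (h' y hy).2⟩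

def Fixes (θ : V →ₗ[κ] V) (C C' : Submodule κ V) : Prop := ∀ y ∈ C, y ∈ C' → θ y = y

lemma Cov.fix_mem {A B : Submodule κ V} (h : Cov A B) {θ : V →ₗ[κ] V} (hA : Pres θ A) {x y : V}
    (hx : x ∈ B) (hx' : x ∉ A) (h0 : θ x = 0) (hy : y ∈ B) (hy' : θ y = y) : y ∈ A := by
  obtain ⟨c, hc⟩ := h.line x hx hx' y hy
  have := hA _ hc
  rwa [map_sub, map_smul, h0, smul_zero, sub_zero, hy'] at this

lemma Pair.shift {k q : ℕ} {E F : Fl κ V} (h : Pair k E F) (hq : q + 1 < k) {θ : V →ₗ[κ] V}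
    (hi : Idem θ) (gE : PresF θ E) (gF : PresF θ F) (hn : ¬ Fixes θ (F (q + 2)) (E q)) :
    ∃ r, r ≠ q + 1 ∧ Same θ (F (q + 1)) (E (q + 1)) (F r) (E r) := by
  obtain ⟨x, h1, h2, h0⟩ := (h.covF q (by omega)).exists_line (h.cpl q)
  obtain ⟨x', h1', h2', h0'⟩ := (h.covF (q + 1) hq).exists_line (h.cpl (q + 1))
  obtain ⟨c, hc⟩ := h.eig gE gF (by omega) h1 h2
  obtain ⟨c', hc'⟩ := h.eig gE gF hq h1' h2'
  rcases hi.eig hc with e | e
  · rcases hi.eig hc' with e' | e'
    · refine absurd (fun y hy hy' => ?_) hn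
      obtain ⟨a, ha, b, hb, rfl⟩ := cpl_decomp (h.cpl (q + 1)) y
      have ha' : a ∈ E q := by simpa using (E q).sub_mem hy' (h.antiE (by omega) hb)
      have hb' : b ∈ F (q + 2) := by simpa using (F (q + 2)).sub_mem hy (h.monoF (by omega) ha)
      obtain ⟨d, rfl⟩ := (h.covF q (by omega)).on_line (h.disj q) h1 h2 h0 ha ha'
      obtain ⟨d', rfl⟩ := (h.covF (q + 1) hq).on_line (h.disj _) h1' h2' h0' hb' hb
      simp [e, e']
    · refine ⟨q + 2, by omega, fun y hy => ⟨⟨fun H => h.monoF (by omega) H, fun H => ?_⟩,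
        ⟨fun H => ?_, fun H => h.antiE (by omega) H⟩⟩⟩
      · exact (h.covF (q + 1) hq).fix_mem (gF _) h1' (fun H' => h0' (h.zero H' h2')) e' H hy
      · exact (h.covE (q + 1) hq).fix_mem (gE _) h2' (fun H' => h0' (h.zero h1' H')) e' H hy
  · refine ⟨q, by omega, fun y hy => ⟨⟨fun H => ?_, fun H => h.monoF (by omega) H⟩,
        ⟨fun H => h.antiE (by omega) H, fun H => ?_⟩⟩⟩
    · exact (h.covF q (by omega)).fix_mem (gF _) h1 (fun H' => h0 (h.zero H' h2)) e H hy
    · exact (h.covE q (by omega)).fix_mem (gE _) h2 (fun H' => h0 (h.zero h1 H')) e H hy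

lemma Step.shift {k q : ℕ} {E F E' F' : Fl κ V} (h : Step k q E F E' F') {θ : V →ₗ[κ] V}
    (hi : Idem θ) (gE : PresF θ E) (gF : PresF θ F) (hn : ¬ Fixes θ (F (q + 2)) (E q)) (r : ℕ) :
    ∃ r', Same θ (F r) (E r) (F' r') (E' r') := by
  by_cases hr : r = q + 1
  · obtain ⟨r', h1, h2⟩ := h.a.shift h.lt hi gE gF hn
    exact ⟨r', by rw [hr, h.adjF r' h1, h.adjE r' h1]; exact h2⟩
  · exact ⟨r, by rw [h.adjF r hr, h.adjE r hr]; exact Same.refl _ _ _⟩

lemma Step.shift' {k q : ℕ} {E F E' F' : Fl κ V} (h : Step k q E F E' F') {θ : V →ₗ[κ] V}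
    (hi : Idem θ) (gE : PresF θ E') (gF : PresF θ F') (hn : ¬ Fixes θ (F (q + 2)) (E q))
    (r : ℕ) : ∃ r', Same θ (F r') (E r') (F' r) (E' r) := by
  by_cases hr : r = q + 1
  · rw [← h.adjF (q + 2) (by omega), ← h.adjE q (by omega)] at hn
    obtain ⟨r', h1, h2⟩ := h.b.shift h.lt hi gE gF hn
    exact ⟨r', by rw [hr, ← h.adjF r' h1, ← h.adjE r' h1]; exact h2.symm⟩
  · exact ⟨r, by rw [h.adjF r hr, h.adjE r hr]; exact Same.refl _ _ _⟩

section
variable {k l : ℕ} {p : ℕ → ℕ} {E F : ℕ → Fl κ V}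

/-- A level common to all times gives an idempotent of the algebra. -/
lemma alg_of_same (h : Chain k l p E F) {θ P : V →ₗ[κ] V} (a : Alg l E F θ) {j r : ℕ}
    (hj : j ≤ l) (hP : IsPr P (F j r) (E j r))
    (hs : ∀ s, s ≤ l → ∃ r', Same θ (F j r) (E j r) (F s r') (E s r')) : Alg l E F (P ∘ₗ θ) := by
  have hc : Comm θ P := hP.comm (a.pF j hj r) (a.pE j hj r)
  have key : ∀ s, s ≤ l → ∃ r' P', IsPr P' (F s r') (E s r') ∧ ∀ y, P (θ y) = P' (θ y) := by
    intro s hsl
    obtain ⟨r', hr'⟩ := hs s hsl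
    obtain ⟨P', hP'⟩ := exists_isPr ((h.pair s hsl).cpl r')
    refine ⟨r', P', hP', fun y => ?_⟩
    have e1 : θ (P (θ y)) = P (θ y) := by rw [hc, a.idem]
    have e2 : θ (θ y - P (θ y)) = θ y - P (θ y) := by rw [map_sub, a.idem, e1]
    have t1 := hP'.one _ ((hr' _ e1).1.1 (hP.mem _))
    have t2 := hP'.zero _ ((hr' _ e2).2.1 (hP.sub_mem _))
    rw [map_sub, t1] at t2
    exact (sub_eq_zero.1 t2).symm
  refine ⟨fun y => ?_, fun s hsl r' y hy => ?_, fun s hsl r' y hy => ?_⟩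
  · simp only [LinearMap.comp_apply]
    rw [hc, a.idem, hP.idem]
  · obtain ⟨r'', P', hP', e⟩ := key s hsl
    rw [LinearMap.comp_apply, e]
    exact (h.pair s hsl).prE hP' _ _ (a.pE s hsl _ _ hy)
  · obtain ⟨r'', P', hP', e⟩ := key s hsl
    rw [LinearMap.comp_apply, e]
    exact (h.pair s hsl).prF hP' _ _ (a.pF s hsl _ _ hy)

/-- Levels can be transported across an initial range without internal crossings. -/
lemma same_init (h : Chain k l p E F) {θ : V →ₗ[κ] V} (a : Alg l E F θ) {j : ℕ} (hj : j ≤ l)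
    (hn : ∀ s, s < j → ¬ Fixes θ (F s (p s + 2)) (E s (p s))) (s : ℕ) (hs : s ≤ j) :
    (∀ r, ∃ r', Same θ (F s r) (E s r) (F j r') (E j r')) ∧
    (∀ r', ∃ r, Same θ (F s r) (E s r) (F j r') (E j r')) := by
  induction hs using Nat.decreasingInduction with
  | self => exact ⟨fun r => ⟨r, Same.refl _ _ _⟩, fun r => ⟨r, Same.refl _ _ _⟩⟩
  | of_succ s hs ih =>
    have st := h.step s (by omega)
    constructor
    · intro r
      obtain ⟨r1, h1⟩ := st.shift a.idem (a.pE s (by omega)) (a.pF s (by omega)) (hn s hs) r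
      obtain ⟨r2, h2⟩ := ih.1 r1
      exact ⟨r2, h1.trans h2⟩
    · intro r
      obtain ⟨r1, h1⟩ := ih.2 r
      obtain ⟨r2, h2⟩ := st.shift' a.idem (a.pE (s + 1) (by omega)) (a.pF (s + 1) (by omega))
        (hn s hs) r1
      exact ⟨r2, h2.trans h1⟩

lemma decomp_fix {A B : Submodule κ V} (hc : IsCompl A B) {θ : V →ₗ[κ] V} (hi : Idem θ)
    (hA : Pres θ A) (hB : Pres θ B) {y : V} (hy : θ y = y) :
    ∃ a ∈ A, ∃ b ∈ B, θ a = a ∧ θ b = b ∧ a + b = y := by
  obtain ⟨a, ha, b, hb, hab⟩ := cpl_decomp hc y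
  exact ⟨θ a, hA a ha, θ b, hB b hb, hi a, hi b, by rw [← map_add, hab, hy]⟩

/-- The atom of `α` lies in every later level containing `α`. -/
lemma atom_top (h : Chain k l p E F) {θ : V →ₗ[κ] V} {α : V} (a : Atom l E F θ α) {j q : ℕ}
    (hj : j ≤ l) (hq : q < k) (h1 : α ∈ F j (q + 1)) (h2 : α ∈ E j q) (h0 : α ≠ 0)
    (hn : ∀ s, s < j → ¬ Fixes θ (F s (p s + 2)) (E s (p s)))
    (hL : ∀ s, j ≤ s → s < l → Fixes θ (F s (p s + 2)) (E s (p s)) → α ∈ F s (p s + 1) →
      α ∈ F s (p s)) :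
    ∀ s, j ≤ s → s ≤ l → ∀ r, α ∈ F s r → ∀ y, θ y = y → y ∈ F s r := by
  let G : ℕ → V → Prop := fun s y => θ y = y ∧ ∀ r, α ∈ F s r → y ∈ F s r
  have mono1 : ∀ s, j ≤ s → s < l → ∀ y, G (s + 1) y → G s y := by
    intro s hs hs' y hy
    have st := h.step s hs'
    refine ⟨hy.1, fun r hr => ?_⟩
    by_cases e : r = p s + 1
    · subst e
      by_cases hf : Fixes θ (F s (p s + 2)) (E s (p s))
      · have := hL s hs hs' hf hr
        rw [← st.adjF _ (by omega)] at this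
        have := hy.2 _ this
        rw [st.adjF _ (by omega)] at this
        exact st.a.monoF (by omega) this
      · obtain ⟨r', e1, e2⟩ := st.a.shift st.lt a.alg.idem (a.alg.pE s hs'.le) (a.alg.pF s hs'.le)
          hf
        have := (e2 α a.fix).1.1 hr
        rw [← st.adjF _ e1] at this
        have := hy.2 _ this
        rw [st.adjF _ e1] at this
        exact (e2 y hy.1).1.2 this
    · rw [← st.adjF r e] at hr ⊢
      exact hy.2 r hr
  have mono : ∀ s s', j ≤ s → s ≤ s' → s' ≤ l → ∀ y, G s' y → G s y := by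
    intro s s' hs hss'
    induction hss' with
    | refl => exact fun _ _ h => h
    | @step n hn ih =>
      exact fun hl y hy => ih (by omega) y (mono1 n (hs.trans hn) (by omega) y hy)
  have pj := h.pair j hj
  have Gj : ∀ y, G j y ↔ θ y = y ∧ y ∈ F j (q + 1) := by
    intro y
    refine ⟨fun H => ⟨H.1, H.2 _ h1⟩, fun H => ⟨H.1, fun r hr => ?_⟩⟩
    refine pj.monoF ?_ H.2
    by_contra hlt
    exact h0 (pj.zero (pj.monoF (by omega) hr) h2)
  have fin : ∀ y, G j y → G l y := by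
    intro y hy
    obtain ⟨r₀, e⟩ := (same_init h a.alg hj hn 0 (by omega)).2 q
    have hα : α ∉ F l r₀ := fun H => h0 (h.fin.zero H ((e α a.fix).2.2 h2))
    obtain ⟨x, hx, b, hb, fx, fb, rfl⟩ := decomp_fix (h.fin.cpl r₀) a.alg.idem
      (a.alg.pF l le_rfl r₀) (a.alg.pE 0 (by omega) r₀) hy.1
    have gx : G l x := ⟨fx, fun r hr => h.fin.monoF (by
      by_contra hlt
      exact hα (h.fin.monoF (by omega) hr)) hx⟩
    have gx' := ((Gj x).1 (mono j l le_rfl hj le_rfl x gx)).2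
    have hb' : b ∈ F j (q + 1) := by
      simpa using (F j (q + 1)).sub_mem ((Gj _).1 hy).2 gx'
    obtain ⟨c, rfl⟩ := (pj.covF q hq).on_line (pj.disj q) h1 h2 h0 hb' ((e b fb).2.1 hb)
    exact ⟨hy.1, fun r hr => (F l r).add_mem (gx.2 r hr) ((F l r).smul_mem c hr)⟩
  have lev : ∀ s, j ≤ s → s ≤ l →
      ∃ r', Same θ (F j (q + 1)) (E j (q + 1)) (F s r') (E s r') := by
    intro s hs
    induction hs with
    | refl => exact fun _ => ⟨q + 1, Same.refl _ _ _⟩
    | @step s hs ih =>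
      intro hsl
      have hs' : s < l := hsl
      obtain ⟨r, e⟩ := ih hs'.le
      have st := h.step s hs'
      by_cases hf : Fixes θ (F s (p s + 2)) (E s (p s))
      · refine ⟨r, ?_⟩
        have hr : r ≠ p s + 1 := by
          rintro rfl
          have t1 := hL s hs hs' hf ((e α a.fix).1.1 h1)
          obtain ⟨x, x1, x2, x0⟩ := (st.a.covF (p s) (by have := st.lt; omega)).exists_line
            (st.a.cpl (p s))
          have fx := hf x (st.a.monoF (by omega) x1) x2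
          have gx := mono s l hs hs'.le le_rfl x (fin x ((Gj x).2 ⟨fx, (e x fx).1.2 x1⟩))
          exact x0 (st.a.zero (gx.2 _ t1) x2)
        rw [st.adjF r hr, st.adjE r hr]; exact e
      · obtain ⟨r', e'⟩ := st.shift a.alg.idem (a.alg.pE s hs'.le) (a.alg.pF s hs'.le) hf r
        exact ⟨r', e.trans e'⟩
  obtain ⟨P, hP⟩ := exists_isPr (pj.cpl (q + 1))
  have aP := alg_of_same h a.alg hj hP (fun s hs => by
    rcases le_total j s with e | e
    · exact lev s e hs
    · obtain ⟨r, e'⟩ := (same_init h a.alg hj hn s e).2 (q + 1)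
      exact ⟨r, e'.symm⟩)
  intro s hs hsl r hr y hy
  have t := a.one _ aP (by simp [a.fix, hP.one α h1]) y hy
  rw [LinearMap.comp_apply, hy] at t
  exact (mono s l hs hsl le_rfl y (fin y ((Gj y).2 ⟨hy, t ▸ hP.mem y⟩))).2 r hr

/-- The atom of `β'` meets trivially every later level killed by `β`. -/
lemma atom_bot (h : Chain k l p E F) {θ : V →ₗ[κ] V} {b : V} {β : V →ₗ[κ] κ}
    (a : Atom l E F θ b) {j q : ℕ}
    (hj : j ≤ l) (hq : q < k) (h1 : b ∈ F j (q + 1)) (h2 : b ∈ E j q) (h0 : β b = 1)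
    (k1 : Kills β (F j q)) (k2 : Kills β (E j (q + 1))) (hθ : ∀ y, β (θ y) = β y)
    (hn : ∀ s, s < j → ¬ Fixes θ (F s (p s + 2)) (E s (p s)))
    (hL : ∀ s, j ≤ s → s < l → Fixes θ (F s (p s + 2)) (E s (p s)) →
      Kills β (F s (p s + 1)) → Kills β (F s (p s + 2))) :
    ∀ s, j ≤ s → s ≤ l → ∀ r, Kills β (F s r) → ∀ y, θ y = y → y ∈ F s r → y = 0 := by
  let G : ℕ → V → Prop := fun s y => θ y = y ∧ ∃ r, Kills β (F s r) ∧ y ∈ F s r
  have ks : ∀ {A A' : Submodule κ V}, Pres θ A' → (∀ y, θ y = y → y ∈ A' → y ∈ A) → Kills β A →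
      Kills β A' := by
    intro A A' hp hs hk y hy
    rw [← hθ]
    exact hk _ (hs _ (a.alg.idem y) (hp y hy))
  have mono1 : ∀ s, j ≤ s → s < l → ∀ y, G s y → G (s + 1) y := by
    rintro s hs hs' y ⟨fy, r, kr, hr⟩
    have st := h.step s hs'
    refine ⟨fy, ?_⟩
    by_cases e : r = p s + 1
    · subst e
      by_cases hf : Fixes θ (F s (p s + 2)) (E s (p s))
      · refine ⟨p s + 2, ?_⟩
        rw [st.adjF _ (by omega)]
        exact ⟨hL s hs hs' hf kr, st.a.monoF (by omega) hr⟩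
      · obtain ⟨r', e1, e2⟩ := st.a.shift st.lt a.alg.idem (a.alg.pE s hs'.le) (a.alg.pF s hs'.le)
          hf
        refine ⟨r', ?_⟩
        rw [st.adjF _ e1]
        exact ⟨ks (a.alg.pF s hs'.le r') (fun x fx => (e2 x fx).1.2) kr, (e2 y fy).1.1 hr⟩
    · exact ⟨r, by rw [st.adjF r e]; exact ⟨kr, hr⟩⟩
  have mono : ∀ s s', j ≤ s → s ≤ s' → s' ≤ l → ∀ y, G s y → G s' y := by
    intro s s' hs hss'
    induction hss' with
    | refl => exact fun _ _ h => h
    | @step n hn ih =>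
      exact fun hl y hy => mono1 n (hs.trans hn) (by omega) y (ih (by omega) y hy)
  have pj := h.pair j hj
  have nk : ¬ Kills β (F j (q + 1)) := fun H => by
    have := H b h1
    rw [h0] at this
    exact one_ne_zero this
  have fin : ∀ y, G l y → y ∈ F j q := by
    obtain ⟨r₀, e⟩ := (same_init h a.alg hj hn 0 (by omega)).2 (q + 1)
    have kE : Kills β (E 0 r₀) := ks (a.alg.pE 0 (by omega) r₀) (fun x fx => (e x fx).2.1) k2
    have nF : ¬ Kills β (F l r₀) := fun H => by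
      obtain ⟨x, hx, x', hx', e'⟩ := cpl_decomp (h.fin.cpl r₀) b
      rw [← e', map_add, H x hx, kE x' hx', add_zero] at h0
      exact zero_ne_one h0
    have inF : ∀ y, G l y → y ∈ F l r₀ := by
      rintro y ⟨_, r, kr, hr⟩
      refine h.fin.monoF ?_ hr
      by_contra hlt
      exact nF fun x hx => kr x (h.fin.monoF (by omega) hx)
    intro y hy
    obtain ⟨x, hx, x', hx', fx, fx', rfl⟩ := decomp_fix (pj.cpl (q + 1)) a.alg.idem
      (a.alg.pF j hj _) (a.alg.pE j hj _) hy.1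
    have hβ : β x = 0 := by
      obtain ⟨_, r, kr, hr⟩ := hy
      have := kr _ hr
      rwa [map_add, k2 x' hx', add_zero] at this
    have hx1 : x ∈ F j q := (pj.covF q hq).mem_of_kills k1 nk hx hβ
    have hx2 := inF x (mono j l le_rfl hj le_rfl x ⟨fx, q, k1, hx1⟩)
    have hx3 : x' ∈ F l r₀ := by simpa using (F l r₀).sub_mem (inF _ hy) hx2
    rw [h.fin.zero hx3 ((e x' fx').2.2 hx'), add_zero]
    exact hx1
  have lev : ∀ s, j ≤ s → s ≤ l → ∃ r', Same θ (F j q) (E j q) (F s r') (E s r') := by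
    intro s hs
    induction hs with
    | refl => exact fun _ => ⟨q, Same.refl _ _ _⟩
    | @step s hs ih =>
      intro hsl
      have hs' : s < l := hsl
      obtain ⟨r, e⟩ := ih hs'.le
      have st := h.step s hs'
      by_cases hf : Fixes θ (F s (p s + 2)) (E s (p s))
      · refine ⟨r, ?_⟩
        have hr : r ≠ p s + 1 := by
          rintro rfl
          have t1 := hL s hs hs' hf (ks (a.alg.pF s hs'.le _) (fun x fx => (e x fx).1.2) k1)
          obtain ⟨x, x1, x2, x0⟩ := (st.a.covF (p s + 1) st.lt).exists_line (st.a.cpl (p s + 1))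
          have fx := hf x x1 (st.a.antiE (by omega) x2)
          have gx := fin x (mono s l hs hs'.le le_rfl x ⟨fx, _, t1, x1⟩)
          exact x0 (st.a.zero ((e x fx).1.1 gx) x2)
        rw [st.adjF r hr, st.adjE r hr]; exact e
      · obtain ⟨r', e'⟩ := st.shift a.alg.idem (a.alg.pE s hs'.le) (a.alg.pF s hs'.le) hf r
        exact ⟨r', e.trans e'⟩
  obtain ⟨P, hP⟩ := exists_isPr (pj.cpl q)
  have aP := alg_of_same h a.alg hj hP (fun s hs => by
    rcases le_total j s with e | e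
    · exact lev s e hs
    · obtain ⟨r, e'⟩ := (same_init h a.alg hj hn s e).2 q
      exact ⟨r, e'.symm⟩)
  intro s hs hsl r hr y hy hy'
  have t := a.zero aP (by simp [a.fix, hP.zero b h2]) hy
  rw [LinearMap.comp_apply, hy, hP.one y (fin y (mono s l hs hsl le_rfl y ⟨hy, r, hr, hy'⟩))] at t
  exact t

end

end Pool.Agent.MP_122b1e_ag

end

section

set_option autoImplicit false

namespace Pool.Agent.MP_122b1e_ag

variable {κ V : Type} [Field κ] [AddCommGroup V] [Module κ V]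

def SU (α : V) (β : V →ₗ[κ] κ) (F : Fl κ V) : Prop := ∀ r, α ∈ F r ∨ Kills β (F (r + 1))

def SL (b : V) (a : V →ₗ[κ] κ) (E : Fl κ V) : Prop := ∀ r, b ∈ E (r + 1) ∨ Kills a (E r)

lemma dual_zero {A E₁ E₂ : Submodule κ V} (hc : IsCompl A E₁) (hv : Cov E₂ E₁) {b : V}
    (hb : b ∈ E₁) (hb' : b ∉ E₂) {φ : V →ₗ[κ] κ} (k1 : Kills φ A) (k2 : Kills φ E₂)
    (k3 : φ b = 0) (y : V) : φ y = 0 := by
  obtain ⟨x, hx, e, he, rfl⟩ := cpl_decomp hc y
  rw [map_add, k1 x hx, hv.kills k2 hb hb' k3 e he, add_zero]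

variable {k l : ℕ} {p : ℕ → ℕ} {E F : ℕ → Fl κ V}

lemma Alg.eig (h : Chain k l p E F) {π : V →ₗ[κ] V} (a : Alg l E F π) {j r : ℕ} (hj : j ≤ l)
    (hr : r < k) {v : V} (h1 : v ∈ F j (r + 1)) (h2 : v ∈ E j r) : π v = v ∨ π v = 0 := by
  obtain ⟨c, hc⟩ := (h.pair j hj).eig (a.pE j hj) (a.pF j hj) hr h1 h2
  exact a.idem.eig hc

lemma Atom.scalar {θ π : V →ₗ[κ] V} {v : V} (a : Atom l E F θ v) (hπ : Alg l E F π)
    (hv : π v = v ∨ π v = 0) {C C' : Submodule κ V} (hf : Fixes θ C C') : Scalar π C C' := by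
  rcases hv with hv | hv
  · exact ⟨1, fun y h1 h2 => by rw [a.one π hπ hv y (hf y h1 h2), one_smul]⟩
  · exact ⟨0, fun y h1 h2 => by rw [a.zero hπ hv (hf y h1 h2), zero_smul]⟩

lemma noAB [FiniteDimensional κ V] (h : Chain k l p E F) {j q : ℕ} (hj : j ≤ l) (hq : q + 1 < k)
    {α b : V} {a β : V →ₗ[κ] κ}
    (α1 : α ∈ F j (q + 1)) (α2 : α ∈ E j q) (aα : a α = 1)
    (b1 : b ∈ F j (q + 2)) (b2 : b ∈ E j (q + 1)) (βb : β b = 1)
    (k1 : Kills β (F j (q + 1))) (k2 : Kills β (E j (q + 2)))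
    (su : ∀ s, j ≤ s → s ≤ l → SU α β (F s)) (sl : ∀ s, s ≤ j → SL b a (E s))
    (hz : ∀ s, s < j → ¬ NZ (p s) (E s) (F (s + 1)))
    (L4a : ∀ s, j ≤ s → s < l → NZ (p s) (E s) (F (s + 1)) → α ∈ F s (p s + 1) →
      α ∈ F s (p s))
    (L4b : ∀ s, j ≤ s → s < l → NZ (p s) (E s) (F (s + 1)) → Kills β (F s (p s + 1)) →
      Kills β (F s (p s + 2)))
    (IH : ∀ s, s < l → ¬ NZ (p s) (E s) (F (s + 1)) →
      ∃ π, Alg l E F π ∧ ¬ Scalar π (F s (p s + 2)) (E s (p s)))
    {π₀ : V →ₗ[κ] V} (a₀ : Alg l E F π₀) (π1 : π₀ α = α) (π2 : π₀ b = 0)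
    {s : ℕ} (hs : s < l) (hzs : ¬ NZ (p s) (E s) (F (s + 1))) :
    ∃ π, Alg l E F π ∧ ¬ Scalar π (F s (p s + 2)) (E s (p s)) ∧
      ((π α = α ∧ π b = b) ∨ (π α = 0 ∧ π b = 0)) := by
  have pj := h.pair j hj
  have α0 : α ≠ 0 := by rintro rfl; simp at aα
  have b0 : b ≠ 0 := by rintro rfl; simp at βb
  obtain ⟨θ, A⟩ := exists_atom h α
  obtain ⟨η, B⟩ := exists_atom h b
  have eα : ∀ π, Alg l E F π → π α = α ∨ π α = 0 := fun π hπ =>
    hπ.eig h hj (by omega) α1 α2
  have eb : ∀ π, Alg l E F π → π b = b ∨ π b = 0 := fun π hπ => hπ.eig h hj hq b1 b2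
  have nzA : ∀ t, t < l → Fixes θ (F t (p t + 2)) (E t (p t)) → NZ (p t) (E t) (F (t + 1)) := by
    intro t ht hf
    by_contra hn
    obtain ⟨π, h1, h2⟩ := IH t ht hn
    exact h2 (A.scalar h1 (eα π h1) hf)
  have nzB : ∀ t, t < l → Fixes η (F t (p t + 2)) (E t (p t)) → NZ (p t) (E t) (F (t + 1)) := by
    intro t ht hf
    by_contra hn
    obtain ⟨π, h1, h2⟩ := IH t ht hn
    exact h2 (B.scalar h1 (eb π h1) hf)
  have nA : ∀ t, t < j → ¬ Fixes θ (F t (p t + 2)) (E t (p t)) :=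
    fun t ht hf => hz t ht (nzA t (by omega) hf)
  have nB : ∀ t, t < j → ¬ Fixes η (F t (p t + 2)) (E t (p t)) :=
    fun t ht hf => hz t ht (nzB t (by omega) hf)
  have hη : ∀ y, β (η y) = β y := by
    intro y
    have := dual_zero (pj.cpl (q + 1)) (pj.covE (q + 1) hq) b2 (fun H => b0 (pj.zero b1 H))
      (φ := β ∘ₗ η - β) (fun x hx => by simp [k1 x hx, k1 _ (B.alg.pF j hj _ x hx)])
      (fun x hx => by simp [k2 x hx, k2 _ (B.alg.pE j hj _ x hx)]) (by simp [B.fix]) y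
    simpa [sub_eq_zero] using this
  have TA := atom_top h A hj (by omega) α1 α2 α0 nA
    (fun t h1 h2 hf => L4a t h1 h2 (nzA t h2 hf))
  have TB := atom_bot h B hj hq b1 b2 βb k1 k2 hη nB
    (fun t h1 h2 hf => L4b t h1 h2 (nzB t h2 hf))
  have toE : ∀ {ζ : V →ₗ[κ] V}, Alg l E F ζ → ∀ t, t ≤ l → ∀ r,
      (∀ y, ζ y = y → y ∈ F t r → y = 0) → ∀ y, ζ y = y → y ∈ E t r := by
    intro ζ hζ t ht r H y hy
    obtain ⟨x, hx, e, he, fx, _, rfl⟩ := decomp_fix ((h.pair t ht).cpl r) hζ.idem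
      (hζ.pF t ht r) (hζ.pE t ht r) hy
    rw [H x fx hx, zero_add]; exact he
  have toF : ∀ {ζ : V →ₗ[κ] V}, Alg l E F ζ → ∀ t, t ≤ l → ∀ r,
      (∀ y, ζ y = y → y ∈ E t r → y = 0) → ∀ y, ζ y = y → y ∈ F t r := by
    intro ζ hζ t ht r H y hy
    obtain ⟨x, hx, e, he, _, fe, rfl⟩ := decomp_fix ((h.pair t ht).cpl r) hζ.idem
      (hζ.pF t ht r) (hζ.pE t ht r) hy
    rw [H e fe he, add_zero]; exact hx
  have AB : ∀ t, t ≤ l → ∃ r, (∀ y, θ y = y → y ∈ F t r) ∧ (∀ y, η y = y → y ∈ E t r) := by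
    intro t ht
    have pt := h.pair t ht
    rcases le_total j t with e | e
    · classical
      have ex : ∃ r, α ∈ F t r := ⟨k, by rw [pt.top k le_rfl]; trivial⟩
      have h1 := Nat.find_spec ex
      have h2 : Nat.find ex ≠ 0 := by
        intro e0; rw [e0, pt.bot] at h1; exact α0 h1
      obtain ⟨r, hr⟩ := Nat.exists_eq_succ_of_ne_zero h2
      have h3 : α ∉ F t r := Nat.find_min ex (by omega)
      rw [hr] at h1
      exact ⟨r + 1, TA t e ht _ h1,
        toE B.alg t ht _ (TB t e ht _ ((su t e ht r).resolve_left h3))⟩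
    · classical
      have ex : ∃ r, Kills a (E t r) := ⟨k, by
        rw [pt.botE le_rfl]; intro y hy; rw [(Submodule.mem_bot κ).1 hy, map_zero]⟩
      have h1 := Nat.find_spec ex
      have h2 : Nat.find ex ≠ 0 := by
        intro e0; rw [e0, pt.topE] at h1
        have := h1 α trivial
        rw [aα] at this
        exact one_ne_zero this
      obtain ⟨r, hr⟩ := Nat.exists_eq_succ_of_ne_zero h2
      have h3 : ¬ Kills a (E t r) := Nat.find_min ex (by omega)
      rw [hr] at h1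
      have h4 := (sl t e r).resolve_right h3
      refine ⟨r + 1, ?_, ?_⟩
      · obtain ⟨r', e'⟩ := (same_init h A.alg hj nA t e).1 (r + 1)
        have : q + 1 ≤ r' := by
          by_contra hlt
          have := h1 α ((e' α A.fix).2.2 (pj.antiE (by omega) α2))
          rw [aα] at this
          exact one_ne_zero this
        intro y hy
        exact (e' y hy).1.2 (pj.monoF this (TA j le_rfl hj _ α1 y hy))
      · obtain ⟨r', e'⟩ := (same_init h B.alg hj nB t e).1 (r + 1)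
        have : r' ≤ q + 1 := by
          by_contra hlt
          exact b0 (pj.zero (pj.monoF (by omega) b1) ((e' b B.fix).2.1 h4))
        intro y hy
        exact (e' y hy).2.2 (pj.antiE this (toE B.alg j hj _ (TB j le_rfl hj _ k1) y hy))
  have st := h.step s hs
  have cross : (∀ y ∈ F s (p s + 2), y ∈ E s (p s) → θ y = 0) ∨
      (∀ y ∈ F s (p s + 2), y ∈ E s (p s) → η y = 0) := by
    by_contra hn
    push Not at hn
    obtain ⟨⟨x, x1, x2, x0⟩, ⟨y, y1, y2, y0⟩⟩ := hn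
    have x1' := A.alg.pF s hs.le _ x x1
    have x2' := A.alg.pE s hs.le _ x x2
    have y1' := B.alg.pF s hs.le _ y y1
    have y2' := B.alg.pE s hs.le _ y y2
    have key : ∀ t, t ≤ l → F t (p s + 2) = F s (p s + 2) → E t (p s) = E s (p s) →
        θ x ∈ F t (p s + 1) := by
      intro t ht e1 e2
      obtain ⟨r, r1, r2⟩ := AB t ht
      have pt := h.pair t ht
      refine pt.monoF ?_ (r1 _ (A.alg.idem x))
      by_contra hlt
      refine y0 (pt.zero (r := r) (pt.monoF (r := p s + 2) (by omega) ?_) (r2 _ (B.alg.idem y)))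
      rw [e1]; exact y1'
    have t1 := key s hs.le rfl rfl
    have t2 := key (s + 1) hs (st.adjF _ (by omega)) (st.adjE _ (by omega))
    exact st.neF ((st.a.covF (p s) (by have := st.lt; omega)).le_of_mem st.cov1.le t1 t2
      (fun H => x0 (st.a.zero H x2')))
  have θb : θ b = 0 := by
    rcases eb θ A.alg with e | e
    · have := A.one π₀ a₀ π1 b e
      rw [π2] at this
      exact absurd this.symm b0
    · exact e
  have ηα : η α = 0 := by
    rcases eα η B.alg with e | e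
    · have := B.zero a₀ π2 e
      rw [π1] at this
      exact absurd this α0
    · exact e
  have main : ∀ π, Alg l E F π → ¬ Scalar π (F s (p s + 2)) (E s (p s)) → π α = α → π b = 0 →
      ∃ π, Alg l E F π ∧ ¬ Scalar π (F s (p s + 2)) (E s (p s)) ∧
      ((π α = α ∧ π b = b) ∨ (π α = 0 ∧ π b = 0)) := by
    intro π h1 h2 h3 h4
    rcases cross with c | c
    · refine ⟨π ∘ₗ (LinearMap.id - θ), h1.comp h A.alg.compl, ?_, Or.inr ⟨?_, ?_⟩⟩
      · rintro ⟨d, hd⟩
        exact h2 ⟨d, fun y y1 y2 => by simpa [c y y1 y2] using hd y y1 y2⟩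
      · simp [A.fix]
      · simp [θb, h4]
    · refine ⟨LinearMap.id - (LinearMap.id - π) ∘ₗ (LinearMap.id - η),
        (h1.compl.comp h B.alg.compl).compl, ?_, Or.inl ⟨?_, ?_⟩⟩
      · rintro ⟨d, hd⟩
        exact h2 ⟨d, fun y y1 y2 => by simpa [c y y1 y2] using hd y y1 y2⟩
      · simp [ηα, h3]
      · simp [B.fix]
  obtain ⟨π, h1, h2⟩ := IH s hs hzs
  rcases eα π h1 with e1 | e1 <;> rcases eb π h1 with e2 | e2
  · exact ⟨π, h1, h2, Or.inl ⟨e1, e2⟩⟩
  · exact main π h1 h2 e1 e2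
  · refine main _ h1.compl ?_ (by simp [e1]) (by simp [e2])
    rintro ⟨d, hd⟩
    refine h2 ⟨1 - d, fun y y1 y2 => ?_⟩
    have := hd y y1 y2
    simp only [LinearMap.sub_apply, LinearMap.id_coe, id_eq] at this
    rw [sub_smul, one_smul, ← this]; abel
  · exact ⟨π, h1, h2, Or.inr ⟨e1, e2⟩⟩

end Pool.Agent.MP_122b1e_ag

end

section

set_option autoImplicit false

namespace Pool.Agent.MP_122b1e_ag

variable {κ V : Type} [Field κ] [AddCommGroup V] [Module κ V]

/-- The transvection `y ↦ y + β(y) α`. -/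
def tv (α : V) (β : V →ₗ[κ] κ) (h : β α = 0) : V ≃ₗ[κ] V :=
  LinearEquiv.ofLinear (LinearMap.id + β.smulRight α) (LinearMap.id - β.smulRight α)
    (by ext y; simp [h]) (by ext y; simp [h])

lemma tv_apply (α : V) (β : V →ₗ[κ] κ) (h : β α = 0) (y : V) : tv α β h y = y + β y • α := rfl

lemma mem_tv {α : V} {β : V →ₗ[κ] κ} {h : β α = 0} {G : Submodule κ V} {y : V} :
    y ∈ G.comap (tv α β h : V →ₗ[κ] V) ↔ y + β y • α ∈ G := Iff.rfl

lemma tv_fix {α : V} {β : V →ₗ[κ] κ} (h : β α = 0) {G : Submodule κ V}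
    (hG : α ∈ G ∨ Kills β G) : G.comap (tv α β h : V →ₗ[κ] V) = G := by
  ext y
  rw [mem_tv]
  rcases hG with hG | hG
  · exact ⟨fun H => by simpa using G.sub_mem H (G.smul_mem (β y) hG),
      fun H => G.add_mem H (G.smul_mem _ hG)⟩
  · constructor
    · intro H
      have := hG _ H
      rw [map_add, map_smul, h, smul_zero, add_zero] at this
      simpa [this] using H
    · intro H; simpa [hG y H] using H

lemma tv_move {α b : V} {β : V →ₗ[κ] κ} (h : β α = 0) (hb : β b = 1) {A B B' : Submodule κ V}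
    (c : Cov A B) (c' : Cov A B') (k : Kills β A) (h1 : b ∈ B) (h2 : α + b ∈ B') :
    B'.comap (tv α β h : V →ₗ[κ] V) = B := by
  ext y
  rw [mem_tv]
  constructor
  · intro H
    obtain ⟨d, hd⟩ := c'.line _ h2 (fun H' => by simpa [h, hb] using k _ H') _ H
    have e := k _ hd
    simp only [map_sub, map_add, map_smul, h, hb, smul_eq_mul, mul_zero, add_zero, zero_add,
      mul_one, sub_eq_zero] at e
    rw [e] at hd
    refine mem_of_sub_smul (c := d) (c.le ?_) h1
    convert hd using 1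
    rw [smul_add]; abel
  · intro H
    obtain ⟨d, hd⟩ := c.line _ h1 (fun H' => by simpa [hb] using k _ H') _ H
    have e := k _ hd
    simp only [map_sub, map_smul, hb, smul_eq_mul, mul_one, sub_eq_zero] at e
    rw [e]
    refine mem_of_sub_smul (c := d) (c'.le ?_) h2
    convert hd using 1
    rw [smul_add]; abel

lemma SU.fix {k : ℕ} {E F : Fl κ V} (hp : Pair k E F) {α : V} {β : V →ₗ[κ] κ} (h : β α = 0)
    (su : SU α β F) : cm (tv α β h) F = F := by
  funext r
  refine tv_fix h ?_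
  rcases r with _ | r
  · right; rw [hp.bot]; intro y hy; rw [(Submodule.mem_bot κ).1 hy, map_zero]
  · exact (su r).imp (fun H => hp.monoF (by omega) H) id

lemma SL.fix {k : ℕ} {E F : Fl κ V} (hp : Pair k E F) {b : V} {a : V →ₗ[κ] κ} (h : a b = 0)
    (sl : SL b a E) : cm (tv b a h) E = E := by
  funext r
  exact tv_fix h ((sl r).imp (fun H => hp.antiE (by omega) H) id)

lemma Step.su {k q : ℕ} {E F E' F' : Fl κ V} (h : Step k q E F E' F') {α : V} {β : V →ₗ[κ] κ}
    (su : SU α β F) (hn : ¬ SU α β F') :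
    α ∈ F (q + 1) ∧ α ∉ F q ∧ Kills β (F (q + 1)) ∧ ¬ Kills β (F (q + 2)) := by
  unfold SU at hn
  push Not at hn
  obtain ⟨r, h1, h2⟩ := hn
  have key : α ∉ F q ∧ ¬ Kills β (F (q + 2)) := by
    by_cases e : r = q + 1
    · subst e
      rw [h.adjF _ (by omega)] at h2
      exact ⟨fun H => h1 (h.cov1.le H), h2⟩
    · by_cases e' : r = q
      · subst e'
        rw [h.adjF _ (by omega)] at h1
        exact ⟨h1, fun H => h2 fun y hy => H y (h.cov2.le hy)⟩
      · rw [h.adjF _ (by omega)] at h1 h2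
        exact absurd (su r) (by tauto)
  exact ⟨(su (q + 1)).resolve_right key.2, key.1, (su q).resolve_left key.1, key.2⟩

lemma Step.sl {k q : ℕ} {E F E' F' : Fl κ V} (h : Step k q E F E' F') {b : V} {a : V →ₗ[κ] κ}
    (sl : SL b a E') (hn : ¬ SL b a E) :
    b ∈ E' (q + 1) ∧ b ∉ E (q + 2) ∧ Kills a (E' (q + 1)) ∧ ¬ Kills a (E q) := by
  unfold SL at hn
  push Not at hn
  obtain ⟨r, h1, h2⟩ := hn
  have key : b ∉ E (q + 2) ∧ ¬ Kills a (E q) := by
    by_cases e : r = q + 1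
    · subst e
      exact ⟨h1, fun H => h2 fun y hy => H y (h.a.antiE (by omega) hy)⟩
    · by_cases e' : r = q
      · subst e'
        exact ⟨fun H => h1 (h.a.antiE (by omega) H), h2⟩
      · rw [← h.adjE _ (by omega)] at h1 h2
        exact absurd (sl r) (by tauto)
  have s1 := sl q
  have s2 := sl (q + 1)
  rw [h.adjE q (by omega)] at s1
  rw [h.adjE (q + 1 + 1) (by omega)] at s2
  exact ⟨s1.resolve_right key.2, key.1, s2.resolve_left key.1, key.2⟩

lemma pres_tv_form {α : V} {β : V →ₗ[κ] κ} (h : β α = 0) {G : Submodule κ V} {π : V →ₗ[κ] V}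
    (hp : Pres π (G.comap (tv α β h : V →ₗ[κ] V))) :
    ∀ y ∈ G, ∃ y' ∈ G, π (y - β y • α) = y' - β y' • α := by
  intro y hy
  have := hp (y - β y • α) (by rw [mem_tv]; simpa [h] using hy)
  rw [mem_tv] at this
  exact ⟨_, this, by simp [h]⟩

/-- An endomorphism preserving `E`, `F` and the transvected `E` commutes with the transvection. -/
lemma eig_of_pres {k : ℕ} {E F : Fl κ V} (hp : Pair k E F) {α b : V} {β : V →ₗ[κ] κ}
    (h : β α = 0) (hb : β b = 1) (h0 : α ≠ 0) (su : SU α β F) {π : V →ₗ[κ] V} (pE : PresF π E)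
    (pF : PresF π F) (pE' : PresF π (cm (tv α β h) E)) :
    ∃ c : κ, π α = c • α ∧ ∀ y, β (π y) = c * β y := by
  have hp' := hp.cm (tv α β h)
  rw [su.fix hp h] at hp'
  have key : ∀ y, β y • π α = β (π y) • α := by
    intro y
    refine hp.ext (g := β.smulRight (π α)) (g' := (β ∘ₗ π).smulRight α) (fun r hr y h1 h2 => ?_) y
    simp only [LinearMap.smulRight_apply, LinearMap.comp_apply]
    obtain ⟨c, hc⟩ := hp.eig pE pF hr h1 h2
    have m1 : β y • α ∈ F r := by
      rcases su r with H | H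
      · exact (F r).smul_mem _ H
      · rw [H y h1, zero_smul]; exact (F r).zero_mem
    obtain ⟨c', hc'⟩ := hp'.eig pE' pF hr (y := y - β y • α)
      ((F (r + 1)).sub_mem h1 (hp.monoF (by omega) m1))
      (by rw [mem_cm, tv_apply]; simpa [h] using h2)
    rw [map_sub, hc, map_smul] at hc'
    have m2 := pF r _ m1
    rw [map_smul] at m2
    have m3 : (c - c') • y ∈ F r := by
      have := (F r).sub_mem m2 ((F r).smul_mem c' m1)
      convert this using 1
      rw [sub_smul, sub_eq_iff_eq_add.1 hc', smul_sub]; abel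
    by_cases hy : y ∈ F r
    · rw [hp.zero hy h2]; simp
    · have := sub_eq_zero.1 (mem_of_smul m3 hy)
      subst this
      rw [smul_sub, sub_right_inj] at hc'
      rw [hc', hc, map_smul, smul_smul, smul_eq_mul]
  refine ⟨β (π b), by simpa [hb] using key b, fun y => ?_⟩
  have e := key y
  have e' : π α = β (π b) • α := by simpa [hb] using key b
  rw [e', smul_smul] at e
  have := smul_left_injective κ h0 e
  rw [← this]; ring

variable {k : ℕ}

lemma Chain.back {l : ℕ} {p : ℕ → ℕ} {E F : ℕ → Fl κ V} (h : Chain k l p E F) {j : ℕ}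
    (hj : j ≤ l) (hz : ∀ s, s < j → ¬ NZ (p s) (E s) (F (s + 1))) {g : V →ₗ[κ] V}
    (gE : PresF g (E j)) (gF : PresF g (F j)) (s : ℕ) (hs : s ≤ j) :
    PresF g (E s) ∧ PresF g (F s) := by
  induction hs using Nat.decreasingInduction with
  | self => exact ⟨gE, gF⟩
  | of_succ s hs ih =>
    exact ⟨(h.step s (by omega)).bwdE (hz s hs) ih.1 ih.2, (h.step s (by omega)).bwdF ih.1 ih.2⟩

lemma Chain.forw {l : ℕ} {p : ℕ → ℕ} {E F : ℕ → Fl κ V} (h : Chain k l p E F) {j : ℕ}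
    {g : V →ₗ[κ] V} (gE : PresF g (E j)) (gF : ∀ s, j ≤ s → s ≤ l → PresF g (F s)) (s : ℕ)
    (hs : j ≤ s) : s ≤ l → PresF g (E s) := by
  induction hs with
  | refl => exact fun _ => gE
  | @step s hs ih =>
    exact fun hl => (h.step s hl).fwdE (ih (Nat.le_of_succ_le hl)) (gF s hs (Nat.le_of_succ_le hl))

def Bad (l : ℕ) (p : ℕ → ℕ) (E F : ℕ → Fl κ V) (t : ℕ) : Prop :=
  ∃ π : V →ₗ[κ] V, Idem π ∧ (∀ s, s ≤ t → PresF π (E s)) ∧
    (∀ s, t + 1 ≤ s → s ≤ l → PresF π (F s)) ∧ ¬ Pres π (F t (p t + 1))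

lemma all_zero {l : ℕ} {p : ℕ → ℕ} {E F : ℕ → Fl κ V} (h : Chain k l p E F)
    (hz : ∀ s, s < l → ¬ NZ (p s) (E s) (F (s + 1))) {s : ℕ} (hs : s < l) :
    ∃ π, Alg l E F π ∧ ¬ Scalar π (F s (p s + 2)) (E s (p s)) := by
  have ps := h.pair s hs.le
  obtain ⟨P, hP⟩ := exists_isPr (ps.cpl (p s + 1))
  have fw : ∀ t, s ≤ t → t ≤ l → PresF P (E t) ∧ PresF P (F t) := by
    intro t ht
    induction ht with
    | refl => exact fun _ => ⟨ps.prE hP, ps.prF hP⟩
    | @step t ht ih =>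
      intro hl
      have := ih (Nat.le_of_succ_le hl)
      exact ⟨(h.step t hl).fwdE this.1 this.2, (h.step t hl).fwdF (hz t hl) this.1 this.2⟩
  have all : ∀ t, t ≤ l → PresF P (E t) ∧ PresF P (F t) := by
    intro t ht
    rcases le_total s t with e | e
    · exact fw t e ht
    · exact h.back hs.le (fun t ht => hz t (by omega)) (ps.prE hP) (ps.prF hP) t e
  exact ⟨P, ⟨hP.idem, fun t ht => (all t ht).1, fun t ht => (all t ht).2⟩,
    ps.pr_sep (h.step s hs).lt hP⟩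

/-- Data attached to a nonzero bad crossing. -/
lemma bad_data {l : ℕ} {p : ℕ → ℕ} {E F : ℕ → Fl κ V} (h : Chain k l p E F) {j : ℕ} (hj : j < l)
    (nz : NZ (p j) (E j) (F (j + 1))) (bad : Bad l p E F j) :
    ∃ (α b : V) (a β : V →ₗ[κ] κ) (π : V →ₗ[κ] V),
      α ∈ F (j + 1) (p j + 1) ∧ α ∈ E j (p j) ∧ a α = 1 ∧ Kills a (F j (p j)) ∧
      Kills a (E j (p j + 1)) ∧ b ∈ F (j + 1) (p j + 2) ∧ b ∈ E j (p j + 1) ∧ β b = 1 ∧
      Kills β (F (j + 1) (p j + 1)) ∧ Kills β (E j (p j + 2)) ∧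
      α + b ∈ F j (p j + 1) ∧ α + b ∈ E (j + 1) (p j + 1) ∧
      Idem π ∧ (∀ s, s ≤ j → PresF π (E s)) ∧ (∀ s, j + 1 ≤ s → s ≤ l → PresF π (F s)) ∧
      π α = α ∧ π b = 0 ∧ (∀ y, β (π y) = 0) ∧ (∀ y, a (y - π y) = 0) := by
  have st := h.step j hj
  have hq := st.lt
  have pz := st.pairNZ nz
  obtain ⟨y, y1, y2, y0⟩ := not_disj st.ntr
  obtain ⟨α, α1, b, b2, rfl⟩ := cpl_decomp (pz.cpl (p j + 1)) y
  have α2 : α ∈ E j (p j) := by
    simpa using (E j (p j)).sub_mem (st.cov4.le y2) (pz.antiE (by omega) b2)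
  have b1 : b ∈ F (j + 1) (p j + 2) := by
    have := (F j (p j + 2)).sub_mem (st.a.monoF (by omega) y1) (st.cov2.le α1)
    rw [st.adjF _ (by omega)]
    simpa using this
  have α0 : α ≠ 0 := by
    rintro rfl
    exact y0 (st.a.zero y1 (by simpa using b2))
  have b0 : b ≠ 0 := by
    rintro rfl
    exact y0 (st.b.zero (by simpa using α1) y2)
  have nsup : ∀ r x, x ∈ F (j + 1) (r + 1) → x ∈ E j r → x ≠ 0 →
      x ∉ F (j + 1) r ⊔ E j (r + 1) := by
    intro r x x1 x2 x0 H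
    obtain ⟨u, hu, e, he, rfl⟩ := Submodule.mem_sup.1 H
    have : e = 0 := pz.zero (by
      simpa using (F (j + 1) (r + 1)).sub_mem x1 (pz.monoF (by omega) hu)) he
    subst this
    exact x0 (pz.zero (by simpa using hu) x2)
  obtain ⟨a, a1, a2, a3⟩ := exists_dual (nsup _ α α1 α2 α0)
  obtain ⟨β, β1, β2, β3⟩ := exists_dual (nsup _ b b1 b2 b0)
  have main : ∀ π : V →ₗ[κ] V, (∀ s, s ≤ j → PresF π (E s)) →
      (∀ s, j + 1 ≤ s → s ≤ l → PresF π (F s)) → π α = α → π b = 0 →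
      (∀ y, β (π y) = 0) ∧ (∀ y, a (y - π y) = 0) := by
    intro π pE pF e1 e2
    constructor
    · exact dual_zero (pz.cpl (p j + 1)) (pz.covE _ hq) b2 (fun H => b0 (pz.zero b1 H))
        (φ := β ∘ₗ π) (fun x hx => β2 _ (pF _ le_rfl hj _ x hx))
        (fun x hx => β3 _ (pE _ le_rfl _ x hx)) (by simp [e2])
    · exact dual_zero (pz.cpl (p j)) (pz.covE _ (by omega)) α2 (fun H => α0 (pz.zero α1 H))
        (φ := a ∘ₗ (LinearMap.id - π)) (fun x hx => a2 _ ((pF _ le_rfl hj _).compl x hx))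
        (fun x hx => a3 _ ((pE _ le_rfl _).compl x hx)) (by simp [e1])
  rw [st.adjF _ (by omega)] at a2
  obtain ⟨π, hi, pE, pF, hn⟩ := bad
  obtain ⟨c, hc⟩ := pz.eig (pE j le_rfl) (pF _ le_rfl hj) (by omega) α1 α2
  obtain ⟨c', hc'⟩ := pz.eig (pE j le_rfl) (pF _ le_rfl hj) hq b1 b2
  have np : π (α + b) ∉ F j (p j + 1) := by
    intro H
    refine hn ((st.a.covF (p j) (by omega)).pres ?_ y1 (fun H' => ?_) H)
    · rw [← st.adjF _ (by omega)]; exact pF _ le_rfl hj _
    · exact y0 (st.a.zero H' (st.cov4.le y2))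
  rcases hi.eig hc with e1 | e1 <;> rcases hi.eig hc' with e2 | e2
  · exact absurd (by rw [map_add, e1, e2]; exact y1) np
  · exact ⟨α, b, a, β, π, α1, α2, a1, a2, a3, b1, b2, β1, β2, β3, y1, y2, hi, pE, pF, e1, e2,
      main π pE pF e1 e2⟩
  · have pE' : ∀ s, s ≤ j → PresF (LinearMap.id - π) (E s) := fun s hs r => (pE s hs r).compl
    have pF' : ∀ s, j + 1 ≤ s → s ≤ l → PresF (LinearMap.id - π) (F s) :=
      fun s hs hs' r => (pF s hs hs' r).compl
    exact ⟨α, b, a, β, _, α1, α2, a1, a2, a3, b1, b2, β1, β2, β3, y1, y2, hi.compl, pE', pF',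
      by simp [e1], by simp [e2], main _ pE' pF' (by simp [e1]) (by simp [e2])⟩
  · exact absurd (by rw [map_add, e1, e2, add_zero]; exact Submodule.zero_mem _) np

end Pool.Agent.MP_122b1e_ag

end

section

set_option autoImplicit false

namespace Pool.Agent.MP_122b1e_ag

variable {κ V : Type} [Field κ] [AddCommGroup V] [Module κ V] {k : ℕ}

theorem cstar [FiniteDimensional κ V] (l : ℕ) : ∀ (p : ℕ → ℕ) (E F : ℕ → Fl κ V),
    Chain k l p E F → (∀ t, t < l → NZ (p t) (E t) (F (t + 1)) → Bad l p E F t) →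
    ∀ s, s < l → ¬ NZ (p s) (E s) (F (s + 1)) →
      ∃ π, Alg l E F π ∧ ¬ Scalar π (F s (p s + 2)) (E s (p s)) := by
  induction l with
  | zero => intro p E F _ _ s hs; omega
  | succ l ih =>
  intro p E F h hbad s hs hzs
  by_cases ex : ∃ j, j < l + 1 ∧ NZ (p j) (E j) (F (j + 1))
  swap
  · exact all_zero h (fun t ht H => ex ⟨t, ht, H⟩) hs
  classical
  obtain ⟨j, ⟨hj, nz⟩, hmin⟩ : ∃ j, (j < l + 1 ∧ NZ (p j) (E j) (F (j + 1))) ∧
      ∀ t, t < j → ¬ NZ (p t) (E t) (F (t + 1)) :=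
    ⟨Nat.find ex, Nat.find_spec ex, fun t ht H =>
      Nat.find_min ex ht ⟨by have := (Nat.find_spec ex).1; omega, H⟩⟩
  obtain ⟨α, b, a, β, π, α1, α2, aα, ka1, ka2, b1, b2, βb, kb1, kb2, y1, y2, hi, pE, pF, πα, πb,
    hβ, ha⟩ := bad_data h hj nz (hbad j hj nz)
  have st := h.step j hj
  have hq := st.lt
  have pz := st.pairNZ nz
  have βα : β α = 0 := kb1 α α1
  have ab : a b = 0 := ka2 b b2
  have α0 : α ≠ 0 := by rintro rfl; simp at aα
  set u := tv α β βα with hu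
  set v := tv b a ab with hv
  have juE : cm u (E (j + 1)) = E j := by
    funext r
    by_cases e : r = p j + 1
    · subst e
      exact tv_move βα βb (st.a.covE _ hq) st.cov3 kb2 b2 y2
    · simp only [cm, st.adjE r e]
      refine tv_fix βα ?_
      rcases Nat.lt_or_gt_of_ne e with e | e
      · exact Or.inl (pz.antiE (by omega) α2)
      · exact Or.inr fun y hy => kb2 y (pz.antiE (by omega) hy)
  have jvF : cm v (F j) = F (j + 1) := by
    funext r
    by_cases e : r = p j + 1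
    · subst e
      exact tv_move ab aα st.cov1 (st.a.covF _ (by omega)) ka1 α1 (by rwa [add_comm b α])
    · simp only [cm, ← st.adjF r e]
      refine tv_fix ab ?_
      rcases Nat.lt_or_gt_of_ne e with e | e
      · right
        intro y hy
        rw [st.adjF r (by omega)] at hy
        exact ka1 y (st.a.monoF (by omega) hy)
      · exact Or.inl (pz.monoF (by omega) b1)
  have cπ : ∀ t, t < l + 1 → ∀ π', (∀ s, s ≤ t → PresF π' (E s)) →
      (∀ s, t + 1 ≤ s → s ≤ l + 1 → PresF π' (F s)) → Comm π π' := fun t ht π' h1 h2 =>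
    h.fin.comm (pE 0 (by omega)) (pF _ hj le_rfl) (h1 0 (by omega)) (h2 _ ht le_rfl)
  have fw : ∀ t, j + 1 ≤ t → t ≤ l + 1 → SU α β (F t) ∧ PresF π (cm u (E t)) := by
    intro t ht
    induction ht with
    | refl =>
      intro _
      refine ⟨fun r => ?_, by rw [juE]; exact pE j le_rfl⟩
      rcases le_or_gt (p j + 1) r with e | e
      · exact Or.inl (pz.monoF e α1)
      · exact Or.inr fun y hy => kb1 y (pz.monoF (by omega) hy)
    | @step t ht ih' =>
      intro hl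
      have ht' : j + 1 ≤ t := ht
      have hl' : t < l + 1 := hl
      obtain ⟨su, pe⟩ := ih' hl'.le
      have s1 := h.step t hl'
      have fx : cm u (F t) = F t := su.fix s1.a βα
      refine ⟨?_, (s1.cm u).fwdE pe (by rw [fx]; exact pF t ht' hl'.le)⟩
      by_contra hn
      obtain ⟨t1, t2, t3, t4⟩ := s1.su su hn
      have nz' : NZ (p t) (E t) (F (t + 1)) :=
        disj_of_abs s1.cov1 (s1.a.covF _ s1.lt) (s1.a.monoF (by omega)) s1.cov2.le (s1.a.disj _)
          t1 t2 t3 t4 πα hβ (pF _ (by omega) hl _) (pF _ ht' hl'.le _) (pres_tv_form βα (pe _))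
      obtain ⟨π', _, qE, qF, qn⟩ := hbad t hl' nz'
      exact qn (s1.lemma1 (pF _ ht' hl'.le) (pF _ (by omega) hl)
        (sep_of_abs (s1.a.monoF (by omega) t1) t2 (fun y hy => t3 y (s1.a.monoF (by omega) hy))
          t4 πα hβ) (cπ t hl' π' qE qF) (qF _ le_rfl hl))
  have bw : ∀ t, t ≤ j → SL b a (E t) ∧ PresF π (cm v (F t)) := by
    intro t ht
    induction ht using Nat.decreasingInduction with
    | self =>
      refine ⟨fun r => ?_, by rw [jvF]; exact pF _ le_rfl hj⟩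
      rcases le_or_gt (p j + 1) r with e | e
      · exact Or.inr fun y hy => ka2 y (pz.antiE e hy)
      · exact Or.inl (pz.antiE (by omega) b2)
    | of_succ t ht ih' =>
      obtain ⟨sl, pf⟩ := ih'
      have s1 := h.step t (by omega)
      have fx : cm v (E (t + 1)) = E (t + 1) := sl.fix s1.b ab
      refine ⟨?_, (s1.cm v).bwdF (by rw [fx]; exact pE _ ht) pf⟩
      by_contra hn
      obtain ⟨t1, t2, t3, t4⟩ := s1.sl sl hn
      refine hmin t ht (Disjoint.symm ?_)
      exact disj_of_abs (π := LinearMap.id - π) (s1.a.covE _ s1.lt) s1.cov4 s1.cov3.le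
        (s1.a.antiE (by omega)) (s1.b.disj _).symm t1 t2 t3 t4 (by simp [πb]) ha
        (pE _ ht.le _).compl (pE _ ht.le _).compl (pres_tv_form ab (pf _).compl)
  let E' : ℕ → Fl κ V := fun t => if t ≤ j then E t else cm u (E (t + 1))
  let F' : ℕ → Fl κ V := fun t => if t < j then cm v (F t) else F (t + 1)
  let p' : ℕ → ℕ := fun t => if t < j then p t else p (t + 1)
  have E0 : ∀ t, t ≤ j → E' t = E t := fun t ht => if_pos ht
  have F0 : ∀ t, j ≤ t → F' t = F (t + 1) := fun t ht => if_neg (by omega)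
  have p1 : ∀ t, t < j → p' t = p t := fun t ht => if_pos ht
  have p2 : ∀ t, j ≤ t → p' t = p (t + 1) := fun t ht => if_neg (by omega)
  have E1 : ∀ t, t ≤ j → E' t = cm v (E t) := fun t ht => by
    rw [E0 t ht, (bw t ht).1.fix (h.pair t (by omega)) ab]
  have F1 : ∀ t, t ≤ j → F' t = cm v (F t) := fun t ht => by
    rcases Nat.lt_or_eq_of_le ht with e | e
    · exact if_pos e
    · rw [e, F0 j le_rfl, jvF]
  have E2 : ∀ t, j ≤ t → E' t = cm u (E (t + 1)) := fun t ht => by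
    rcases Nat.lt_or_eq_of_le ht with e | e
    · exact if_neg (by omega)
    · rw [← e, E0 j le_rfl, juE]
  have F2 : ∀ t, j ≤ t → t ≤ l → F' t = cm u (F (t + 1)) := fun t ht hl => by
    rw [F0 t ht, (fw (t + 1) (by omega) (by omega)).1.fix (h.pair _ (by omega)) βα]
  have h' : Chain k l p' E' F' := by
    refine ⟨fun t ht => ?_, fun t ht => ?_, ?_⟩
    · rcases le_total t j with e | e
      · rw [E1 t e, F1 t e]; exact (h.pair t (by omega)).cm v
      · rw [E2 t e, F2 t e ht]; exact (h.pair _ (by omega)).cm u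
    · rcases lt_or_ge t j with e | e
      · rw [E1 t e.le, F1 t e.le, E1 _ e, F1 _ e, p1 t e]
        exact (h.step t (by omega)).cm v
      · rw [E2 t e, F2 t e ht.le, E2 _ (by omega), F2 _ (by omega) ht, p2 t e]
        exact (h.step _ (by omega)).cm u
    · rw [E0 0 (by omega), F0 l (by omega)]; exact h.fin
  have nz1 : ∀ t, t < j → (NZ (p' t) (E' t) (F' (t + 1)) ↔ NZ (p t) (E t) (F (t + 1))) := by
    intro t ht
    rw [E1 t ht.le, F1 _ ht, p1 t ht]; exact NZ.cm v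
  have nz2 : ∀ t, j ≤ t → t < l →
      (NZ (p' t) (E' t) (F' (t + 1)) ↔ NZ (p (t + 1)) (E (t + 1)) (F (t + 1 + 1))) := by
    intro t ht hl
    rw [E2 t ht, F2 _ (by omega) hl, p2 t ht]; exact NZ.cm u
  have gr : ∀ t, t < l + 1 → ∀ π', (∀ s, s ≤ t → PresF π' (E s)) →
      (∀ s, t + 1 ≤ s → s ≤ l + 1 → PresF π' (F s)) →
      ∀ s, j + 1 ≤ s → s ≤ t → PresF π' (cm u (E s)) := fun t ht π' h1 h2 s hs hs' r =>
    pres_gr hi πα hβ (cπ t ht π' h1 h2) (h1 s hs' r) (fun _ => mem_tv)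
      ((fw s hs (by omega)).2 r)
  have IH := ih p' E' F' h' (by
    intro t ht hn
    have hjt : j ≤ t := by
      by_contra hlt
      exact hmin t (by omega) ((nz1 t (by omega)).1 hn)
    obtain ⟨π', i', qE, qF, qn⟩ := hbad (t + 1) (by omega) ((nz2 t hjt ht).1 hn)
    refine ⟨π', i', fun s hs => ?_, fun s hs hs' => ?_, ?_⟩
    · rcases le_total s j with e | e
      · rw [E0 s e]; exact qE s (by omega)
      · rw [E2 s e]; exact gr (t + 1) (by omega) π' qE qF _ (by omega) (by omega)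
    · rw [F0 s (by omega)]; exact qF _ (by omega) (by omega)
    · rw [F0 t hjt, p2 t hjt]; exact qn)
  have L4 : ∀ t, j + 1 ≤ t → t < l + 1 → NZ (p t) (E t) (F (t + 1)) →
      (α ∈ F t (p t + 1) → α ∈ F t (p t)) ∧
      (Kills β (F t (p t + 1)) → Kills β (F t (p t + 2))) := by
    intro t ht hl hn
    have s1 := h.step t hl
    obtain ⟨π', _, qE, qF, qn⟩ := hbad t hl hn
    obtain ⟨c, c1, c2⟩ := eig_of_pres (s1.pairNZ hn) βα βb α0 (fw (t + 1) (by omega) hl).1
      (qE t le_rfl) (qF _ le_rfl hl) (gr t hl π' qE qF t ht le_rfl)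
    have q1 : Pres π' (F t (p t)) := by rw [← s1.adjF _ (by omega)]; exact qF _ le_rfl hl _
    have q2 : Pres π' (F t (p t + 2)) := by rw [← s1.adjF _ (by omega)]; exact qF _ le_rfl hl _
    constructor
    · intro H
      by_contra H'
      exact qn ((s1.a.covF _ (by have := s1.lt; omega)).pres q1 H H'
        (by rw [c1]; exact Submodule.smul_mem _ _ H))
    · intro H
      by_contra H'
      exact qn fun y hy => (s1.a.covF _ s1.lt).mem_of_kills H H'
        (q2 y (s1.a.monoF (by omega) hy)) (by rw [c2, H y hy, mul_zero])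
  have aπ : Alg l E' F' π := by
    refine ⟨hi, fun t ht => ?_, fun t ht => ?_⟩
    · rcases le_total t j with e | e
      · rw [E0 t e]; exact pE t e
      · rw [E2 t e]; exact (fw _ (by omega) (by omega)).2
    · rcases le_total t j with e | e
      · rw [F1 t e]; exact (bw t e).2
      · rw [F0 t e]; exact pF _ (by omega) (by omega)
  have NO := fun s' (hs' : s' < l) (hz' : ¬ NZ (p' s') (E' s') (F' (s' + 1))) =>
    noAB h' (j := j) (q := p j) (by omega) hq (a := a) (β := β)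
      (by rw [F0 j le_rfl]; exact α1) (by rw [E0 j le_rfl]; exact α2) aα
      (by rw [F0 j le_rfl]; exact b1) (by rw [E0 j le_rfl]; exact b2) βb
      (by rw [F0 j le_rfl]; exact kb1) (by rw [E0 j le_rfl]; exact kb2)
      (fun t ht hl => by rw [F0 t ht]; exact (fw _ (by omega) (by omega)).1)
      (fun t ht => by rw [E0 t ht]; exact (bw t ht).1)
      (fun t ht H => hmin t ht ((nz1 t ht).1 H))
      (fun t ht hl H => by
        rw [F0 t ht, p2 t ht]; exact (L4 _ (by omega) (by omega) ((nz2 t ht hl).1 H)).1)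
      (fun t ht hl H => by
        rw [F0 t ht, p2 t ht]; exact (L4 _ (by omega) (by omega) ((nz2 t ht hl).1 H)).2)
      IH aπ πα πb hs' hz'
  have conv : ∀ π', Alg l E' F' π' → ((π' α = α ∧ π' b = b) ∨ (π' α = 0 ∧ π' b = 0)) →
      Alg (l + 1) E F π' := by
    intro π' a' he
    have f1 : ∀ t, j + 1 ≤ t → t ≤ l + 1 → PresF π' (F t) := by
      intro t ht hl
      obtain ⟨t, rfl⟩ : ∃ t', t = t' + 1 := ⟨t - 1, by omega⟩
      rw [← F0 t (by omega)]; exact a'.pF t (by omega)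
    have e1 : PresF π' (E j) := by rw [← E0 j le_rfl]; exact a'.pE j (by omega)
    have f2 : PresF π' (F j) := by
      refine presF_adj (fun r hr => (st.adjF r hr).symm) (f1 _ le_rfl hj) ?_
      refine (st.a.covF (p j) (by omega)).pres ?_ y1 (fun H' => ?_) ?_
      · rw [← st.adjF _ (by omega)]; exact f1 _ le_rfl hj _
      · have := ka1 _ H'
        rw [map_add, aα, ab, add_zero] at this
        exact one_ne_zero this
      · rcases he with he | he
        · rw [map_add, he.1, he.2]; exact y1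
        · rw [map_add, he.1, he.2, add_zero]; exact Submodule.zero_mem _
    have f3 : ∀ t, j ≤ t → t ≤ l + 1 → PresF π' (F t) := by
      intro t ht hl
      rcases Nat.lt_or_eq_of_le ht with e | e
      · exact f1 t e hl
      · rw [← e]; exact f2
    refine ⟨a'.idem, fun t ht => ?_, fun t ht => ?_⟩
    · rcases le_total t j with e | e
      · exact (h.back hj.le hmin e1 f2 t e).1
      · exact h.forw e1 f3 t e ht
    · rcases le_total t j with e | e
      · exact (h.back hj.le hmin e1 f2 t e).2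
      · exact f3 t e ht
  have ps := h.pair s hs.le
  rcases lt_trichotomy s j with e | e | e
  · obtain ⟨π', a', sep, he⟩ := NO s (by omega) (fun H => hzs ((nz1 s e).1 H))
    have A := conv π' a' he
    refine ⟨π', A, fun H => sep ?_⟩
    rw [← ps.nonSepE (A.pE s hs.le) (A.pF s hs.le), ← E0 s e.le, ← p1 s e,
      (h'.pair s (by omega)).nonSepE (a'.pE s (by omega)) (a'.pF s (by omega))] at H
    exact H
  · subst e; exact absurd nz hzs
  · obtain ⟨s, rfl⟩ : ∃ s', s = s' + 1 := ⟨s - 1, by omega⟩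
    obtain ⟨π', a', sep, he⟩ := NO s (by omega) (fun H => hzs ((nz2 s (by omega) (by omega)).1 H))
    have A := conv π' a' he
    refine ⟨π', A, fun H => sep ?_⟩
    rw [← ps.nonSepF (A.pE _ hs.le) (A.pF _ hs.le), ← F0 s (by omega), ← p2 s (by omega),
      (h'.pair s (by omega)).nonSepF (a'.pE s (by omega)) (a'.pF s (by omega))] at H
    exact H

/-- The infinite strip of flags obtained by rotating a configuration. -/
structure Strip (k l : ℕ) (p : ℕ → ℕ) (E F : ℕ → Fl κ V) : Prop where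
  step : ∀ t, Step k (p t) (E t) (F t) (E (t + 1)) (F (t + 1))
  far : ∀ t, Pair k (E t) (F (t + l))
  ntr : ∀ t, ¬ Disjoint (F (t + 1 + l) (p t + 1)) (E t (p t + 1))
  per : ∀ t, p (t + l) = p t

/-- No idempotent preserving the configuration separates a crossing. -/
def Conn (E₀ : Fl κ V) (F : ℕ → Fl κ V) (p : ℕ → ℕ) (b c : ℕ) : Prop :=
  ∀ π : V →ₗ[κ] V, Idem π → PresF π E₀ → (∀ s, b ≤ s → s ≤ c → PresF π (F s)) →
    ∀ s, b ≤ s → s < c → NonSep π (F s (p s)) (F s (p s + 2))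

theorem key [FiniteDimensional κ V] {l : ℕ} {p : ℕ → ℕ} {E F : ℕ → Fl κ V}
    (h : Strip k l p E F) (hl : 0 < l) (H : Conn (E 0) F p 0 l) :
    ∃ t, t < l ∧ NZ (p t) (E t) (F (t + 1)) ∧ Conn (E t) F p (t + 1) (t + l) := by
  by_contra hn
  push Not at hn
  have ch : Chain k l p E F :=
    ⟨fun t _ => (h.step t).a, fun t _ => h.step t, by simpa using h.far 0⟩
  have data : ∀ t, t < l → NZ (p t) (E t) (F (t + 1)) → ∃ π : V →ₗ[κ] V, Idem π ∧
      (∀ s, s ≤ t → PresF π (E s)) ∧ (∀ s, t + 1 ≤ s → s ≤ t + l → PresF π (F s)) ∧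
      ∃ s, t + 1 ≤ s ∧ s < t + l ∧ ¬ NonSep π (F s (p s)) (F s (p s + 2)) := by
    intro t ht nz
    have := hn t ht nz
    unfold Conn at this
    push Not at this
    obtain ⟨π, hi, pE, pF, hs⟩ := this
    refine ⟨π, hi, fun s hs => ?_, pF, hs⟩
    induction hs using Nat.decreasingInduction with
    | self => exact pE
    | of_succ s hs ih =>
      have st := h.step s
      exact (h.far (s + 1)).presE_ntr st.lt (fun r hr => (st.adjE r hr).symm) (st.a.covE _ st.lt)
        (st.a.antiE (by omega)) (h.ntr s) ih (pF _ (by omega) (by omega))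
  have bad : ∀ t, t < l → NZ (p t) (E t) (F (t + 1)) → Bad l p E F t := by
    intro t ht nz
    obtain ⟨π, hi, pE, pF, s, s1, s2, sep⟩ := data t ht nz
    refine ⟨π, hi, pE, fun s hs hs' => pF s hs (by omega), fun hp => sep ?_⟩
    have f0 : PresF π (F t) :=
      presF_adj (fun r hr => ((h.step t).adjF r hr).symm) (pF _ le_rfl (by omega)) hp
    have f1 : ∀ s, s ≤ t → PresF π (F s) := by
      intro s hs
      induction hs using Nat.decreasingInduction with
      | self => exact f0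
      | of_succ s hs ih => exact (h.step s).bwdF (pE _ hs) ih
    have f2 : ∀ s, s ≤ t + l → PresF π (F s) := by
      intro s hs
      rcases le_or_gt s t with e | e
      · exact f1 s e
      · exact pF s e hs
    have H' := H π hi (pE 0 (by omega)) (fun s _ hs => f2 s (by omega))
    rcases lt_or_ge s l with e | e
    · exact H' s (by omega) e
    · obtain ⟨s, rfl⟩ : ∃ s', s = s' + l := ⟨s - l, by omega⟩
      have e1 := H' s (by omega) (by omega)
      rw [(h.step s).a.nonSepF (pE s (by omega)) (f2 s (by omega)),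
        ← (h.step s).a.nonSepE (pE s (by omega)) (f2 s (by omega)),
        (h.far s).nonSepE (pE s (by omega)) (f2 _ (by omega)),
        ← (h.far s).nonSepF (pE s (by omega)) (f2 _ (by omega))] at e1
      rw [h.per]; exact e1
  have allnz : ∀ s, s < l → NZ (p s) (E s) (F (s + 1)) := by
    intro s hs
    by_contra hz
    obtain ⟨π, a, sep⟩ := cstar l p E F ch bad s hs hz
    apply sep
    rw [← (h.step s).a.nonSepF (a.pE s hs.le) (a.pF s hs.le)]
    exact H π a.idem (a.pE 0 (by omega)) (fun s _ hs => a.pF s hs) s (by omega) hs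
  obtain ⟨π, _, pE, pF, s, s1, s2, sep⟩ := data 0 hl (allnz 0 hl)
  obtain ⟨π', _, qE, qF, qn⟩ := bad s (by omega) (allnz s (by omega))
  exact qn ((h.step s).lemma1 (pF s s1 (by omega)) (pF _ (by omega) (by omega)) sep
    (ch.fin.comm (pE 0 le_rfl) (pF l (by omega) (by omega)) (qE 0 (by omega))
      (qF l (by omega) le_rfl)) (qF _ le_rfl (by omega)))

end Pool.Agent.MP_122b1e_ag

end
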